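import Pool.Agent.H633R5.FS.Sum

/-!
One step of the decomposition of a cell `(C, R)` at a prime `p`.
-/

set_option autoImplicit false

namespace H633R5.FS

open Finset
open scoped Pointwise

/-- the elements of `C` that are more divisible by `p` than the others -/
def hi (p t : ℕ) (C : Finset ℤ) : Finset ℤ := C.filter fun c => padicValInt p c ≠ t

/-- the elements of `C` with the least `p`-adic valuation `t` -/
def lo (p t : ℕ) (C : Finset ℤ) : Finset ℤ := C.filter fun c => ¬ padicValInt p c ≠ t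

theorem hi_subset (p t : ℕ) (C : Finset ℤ) : hi p t C ⊆ C := Finset.filter_subset _ _

theorem lo_subset (p t : ℕ) (C : Finset ℤ) : lo p t C ⊆ C := Finset.filter_subset _ _

theorem mem_hi {p t : ℕ} {C : Finset ℤ} {c : ℤ} :
    c ∈ hi p t C ↔ c ∈ C ∧ padicValInt p c ≠ t := Finset.mem_filter

theorem mem_lo {p t : ℕ} {C : Finset ℤ} {c : ℤ} :
    c ∈ lo p t C ↔ c ∈ C ∧ padicValInt p c = t := by
  unfold lo
  rw [Finset.mem_filter, not_not]

theorem card_hi_lo (p t : ℕ) (C : Finset ℤ) : (hi p t C).card + (lo p t C).card = C.card :=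
  Finset.card_filter_add_card_filter_not (s := C) _

theorem step (p : ℕ) [Fact p.Prime] (C R : Finset ℤ) (hR : R.Nonempty) (h0 : ∀ c ∈ C, c ≠ 0)
    (t : ℕ) (ht : ∀ c ∈ C, t ≤ padicValInt p c) (hhi : (hi p t C).Nonempty)
    (hlo : (lo p t C).Nonempty) (x : ℝ) (hx : x = ((hi p t C).card : ℝ) / C.card) :
    ∃ (R' R'' : Finset ℤ) (w ξ : ZMod p → ℝ) (z₀ : ZMod p),
      R' ⊆ R ∧ R'.Nonempty ∧ R'' ⊆ R' ∧ R''.Nonempty ∧ g C R' ≤ g C R ∧
      g (hi p t C) R'' ≤ g (hi p t C) R' ∧ (R''.card : ℝ) ≤ w z₀ * R'.card ∧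
      Dist w ξ z₀ ∧
      Inf x w ξ ≤ g C R' - x * g (hi p t C) R' - (1 - x) * g (lo p t C) R' := by
  have hp : p.Prime := Fact.out
  have hppos : 0 < p := hp.pos
  have hC : C.Nonempty := hlo.mono (lo_subset _ _ _)
  have : NeZero (p ^ t) := ⟨(pow_pos hppos t).ne'⟩
  have hdvd : ∀ c ∈ C, ((p : ℤ) ^ t) ∣ c := fun c hc =>
    (padicValInt_dvd_iff t c).2 (Or.inr (ht c hc))
  -- first reduction
  obtain ⟨κ, hκ, hg⟩ := exists_class C R hC hR (fun z => (z : ZMod (p ^ t)))
    (fun z => (z : ZMod (p ^ t))) (fun c hc r _ => by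
      have h1 : ((c : ℤ) : ZMod (p ^ t)) = 0 := by
        rw [ZMod.intCast_zmod_eq_zero_iff_dvd]
        push_cast
        exact hdvd c hc
      push_cast
      rw [h1, zero_add])
  obtain ⟨r₀, hr₀, hr₀κ⟩ := Finset.mem_image.1 hκ
  set R' := R.filter (fun r : ℤ => (r : ZMod (p ^ t)) = κ) with hR'
  have hr₀' : r₀ ∈ R' := Finset.mem_filter.2 ⟨hr₀, hr₀κ⟩
  have hR'ne : R'.Nonempty := ⟨r₀, hr₀'⟩
  have hdvdR : ∀ r ∈ R', ((p : ℤ) ^ t) ∣ r - r₀ := by
    intro r hr
    have h1 := (Finset.mem_filter.1 hr).2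
    have h2 : ((r - r₀ : ℤ) : ZMod (p ^ t)) = 0 := by
      push_cast
      rw [h1, ← hr₀κ, sub_self]
    rw [ZMod.intCast_zmod_eq_zero_iff_dvd] at h2
    push_cast at h2
    exact h2
  set ψC : ℤ → ZMod p := fun c => ((c / (p : ℤ) ^ t : ℤ) : ZMod p) with hψC
  set ψR : ℤ → ZMod p := fun r => (((r - r₀) / (p : ℤ) ^ t : ℤ) : ZMod p) with hψR
  have hadd : ∀ c ∈ C, ∀ r ∈ R', ψR (c + r) = ψC c + ψR r := by
    intro c hc r hr
    show (((c + r - r₀) / (p : ℤ) ^ t : ℤ) : ZMod p) = ((c / (p : ℤ) ^ t : ℤ) : ZMod p) +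
      (((r - r₀) / (p : ℤ) ^ t : ℤ) : ZMod p)
    rw [add_sub_assoc, Int.add_ediv_of_dvd_left (hdvd c hc)]
    push_cast
    rfl
  have hpt : ((p : ℤ) ^ t) ≠ 0 := by
    have : (p : ℤ) ≠ 0 := by exact_mod_cast hppos.ne'
    positivity
  have hzero : ∀ c ∈ C, padicValInt p c ≠ t → ψC c = 0 := by
    intro c hc hne
    have h1 : ((p : ℤ) ^ (t + 1)) ∣ c :=
      (padicValInt_dvd_iff (t + 1) c).2 (Or.inr (by have := ht c hc; omega))
    obtain ⟨m, hm⟩ := h1
    show ((c / (p : ℤ) ^ t : ℤ) : ZMod p) = 0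
    have h2 : c = (p : ℤ) ^ t * (p * m) := by rw [hm]; ring
    rw [h2, Int.mul_ediv_cancel_left _ hpt]
    push_cast
    simp
  have hnz : ∀ c ∈ lo p t C, ψC c ≠ 0 := by
    intro c hc hcon
    obtain ⟨hcC, hct⟩ := mem_lo.1 hc
    obtain ⟨m, hm⟩ := hdvd c hcC
    have h1 : ((c / (p : ℤ) ^ t : ℤ) : ZMod p) = 0 := hcon
    rw [hm, Int.mul_ediv_cancel_left _ hpt, ZMod.intCast_zmod_eq_zero_iff_dvd] at h1
    obtain ⟨m', hm'⟩ := h1
    have h2 : ((p : ℤ) ^ (t + 1)) ∣ c := ⟨m', by rw [hm, hm']; ring⟩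
    rcases (padicValInt_dvd_iff (t + 1) c).1 h2 with h3 | h3
    · exact h0 c hcC h3
    · omega
  -- the distributions
  obtain ⟨z₀, hz₀⟩ := Finite.exists_max (dw R' ψR)
  have hsub : hi p t C ⊆ C := hi_subset _ _ _
  obtain ⟨κ', hκ', hg'⟩ := exists_class (hi p t C) R' hhi hR'ne ψR ψR (fun c hc r hr => by
    rw [hadd c (hsub hc) r hr, hzero c (hsub hc) (mem_hi.1 hc).2, zero_add])
  obtain ⟨r₁, hr₁, hr₁κ⟩ := Finset.mem_image.1 hκ'
  refine ⟨R', R'.filter (fun r => ψR r = κ'), dw R' ψR, dw (lo p t C) ψC, z₀,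
    Finset.filter_subset _ _, hR'ne, Finset.filter_subset _ _,
    ⟨r₁, Finset.mem_filter.2 ⟨hr₁, hr₁κ⟩⟩, hg, hg', ?_, ?_, ?_⟩
  · rw [← card_mul_dw R' hR'ne ψR κ', mul_comm]
    exact mul_le_mul_of_nonneg_right (hz₀ κ') (by positivity)
  · refine ⟨dw_nonneg _ _, dw_sum _ hR'ne _, dw_nonneg _ _, dw_sum _ hlo _, ?_, hz₀⟩
    unfold dw
    rw [div_eq_zero_iff]
    left
    have : (lo p t C).filter (fun r => ψC r = 0) = ∅ :=
      Finset.filter_eq_empty_iff.2 fun {c} hc => hnz c hc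
    rw [this]
    simp
  · exact g_split C R' hR'ne (fun c => padicValInt p c ≠ t) hhi hlo ψC ψR ψR hadd hzero x hx

/-- the potential -/
noncomputable def F (a K e : ℝ) (C R : Finset ℤ) : ℝ :=
  a * Real.log C.card - K * g C R - e * Real.log R.card

theorem F_le (a K e : ℝ) (hK : 0 ≤ K) (he : 0 ≤ e) (C R : Finset ℤ)
    (hC : C.Nonempty) (hR : R.Nonempty) : F a K e C R ≤ a * Real.log C.card := by
  unfold F
  have h1 := mul_nonneg hK (g_nonneg C R hC hR)
  have h2 : 0 ≤ Real.log R.card := Real.log_natCast_nonneg _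
  have h3 := mul_nonneg he h2
  linarith

theorem cell (a xg : ℝ) (ha : 0 < a) (ha1 : a ≤ 1) (hxg : 0 < xg) :
    ∃ c : ℝ, 0 < c ∧ ∀ e : ℝ, 0 < e → e ≤ a → ∀ K : ℝ, K = Real.exp (c / e) →
      ∀ (p : ℕ) [Fact p.Prime], Real.exp (c / e) ≤ p → ∀ (C R : Finset ℤ),
      R.Nonempty → (∀ c ∈ C, c ≠ 0) → ∀ t : ℕ, (∀ c ∈ C, t ≤ padicValInt p c) →
      (hi p t C).Nonempty → (lo p t C).Nonempty → ∀ x : ℝ,
      x = ((hi p t C).card : ℝ) / C.card →
      ∃ R' R'' : Finset ℤ, R'.Nonempty ∧ R''.Nonempty ∧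
        -(a * Psi x (1 - x)) ≤ (1 - x) * (F a K e (lo p t C) R' - F a K e C R) +
          x * (F a K e (hi p t C) R'' - F a K e C R) ∧
        (xg ≤ x → 0 ≤ (1 - x) * (F a K e (lo p t C) R' - F a K e C R) +
          x * (F a K e (hi p t C) R'' - F a K e C R)) := by
  obtain ⟨c, hc, hkey⟩ := key xg hxg
  refine ⟨c, hc, ?_⟩
  intro e he hea K hKe p _ hp C R hR h0 t ht hhi hlo x hx
  have hK : 0 < K := by rw [hKe]; exact Real.exp_pos _
  have hce : Real.exp (c / (e / a)) ≤ Real.exp (c / e) := by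
    apply Real.exp_le_exp.2
    apply div_le_div_of_nonneg_left hc.le he
    rw [le_div_iff₀ ha]
    nlinarith
  obtain ⟨R', R'', w, ξ, z₀, hsub, hR', hsub', hR'', hg, hg', hcard, hD, hI⟩ :=
    step p C R hR h0 t ht hhi hlo x hx
  refine ⟨R', R'', hR', hR'', ?_⟩
  have chi : (0 : ℝ) < (hi p t C).card := by exact_mod_cast hhi.card_pos
  have clo : (0 : ℝ) < (lo p t C).card := by exact_mod_cast hlo.card_pos
  have hcardC : ((hi p t C).card : ℝ) + (lo p t C).card = C.card := by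
    exact_mod_cast card_hi_lo p t C
  have cC : (0 : ℝ) < C.card := by linarith
  have cR : (0 : ℝ) < R.card := by exact_mod_cast hR.card_pos
  have cR' : (0 : ℝ) < R'.card := by exact_mod_cast hR'.card_pos
  have cR'' : (0 : ℝ) < R''.card := by exact_mod_cast hR''.card_pos
  have hx0 : 0 < x := by rw [hx]; positivity
  have hx' : 1 - x = ((lo p t C).card : ℝ) / C.card := by
    rw [hx]; field_simp; linarith
  have hx1 : 0 < 1 - x := by rw [hx']; positivity
  have hInf := Inf_nonneg hD hx0.le (by linarith)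
  have hw := hD.pos
  have hlogw : 0 ≤ Real.log (1 / w z₀) := by
    apply Real.log_nonneg
    rw [le_div_iff₀ hw]; linarith [hD.le_one z₀]
  have hF : F a K e C R ≤ F a K e C R' := by
    unfold F
    have h1 := mul_le_mul_of_nonneg_left hg hK.le
    have h2 : Real.log R'.card ≤ Real.log R.card :=
      Real.log_le_log cR' (by exact_mod_cast Finset.card_le_card hsub)
    have h3 := mul_le_mul_of_nonneg_left h2 he.le
    linarith
  have e2 : Psi x (1 - x) = Real.log C.card - x * Real.log (hi p t C).card -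
      (1 - x) * Real.log (lo p t C).card := by
    rw [Psi_one]
    have f0 : Real.log (1 / x) = Real.log C.card - Real.log (hi p t C).card := by
      rw [hx, one_div, Real.log_inv, Real.log_div chi.ne' cC.ne']; ring
    have f1 : Real.log (1 / (1 - x)) = Real.log C.card - Real.log (lo p t C).card := by
      rw [hx', one_div, Real.log_inv, Real.log_div clo.ne' cC.ne']; ring
    rw [f0, f1]
    ring
  have hlogR'' : Real.log R''.card ≤ Real.log R'.card - Real.log (1 / w z₀) := by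
    have h1 : Real.log R''.card ≤ Real.log (w z₀ * R'.card) := Real.log_le_log cR'' hcard
    rw [Real.log_mul hw.ne' cR'.ne'] at h1
    rw [one_div, Real.log_inv]
    linarith
  have main : -(a * Psi x (1 - x)) + K * Inf x w ξ + e * x * Real.log (1 / w z₀) ≤
      (1 - x) * (F a K e (lo p t C) R' - F a K e C R) +
          x * (F a K e (hi p t C) R'' - F a K e C R) := by
    have h1 : (1 - x) * (F a K e (lo p t C) R' - F a K e C R) +
          x * (F a K e (hi p t C) R'' - F a K e C R) =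
        (1 - x) * F a K e (lo p t C) R' + x * F a K e (hi p t C) R'' - F a K e C R := by ring
    rw [h1]
    have h2 : (1 - x) * F a K e (lo p t C) R' + x * F a K e (hi p t C) R'' - F a K e C R' ≤
        (1 - x) * F a K e (lo p t C) R' + x * F a K e (hi p t C) R'' - F a K e C R := by
      linarith
    refine le_trans ?_ h2
    unfold F
    have h3 := mul_le_mul_of_nonneg_left hI hK.le
    have h4 : x * (K * g (hi p t C) R'') ≤ x * (K * g (hi p t C) R') :=
      mul_le_mul_of_nonneg_left (mul_le_mul_of_nonneg_left hg' hK.le) hx0.le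
    have h5 : x * (e * Real.log R''.card) ≤
        x * (e * (Real.log R'.card - Real.log (1 / w z₀))) :=
      mul_le_mul_of_nonneg_left (mul_le_mul_of_nonneg_left hlogR'' he.le) hx0.le
    rw [e2]
    nlinarith
  constructor
  · have h1 : 0 ≤ K * Inf x w ξ := by positivity
    have h2 : 0 ≤ e * x * Real.log (1 / w z₀) := by positivity
    linarith
  · intro hxx
    have h1 := hkey (e / a) (by positivity) (by rw [div_le_one ha]; exact hea) p
      (hce.trans hp) w ξ z₀ hD x hxx (by linarith)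
    have h1' : Real.exp (c / (e / a)) * Inf x w ξ ≤ K * Inf x w ξ := by
      rw [hKe]
      exact mul_le_mul_of_nonneg_right hce hInf
    have h2 := mul_le_mul_of_nonneg_left (h1.trans (add_le_add_left h1' _)) ha.le
    have h3 : a * (K * Inf x w ξ + e / a * x * Real.log (1 / w z₀)) =
        a * (K * Inf x w ξ) + e * x * Real.log (1 / w z₀) := by
      field_simp
    rw [h3] at h2
    have h4 : a * (K * Inf x w ξ) ≤ 1 * (K * Inf x w ξ) :=
      mul_le_mul_of_nonneg_right ha1 (by positivity)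
    linarith

end H633R5.FS
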