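import Mathlib

/-!
A distribution on `ZMod p`, `p` a large prime, with a large atom, is far from its convolution with
any distribution on the nonzero classes.
-/

set_option autoImplicit false

namespace H633R5.FS

open Finset

theorem chain (θ : ℝ) (hθ : 0 < θ) (hθ1 : θ ≤ 1) (p : ℕ) [Fact p.Prime] (hp : 3 / θ ≤ p)
    (w ξ : ZMod p → ℝ) (hw : ∀ z, 0 ≤ w z) (hw1 : ∑ z, w z = 1) (hξ : ∀ c, 0 ≤ ξ c)
    (hξ1 : ∑ c, ξ c = 1) (hξ0 : ξ 0 = 0) (z₀ : ZMod p) (hθz : θ ≤ w z₀) :
    ∃ z, θ ^ 4 / 128 ≤ |w z - ∑ c, ξ c * w (z - c)| := by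
  by_contra hcon
  push Not at hcon
  -- the Dirichlet form
  have hsq : ∀ c, ∑ z, (w z - w (z - c)) ^ 2 = 2 * ∑ z, w z ^ 2 - 2 * ∑ z, w z * w (z - c) := by
    intro c
    have h1 : ∑ z, w (z - c) ^ 2 = ∑ z, w z ^ 2 :=
      Fintype.sum_equiv (Equiv.subRight c) _ _ fun z => rfl
    have h2 : ∀ z, (w z - w (z - c)) ^ 2 = w z ^ 2 + w (z - c) ^ 2 - 2 * (w z * w (z - c)) :=
      fun z => by ring
    rw [Finset.sum_congr rfl fun z _ => h2 z, Finset.sum_sub_distrib, Finset.sum_add_distrib, h1,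
      ← Finset.mul_sum]
    ring
  have hD : ∑ c, ξ c * ∑ z, (w z - w (z - c)) ^ 2 =
      2 * ∑ z, w z * (w z - ∑ c, ξ c * w (z - c)) := by
    have h1 : ∀ c, ξ c * ∑ z, (w z - w (z - c)) ^ 2 =
        ξ c * (2 * ∑ z, w z ^ 2) - 2 * ∑ z, w z * (ξ c * w (z - c)) := by
      intro c
      rw [hsq c, mul_sub]
      congr 1
      rw [Finset.mul_sum, Finset.mul_sum, Finset.mul_sum]
      refine Finset.sum_congr rfl fun z _ => ?_
      ring
    rw [Finset.sum_congr rfl fun c _ => h1 c, Finset.sum_sub_distrib, ← Finset.sum_mul, hξ1,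
      one_mul, ← Finset.mul_sum, Finset.sum_comm, ← mul_sub]
    congr 1
    rw [← Finset.sum_sub_distrib]
    refine Finset.sum_congr rfl fun z _ => ?_
    rw [← Finset.mul_sum]
    ring
  have hDle : ∑ c, ξ c * ∑ z, (w z - w (z - c)) ^ 2 ≤ θ ^ 4 / 64 := by
    rw [hD]
    have h1 : ∑ z, w z * (w z - ∑ c, ξ c * w (z - c)) ≤ ∑ z, w z * (θ ^ 4 / 128) := by
      refine Finset.sum_le_sum fun z _ => mul_le_mul_of_nonneg_left ?_ (hw z)
      exact (le_abs_self _).trans (hcon z).le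
    rw [← Finset.sum_mul, hw1, one_mul] at h1
    linarith
  obtain ⟨c, hc0, hc1⟩ : ∃ c, 0 < ξ c ∧ ∑ z, (w z - w (z - c)) ^ 2 ≤ θ ^ 4 / 64 := by
    by_contra hno
    push Not at hno
    have hpos : ∃ c, 0 < ξ c := by
      by_contra h
      push Not at h
      have : ∑ c, ξ c ≤ 0 := Finset.sum_nonpos fun c _ => h c
      rw [hξ1] at this
      linarith
    obtain ⟨c₁, hc₁⟩ := hpos
    have h2 : ∑ c, ξ c * (θ ^ 4 / 64) < ∑ c, ξ c * ∑ z, (w z - w (z - c)) ^ 2 := by
      apply Finset.sum_lt_sum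
      · intro c _
        rcases (hξ c).eq_or_lt with h | h
        · rw [← h]; simp
        · exact mul_le_mul_of_nonneg_left (hno c h).le (hξ c)
      · exact ⟨c₁, Finset.mem_univ _, mul_lt_mul_of_pos_left (hno c₁ hc₁) hc₁⟩
    rw [← Finset.sum_mul, hξ1, one_mul] at h2
    linarith
  have hcne : c ≠ 0 := by
    intro h
    rw [h, hξ0] at hc0
    exact lt_irrefl _ hc0
  have hstep : ∀ z, w z - θ ^ 2 / 8 ≤ w (z - c) := by
    intro z
    have h1 : (w z - w (z - c)) ^ 2 ≤ θ ^ 4 / 64 :=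
      (Finset.single_le_sum (f := fun z => (w z - w (z - c)) ^ 2) (fun z _ => sq_nonneg _)
        (Finset.mem_univ z)).trans hc1
    have h2 : (w z - w (z - c)) ^ 2 ≤ (θ ^ 2 / 8) ^ 2 := by
      have : (θ ^ 2 / 8) ^ 2 = θ ^ 4 / 64 := by ring
      rw [this]; exact h1
    have h3 := abs_le_of_sq_le_sq h2 (by positivity)
    have h4 := (abs_le.1 (abs_le_of_sq_le_sq h2 (by positivity))).2
    linarith
  have hchain : ∀ j : ℕ, θ - j * (θ ^ 2 / 8) ≤ w (z₀ - j * c) := by
    intro j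
    induction j with
    | zero => simpa using hθz
    | succ j ih =>
      have h1 := hstep (z₀ - (j : ZMod p) * c)
      have e : z₀ - (j : ZMod p) * c - c = z₀ - ((j + 1 : ℕ) : ZMod p) * c := by
        push_cast; ring
      rw [e] at h1
      have h2 : θ - ((j + 1 : ℕ) : ℝ) * (θ ^ 2 / 8) = θ - j * (θ ^ 2 / 8) - θ ^ 2 / 8 := by
        push_cast; ring
      rw [h2]
      linarith
  -- too much mass
  set J : ℕ := ⌊2 / θ⌋₊ + 1 with hJ
  have hJ1 : 2 / θ < J := by
    rw [hJ]; push_cast; exact Nat.lt_floor_add_one _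
  have hJ2 : ((J : ℝ) - 1) ≤ 2 / θ := by
    rw [hJ]; push_cast
    have := Nat.floor_le (by positivity : 0 ≤ 2 / θ)
    linarith
  have hJp : J ≤ p := by
    have h1 : (J : ℝ) ≤ 3 / θ := by
      have h2 : 1 ≤ 1 / θ := by rw [le_div_iff₀ hθ]; linarith
      have h3 : (3 : ℝ) / θ = 2 / θ + 1 / θ := by ring
      linarith
    exact_mod_cast h1.trans hp
  have hinj : Set.InjOn (fun j : ℕ => z₀ - (j : ZMod p) * c) (Finset.range J : Set ℕ) := by
    intro i hi j hj hij
    have hi' : i < J := by simpa using hi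
    have hj' : j < J := by simpa using hj
    have h1 : (i : ZMod p) * c = (j : ZMod p) * c := by
      have : z₀ - (i : ZMod p) * c = z₀ - (j : ZMod p) * c := hij
      exact sub_right_injective this
    have h2 : (i : ZMod p) = (j : ZMod p) := mul_right_cancel₀ hcne h1
    have h3 := (ZMod.natCast_eq_natCast_iff' i j p).1 h2
    rwa [Nat.mod_eq_of_lt (by omega), Nat.mod_eq_of_lt (by omega)] at h3
  have hmass : (J : ℝ) * (3 * θ / 4) ≤ 1 := by
    calc (J : ℝ) * (3 * θ / 4) = ∑ j ∈ Finset.range J, (3 * θ / 4) := by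
          rw [Finset.sum_const, Finset.card_range, nsmul_eq_mul]
      _ ≤ ∑ j ∈ Finset.range J, w (z₀ - (j : ZMod p) * c) := by
          refine Finset.sum_le_sum fun j hj => ?_
          have h1 := hchain j
          have h2 : (j : ℝ) ≤ 2 / θ := by
            have h3 : (j : ℝ) + 1 ≤ J := by
              exact_mod_cast Finset.mem_range.1 hj
            linarith
          have h3 : (j : ℝ) * (θ ^ 2 / 8) ≤ 2 / θ * (θ ^ 2 / 8) :=
            mul_le_mul_of_nonneg_right h2 (by positivity)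
          have h4 : 2 / θ * (θ ^ 2 / 8) = θ / 4 := by field_simp; norm_num
          linarith
      _ = ∑ z ∈ (Finset.range J).image (fun j : ℕ => z₀ - (j : ZMod p) * c), w z := by
          rw [Finset.sum_image]
          exact hinj
      _ ≤ ∑ z, w z := Finset.sum_le_univ_sum_of_nonneg hw
      _ = 1 := hw1
  have h5 : 2 / θ * (3 * θ / 4) < J * (3 * θ / 4) := mul_lt_mul_of_pos_right hJ1 (by positivity)
  have e : 2 / θ * (3 * θ / 4) = 3 / 2 := by field_simp; norm_num
  rw [e] at h5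
  linarith

end H633R5.FS
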