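import Pool.Agent.H633R5.FS.Fin

/-!
Growth of sumsets when the `k`-fold product set is not of almost maximal size.
-/

set_option autoImplicit false

namespace H633R5.FS

open Finset
open scoped Pointwise

/-- iterated sumsets -/
def S (A : Finset ℤ) : ℕ → Finset ℤ
  | 0 => {0}
  | (j + 1) => A + S A j

theorem S_nonempty {A : Finset ℤ} (hA : A.Nonempty) : ∀ j, (S A j).Nonempty
  | 0 => Finset.singleton_nonempty 0
  | (j + 1) => hA.add (S_nonempty hA j)

/-- sums of tuples -/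
def SS (m : ℕ) (A : Finset ℤ) : Finset ℤ :=
  (Fintype.piFinset fun _ : Fin m => A).image fun f => ∑ i, f i

theorem S_subset (A : Finset ℤ) : ∀ m, S A m ⊆ SS m A := by
  intro m
  induction m with
  | zero =>
    intro z hz
    have hz' : z = 0 := by simpa [S] using hz
    rw [hz']
    refine Finset.mem_image.2 ⟨fun i => i.elim0, ?_, by simp⟩
    rw [Fintype.mem_piFinset]
    intro i
    exact i.elim0
  | succ m ih =>
    intro z hz
    have hz' : z ∈ A + S A m := hz
    obtain ⟨a, ha, s, hs, rfl⟩ := Finset.mem_add.1 hz'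
    obtain ⟨f, hf, rfl⟩ := Finset.mem_image.1 (ih hs)
    rw [Fintype.mem_piFinset] at hf
    refine Finset.mem_image.2 ⟨Fin.cons a f, ?_, ?_⟩
    · rw [Fintype.mem_piFinset]
      intro i
      refine Fin.cases ?_ ?_ i
      · simpa using ha
      · intro j
        simpa using hf j
    · rw [Fin.sum_univ_succ]
      simp

/-- a slowly growing step -/
theorem slow_step (A : Finset ℤ) (hA : A.Nonempty) (m : ℕ) (hm : 2 ≤ m) :
    ∃ j, 1 ≤ j ∧ j < m ∧ Real.log (S A j).card ≤ Real.log (S A m).card ∧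
      ((m : ℝ) - 1) * Real.log (((A + S A j).card : ℝ) / (S A j).card) ≤
        Real.log (S A m).card - Real.log A.card := by
  have hc : ∀ j, (1 : ℝ) ≤ (S A j).card := fun j => by
    exact_mod_cast (S_nonempty hA j).card_pos
  set s : ℕ → ℝ := fun j => Real.log (S A j).card with hs
  have hs0 : ∀ j, 0 ≤ s j := fun j => Real.log_nonneg (hc j)
  have hmono1 : ∀ j, s j ≤ s (j + 1) := fun j => by
    apply Real.log_le_log (by linarith [hc j])
    exact_mod_cast Finset.card_le_card_add_left hA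
  have hmono : Monotone s := monotone_nat_of_le_succ hmono1
  have hratio : ∀ j, Real.log (((A + S A j).card : ℝ) / (S A j).card) = s (j + 1) - s j := by
    intro j
    have h1 : (0 : ℝ) < (A + S A j).card := by
      have := hc (j + 1)
      have e : S A (j + 1) = A + S A j := rfl
      rw [e] at this
      linarith
    rw [Real.log_div h1.ne' (by linarith [hc j])]
    rfl
  have hs1 : s 1 = Real.log A.card := by
    have e : S A 1 = A := by
      ext z
      show z ∈ A + {0} ↔ z ∈ A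
      rw [Finset.mem_add]
      constructor
      · rintro ⟨a, ha, b, hb, rfl⟩
        rw [Finset.mem_singleton.1 hb, add_zero]
        exact ha
      · intro hz
        exact ⟨z, hz, 0, Finset.mem_singleton_self 0, add_zero z⟩
    show Real.log (S A 1).card = Real.log A.card
    rw [e]
  by_contra hcon
  push Not at hcon
  rw [← hs1] at hcon
  have h1 : ∀ j ∈ Finset.Ico 1 m, s m - s 1 < ((m : ℝ) - 1) * (s (j + 1) - s j) := by
    intro j hj
    obtain ⟨hj1, hj2⟩ := Finset.mem_Ico.1 hj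
    have := hcon j hj1 hj2 (hmono hj2.le)
    rwa [hratio j] at this
  have h2 : ∑ j ∈ Finset.Ico 1 m, (s m - s 1) <
      ∑ j ∈ Finset.Ico 1 m, ((m : ℝ) - 1) * (s (j + 1) - s j) :=
    Finset.sum_lt_sum_of_nonempty ⟨1, Finset.mem_Ico.2 ⟨le_refl _, by omega⟩⟩ h1
  rw [← Finset.mul_sum, Finset.sum_Ico_sub s (by omega : 1 ≤ m), Finset.sum_const, Nat.card_Ico,
    nsmul_eq_mul, Nat.cast_sub (by omega)] at h2
  push_cast at h2
  linarith

theorem log_le_pow (x : ℝ) (hx : 0 < x) : Real.log x ≤ 4 / 3 * x ^ (3 / 4 : ℝ) := by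
  have h1 := Real.log_le_sub_one_of_pos (Real.rpow_pos_of_pos hx (3 / 4 : ℝ))
  rw [Real.log_rpow hx] at h1
  linarith

theorem log_le_sqrt (x : ℝ) (hx : 0 < x) : Real.log x ≤ 4 * x ^ (1 / 4 : ℝ) := by
  have h1 := Real.log_le_sub_one_of_pos (Real.rpow_pos_of_pos hx (1 / 4 : ℝ))
  rw [Real.log_rpow hx] at h1
  linarith

theorem growth (k : ℕ) (hk : 1 ≤ k) (ε : ℝ) (hε : 0 < ε) :
    ∃ c : ℝ, 0 < c ∧ ∀ A : Finset ℤ, A.Nonempty → ∀ m : ℕ, 2 ≤ m → (m : ℝ) ≤ Real.log A.card →
      c * (A.card : ℝ) ^ ((k : ℝ) - ε) ≤ (PS fun _ : Fin k => A).card ∨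
        (A.card : ℝ) ^ (1 + c * Real.log m) ≤ (SS m A).card := by
  have hk0 : (1 : ℝ) ≤ k := by exact_mod_cast hk
  set δ : ℝ := min (ε / (4 * k)) (1 / 2) with hδ
  have hδ0 : 0 < δ := by positivity
  have hδ1 : δ ≤ 1 / 2 := min_le_right _ _
  have hδk : 4 * (k * δ) ≤ ε := by
    have h1 : δ ≤ ε / (4 * k) := min_le_left _ _
    rw [le_div_iff₀ (by positivity)] at h1
    linarith
  obtain ⟨C, hC, htup⟩ := tuple_log k hk δ hδ0 hδ1
  set D : ℝ := Real.exp (C / δ) with hD
  have hD1 : 1 ≤ D := Real.one_le_exp (by positivity)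
  set T : ℝ := k * (2 * δ + 16 * D ^ 2 / δ) with hT
  have hT0 : 0 < T := by positivity
  set c : ℝ := min (min (δ / (4 * C)) (δ / (3 * D))) (Real.exp (-T)) with hc
  have hc0 : 0 < c := by positivity
  have hc1 : c ≤ δ / (4 * C) := (min_le_left _ _).trans (min_le_left _ _)
  have hc2 : c ≤ δ / (3 * D) := (min_le_left _ _).trans (min_le_right _ _)
  have hc3 : c ≤ Real.exp (-T) := min_le_right _ _
  have hc4 : c ≤ 1 := hc3.trans (Real.exp_le_one_iff.2 (by linarith))
  refine ⟨c, hc0, ?_⟩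
  intro A hA m hm hmA
  by_contra hcon
  push Not at hcon
  obtain ⟨hprod, hsum⟩ := hcon
  have hm2 : (2 : ℝ) ≤ m := by exact_mod_cast hm
  have hm0 : (0 : ℝ) < m := by linarith
  set ℓ : ℝ := Real.log A.card with hℓ
  have hℓ2 : 2 ≤ ℓ := by linarith
  have cA : (1 : ℝ) ≤ A.card := by exact_mod_cast hA.card_pos
  have hlogm : 0 < Real.log m := Real.log_pos (by linarith)
  set b : ℝ := c * Real.log m with hb
  have hb0 : 0 < b := by positivity
  -- a nonzero element
  have hA0 : ∃ a ∈ A, a ≠ 0 := by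
    by_contra h
    push Not at h
    have h1 : A ⊆ {0} := fun a ha => Finset.mem_singleton.2 (h a ha)
    have h2 : A.card ≤ 1 := by simpa using Finset.card_le_card h1
    have h3 : ℓ ≤ 0 := by
      rw [hℓ]
      apply Real.log_nonpos (by linarith)
      exact_mod_cast h2
    linarith
  -- the step
  obtain ⟨j, _, _, hj3, hj4⟩ := slow_step A hA m hm
  have hSm : Real.log (S A m).card ≤ (1 + b) * ℓ := by
    have h1 : ((S A m).card : ℝ) ≤ (A.card : ℝ) ^ (1 + b) := by
      have h2 : ((S A m).card : ℝ) ≤ (SS m A).card := by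
        exact_mod_cast Finset.card_le_card (S_subset A m)
      linarith
    have h2 : (0 : ℝ) < (S A m).card := by exact_mod_cast (S_nonempty hA m).card_pos
    have h3 := Real.log_le_log h2 h1
    rwa [Real.log_rpow (by linarith)] at h3
  have hP : (S A j).Nonempty := S_nonempty hA j
  have cP : (1 : ℝ) ≤ (S A j).card := by exact_mod_cast hP.card_pos
  have hlogP : 0 ≤ Real.log (S A j).card := Real.log_nonneg cP
  have hlogPb : Real.log (S A j).card ≤ (1 + b) * ℓ := hj3.trans hSm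
  set κ : ℝ := Real.log (((A + S A j).card : ℝ) / (S A j).card) with hκ
  have hκ0 : 0 ≤ κ := by
    apply Real.log_nonneg
    rw [le_div_iff₀ (by linarith), one_mul]
    exact_mod_cast Finset.card_le_card_add_left hA
  have hκb : κ ≤ 2 * b * ℓ / m := by
    rw [le_div_iff₀ hm0]
    have h1 : ((m : ℝ) - 1) * κ ≤ b * ℓ := by linarith
    nlinarith
  -- apply the inequality
  set e : ℝ := δ / (1 + b) with he
  have he0 : 0 < e := by positivity
  have he1 : e ≤ 1 := by
    rw [he, div_le_one (by positivity)]; linarith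
  have heb : e * (1 + b) = δ := by
    rw [he]; field_simp
  have h1 := htup e he0 he1 (fun _ => A) (fun _ => S A j) (fun _ => hA0) (fun _ => hP)
  rw [Finset.sum_const, Finset.card_univ, Fintype.card_fin, nsmul_eq_mul] at h1
  -- the size of the exponent
  have hE : Real.exp (C / e) ≤ D * (m : ℝ) ^ (1 / 4 : ℝ) := by
    have h2 : C / e = C / δ + C * b / δ := by rw [he]; field_simp
    rw [h2, Real.exp_add, Real.rpow_def_of_pos hm0]
    refine mul_le_mul_of_nonneg_left ?_ (by linarith)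
    apply Real.exp_le_exp.2
    have h3 : C * b / δ = (C * c / δ) * Real.log m := by rw [hb]; ring
    rw [h3, mul_comm (Real.log (m : ℝ))]
    refine mul_le_mul_of_nonneg_right ?_ hlogm.le
    rw [div_le_iff₀ hδ0]
    have h4 : C * c ≤ C * (δ / (4 * C)) := mul_le_mul_of_nonneg_left hc1 hC.le
    have h5 : C * (δ / (4 * C)) = 1 / 4 * δ := by field_simp
    linarith
  have hE0 : 0 < Real.exp (C / e) := Real.exp_pos _
  -- first loss
  have hloss1 : Real.exp (C / e) * κ ≤ δ * ℓ := by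
    have h2 : Real.exp (C / e) * κ ≤ (D * (m : ℝ) ^ (1 / 4 : ℝ)) * (2 * b * ℓ / m) :=
      mul_le_mul hE hκb hκ0 (by positivity)
    have h3 : (m : ℝ) ^ (1 / 4 : ℝ) * (m : ℝ) ^ (3 / 4 : ℝ) = m := by
      rw [← Real.rpow_add hm0]; norm_num
    have h4 : b ≤ c * (4 / 3 * (m : ℝ) ^ (3 / 4 : ℝ)) :=
      mul_le_mul_of_nonneg_left (log_le_pow m hm0) hc0.le
    have h5 : (D * (m : ℝ) ^ (1 / 4 : ℝ)) * (2 * b * ℓ / m) ≤
        (D * (m : ℝ) ^ (1 / 4 : ℝ)) * (2 * (c * (4 / 3 * (m : ℝ) ^ (3 / 4 : ℝ))) * ℓ / m) := by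
      refine mul_le_mul_of_nonneg_left ?_ (by positivity)
      apply div_le_div_of_nonneg_right _ hm0.le
      refine mul_le_mul_of_nonneg_right ?_ (by linarith)
      linarith
    have h6 : (D * (m : ℝ) ^ (1 / 4 : ℝ)) * (2 * (c * (4 / 3 * (m : ℝ) ^ (3 / 4 : ℝ))) * ℓ / m) =
        8 / 3 * D * c * ℓ := by
      have h7 : (D * (m : ℝ) ^ (1 / 4 : ℝ)) * (2 * (c * (4 / 3 * (m : ℝ) ^ (3 / 4 : ℝ))) * ℓ / m) =
          8 / 3 * D * c * ℓ * ((m : ℝ) ^ (1 / 4 : ℝ) * (m : ℝ) ^ (3 / 4 : ℝ)) / m := by ring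
      rw [h7, h3]
      field_simp
    have h7 : 8 / 3 * D * c ≤ δ := by
      have h8 : D * c ≤ D * (δ / (3 * D)) := mul_le_mul_of_nonneg_left hc2 (by linarith)
      have h9 : D * (δ / (3 * D)) = δ / 3 := by field_simp
      linarith
    have h8 : 8 / 3 * D * c * ℓ ≤ δ * ℓ := mul_le_mul_of_nonneg_right h7 (by linarith)
    linarith
  -- second loss
  have hloss2 : Real.exp (C / e) * Real.log (3 + Real.log (S A j).card) ≤
      δ * ℓ + (2 * δ + 16 * D ^ 2 / δ) := by
    have h2 : b ≤ ℓ := by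
      have h3 : Real.log m ≤ m := by
        have := Real.log_le_sub_one_of_pos hm0
        linarith
      have h4 : b ≤ 1 * Real.log m := mul_le_mul_of_nonneg_right hc4 hlogm.le
      linarith
    have h3 : 3 + Real.log (S A j).card ≤ (ℓ + 2) ^ 2 := by nlinarith
    have h4 : Real.log (3 + Real.log (S A j).card) ≤ 2 * Real.log (ℓ + 2) := by
      have h5 := Real.log_le_log (by linarith) h3
      rw [Real.log_pow] at h5
      push_cast at h5
      exact h5
    have h5 := log_le_sqrt (ℓ + 2) (by linarith)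
    have h6 : (m : ℝ) ^ (1 / 4 : ℝ) ≤ (ℓ + 2) ^ (1 / 4 : ℝ) :=
      Real.rpow_le_rpow hm0.le (by linarith) (by norm_num)
    have h0 : 0 ≤ Real.log (3 + Real.log (S A j).card) := Real.log_nonneg (by linarith)
    obtain ⟨q, hq⟩ : ∃ q : ℝ, q = (ℓ + 2) ^ (1 / 4 : ℝ) := ⟨_, rfl⟩
    have hq0 : 0 < q := by rw [hq]; exact Real.rpow_pos_of_pos (by linarith) _
    have hq4 : q ^ 4 = ℓ + 2 := by
      rw [hq, ← Real.rpow_natCast, ← Real.rpow_mul (by linarith)]
      norm_num
    rw [← hq] at h5 h6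
    have h7 : Real.exp (C / e) * Real.log (3 + Real.log (S A j).card) ≤ (D * q) * (8 * q) := by
      have h8 : Real.exp (C / e) ≤ D * q :=
        hE.trans (mul_le_mul_of_nonneg_left h6 (by linarith))
      exact mul_le_mul h8 (by linarith) h0 (by positivity)
    have h8 : (D * q) * (8 * q) ≤ δ * q ^ 4 + 16 * D ^ 2 / δ := by
      have h9 : 0 ≤ (δ * q ^ 2 - 4 * D) ^ 2 / δ := by positivity
      have h10 : (δ * q ^ 2 - 4 * D) ^ 2 / δ = δ * q ^ 4 - 8 * D * q ^ 2 + 16 * D ^ 2 / δ := by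
        field_simp
        ring
      rw [h10] at h9
      linarith
    rw [hq4] at h8
    linarith
  have h2 : (k : ℝ) * ((1 - δ) * ℓ - δ * ℓ - (δ * ℓ + (2 * δ + 16 * D ^ 2 / δ)) - δ * ℓ) ≤
      Real.log (PS fun _ : Fin k => A).card := by
    refine le_trans (mul_le_mul_of_nonneg_left ?_ (by linarith)) h1
    have h3 : e * Real.log (S A j).card ≤ δ * ℓ := by
      have h4 : e * Real.log (S A j).card ≤ e * ((1 + b) * ℓ) :=
        mul_le_mul_of_nonneg_left hlogPb he0.le
      have h5 : e * ((1 + b) * ℓ) = δ * ℓ := by rw [← mul_assoc, heb]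
      linarith
    rw [mul_add]
    linarith
  have h3 : Real.log (PS fun _ : Fin k => A).card <
      Real.log (c * (A.card : ℝ) ^ ((k : ℝ) - ε)) := by
    apply Real.log_lt_log _ hprod
    exact_mod_cast (PS_nonempty fun _ => hA).card_pos
  rw [Real.log_mul hc0.ne' (Real.rpow_pos_of_pos (by linarith) _).ne',
    Real.log_rpow (by linarith), ← hℓ] at h3
  have h4 : Real.log c ≤ -T := by
    rw [Real.log_le_iff_le_exp hc0]; exact hc3
  have h5 : 4 * (k * δ) * ℓ ≤ ε * ℓ := mul_le_mul_of_nonneg_right hδk (by linarith)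
  have h6 : (k : ℝ) * ((1 - δ) * ℓ - δ * ℓ - (δ * ℓ + (2 * δ + 16 * D ^ 2 / δ)) - δ * ℓ) =
      k * ℓ - 4 * (k * δ) * ℓ - T := by rw [hT]; ring
  rw [h6] at h2
  linarith

/-- `m`-fold sums against `k`-fold products -/
theorem max_growth (k : ℕ) (hk : 1 ≤ k) (ε : ℝ) (hε : 0 < ε) :
    ∃ m : ℕ, 1 ≤ m ∧ ∃ c : ℝ, 0 < c ∧ ∀ A : Finset ℤ, A.Nonempty →
      c * (A.card : ℝ) ^ ((k : ℝ) - ε) ≤
        max ((SS m A).card : ℝ) ((PS fun _ : Fin k => A).card : ℝ) := by
  obtain ⟨c₀, hc₀, h⟩ := growth k hk ε hε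
  obtain ⟨m, hm⟩ : ∃ m : ℕ, Real.exp (k / c₀) ≤ m := exists_nat_ge _
  refine ⟨m + 2, by omega, min (min c₀ 1) (Real.exp (-((m + 2 : ℕ) * k))), by positivity, ?_⟩
  intro A hA
  set c : ℝ := min (min c₀ 1) (Real.exp (-((m + 2 : ℕ) * k))) with hc
  have hc0 : 0 < c := by positivity
  have hc1 : c ≤ c₀ := (min_le_left _ _).trans (min_le_left _ _)
  have hc2 : c ≤ 1 := (min_le_left _ _).trans (min_le_right _ _)
  have hc3 : c ≤ Real.exp (-((m + 2 : ℕ) * k)) := min_le_right _ _
  have cA : (1 : ℝ) ≤ A.card := by exact_mod_cast hA.card_pos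
  have hpow : 0 < (A.card : ℝ) ^ ((k : ℝ) - ε) := Real.rpow_pos_of_pos (by linarith) _
  by_cases hcase : ((m + 2 : ℕ) : ℝ) ≤ Real.log A.card
  · rcases h A hA (m + 2) (by omega) hcase with h1 | h1
    · refine le_trans ?_ (le_max_right _ _)
      exact (mul_le_mul_of_nonneg_right hc1 hpow.le).trans h1
    · refine le_trans ?_ (le_max_left _ _)
      refine le_trans ?_ h1
      have h2 : c * (A.card : ℝ) ^ ((k : ℝ) - ε) ≤ 1 * (A.card : ℝ) ^ ((k : ℝ) - ε) :=
        mul_le_mul_of_nonneg_right hc2 hpow.le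
      rw [one_mul] at h2
      refine h2.trans (Real.rpow_le_rpow_of_exponent_le cA ?_)
      have h3 : (k : ℝ) / c₀ ≤ Real.log ((m + 2 : ℕ) : ℝ) := by
        rw [Real.le_log_iff_exp_le (by positivity)]
        push_cast
        linarith
      rw [div_le_iff₀ hc₀] at h3
      linarith
  · push Not at hcase
    refine le_trans ?_ (le_max_right _ _)
    have h1 : (1 : ℝ) ≤ (PS fun _ : Fin k => A).card := by
      exact_mod_cast (PS_nonempty fun _ => hA).card_pos
    refine le_trans ?_ h1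
    have h2 : (A.card : ℝ) ^ ((k : ℝ) - ε) ≤ (A.card : ℝ) ^ (k : ℝ) :=
      Real.rpow_le_rpow_of_exponent_le cA (by linarith)
    have h3 : (A.card : ℝ) ^ (k : ℝ) ≤ Real.exp ((m + 2 : ℕ) * k) := by
      rw [Real.rpow_def_of_pos (by linarith)]
      apply Real.exp_le_exp.2
      exact mul_le_mul_of_nonneg_right hcase.le (by positivity)
    calc c * (A.card : ℝ) ^ ((k : ℝ) - ε) ≤
          Real.exp (-((m + 2 : ℕ) * k)) * Real.exp ((m + 2 : ℕ) * k) :=
          mul_le_mul hc3 (h2.trans h3) hpow.le (Real.exp_pos _).le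
      _ = 1 := by rw [← Real.exp_add]; simp

end H633R5.FS
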