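import Pool.Agent.H633R5.FS.Main

/-!
The product inequality for tuples of arbitrary finite sets of integers.
-/

set_option autoImplicit false

namespace H633R5.FS

open Finset
open scoped Pointwise

/-- one set: a large subset with constant valuations at the small primes -/
theorem reduce (M : ℝ) (hM : 1 ≤ M) (A P : Finset ℤ) (hA : ∃ a ∈ A, a ≠ 0) (hP : P.Nonempty) :
    ∃ C ⊆ A, C.Nonempty ∧ (∀ c ∈ C, c ≠ 0) ∧
      (∀ q : ℕ, q.Prime → (q : ℝ) < M → ∀ c ∈ C, ∀ c' ∈ C, padicValInt q c = padicValInt q c') ∧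
      Real.log A.card - Real.log 2 - 2 * M * (5 + 4 * Real.log (((A + P).card : ℝ) / P.card) +
        Real.log (1 + Real.log P.card)) ≤ Real.log C.card := by
  classical
  obtain ⟨a, ha, ha0⟩ := hA
  have hAne : A.Nonempty := ⟨a, ha⟩
  set A' := A.erase 0 with hA'
  have hA'ne : A'.Nonempty := ⟨a, Finset.mem_erase.2 ⟨ha0, ha⟩⟩
  have h0 : ∀ c ∈ A', c ≠ 0 := fun c hc => (Finset.mem_erase.1 hc).1
  have hcardA : (A.card : ℝ) ≤ 2 * A'.card := by
    have h1 : A.card - 1 ≤ A'.card := Finset.pred_card_le_card_erase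
    have h2 := hA'ne.card_pos
    have h3 : A.card ≤ 2 * A'.card := by omega
    exact_mod_cast h3
  have cP : (1 : ℝ) ≤ P.card := by exact_mod_cast hP.card_pos
  have cA : (1 : ℝ) ≤ A.card := by exact_mod_cast hAne.card_pos
  have cA' : (1 : ℝ) ≤ A'.card := by exact_mod_cast hA'ne.card_pos
  have hlogP : 0 ≤ Real.log P.card := Real.log_nonneg cP
  set K : ℝ := ((A + P).card : ℝ) / P.card with hK
  have hK1 : 1 ≤ K := by
    rw [hK, le_div_iff₀ (by linarith), one_mul]
    exact_mod_cast Finset.card_le_card_add_left hAne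
  have hlogK : 0 ≤ Real.log K := Real.log_nonneg hK1
  set L : ℝ := 2 * Real.log K + 1 with hL
  have hL0 : 0 < L := by linarith
  have hlog2 : 0 < Real.log 2 := Real.log_pos (by norm_num)
  set κ : ℝ := Real.exp (-(2 * L + 2 * Real.log 2)) with hκ
  have hκ0 : 0 < κ := Real.exp_pos _
  have hκ1 : κ ≤ 1 := Real.exp_le_one_iff.2 (by linarith)
  have hlogκ : Real.log (1 / κ) = 2 * L + 2 * Real.log 2 := by
    rw [one_div, Real.log_inv, hκ, Real.log_exp]; ring
  set Q : Finset ℕ := (Finset.range ⌈M⌉₊).filter Nat.Prime with hQ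
  have hQcard : (Q.card : ℝ) ≤ 2 * M := by
    have h1 : Q.card ≤ ⌈M⌉₊ := (Finset.card_filter_le _ _).trans (by simp)
    have h2 : (⌈M⌉₊ : ℝ) < M + 1 := Nat.ceil_lt_add_one (by linarith)
    have h3 : (Q.card : ℝ) ≤ ⌈M⌉₊ := by exact_mod_cast h1
    linarith
  have hgL : Real.log (((A' + P).card : ℝ) / P.card) ≤ L / 2 := by
    have h1 : ((A' + P).card : ℝ) / P.card ≤ K := by
      apply div_le_div_of_nonneg_right _ (by linarith)
      exact_mod_cast Finset.card_le_card (Finset.add_subset_add_right (Finset.erase_subset _ _))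
    have h2 : (0 : ℝ) < ((A' + P).card : ℝ) / P.card := by
      have : (0 : ℝ) < (A' + P).card := by exact_mod_cast (hA'ne.add hP).card_pos
      positivity
    have h3 := Real.log_le_log h2 h1
    linarith
  obtain ⟨C, hCA, hC, hconst, hcard⟩ := levels Q κ L hκ0 hκ1 (by rw [hlogκ]; ring) hL0 A' P hA'ne
    hP h0 hgL (fun q hq => (Finset.mem_filter.1 hq).2)
  refine ⟨C, hCA.trans (Finset.erase_subset _ _), hC, fun c hc => h0 c (hCA hc), ?_, ?_⟩
  · intro q hq hqM
    apply hconst q
    rw [hQ, Finset.mem_filter, Finset.mem_range]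
    exact ⟨Nat.lt_ceil.2 hqM, hq⟩
  · have cC : (1 : ℝ) ≤ C.card := by exact_mod_cast hC.card_pos
    have hD1 : 0 ≤ Real.log (1 + Real.log P.card) := Real.log_nonneg (by linarith)
    have hlog4 : Real.log (4 / κ * (1 + Real.log P.card)) ≤
        5 + 4 * Real.log K + Real.log (1 + Real.log P.card) := by
      rw [Real.log_mul (by positivity) (by linarith)]
      have h1 : Real.log (4 / κ) = 2 * Real.log 2 + (2 * L + 2 * Real.log 2) := by
        have h2 : (4 : ℝ) / κ = 4 * (1 / κ) := by ring
        rw [h2, Real.log_mul (by norm_num) (by positivity), hlogκ]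
        have h3 : Real.log 4 = 2 * Real.log 2 := by
          have : (4 : ℝ) = 2 ^ 2 := by norm_num
          rw [this, Real.log_pow]; push_cast; ring
        rw [h3]
      rw [h1, hL]
      have := Real.log_two_lt_d9
      linarith
    have h1 : Real.log A.card ≤ Real.log 2 + Real.log A'.card := by
      rw [← Real.log_mul (by norm_num) (by linarith)]
      exact Real.log_le_log (by linarith) hcardA
    have h2 : Real.log A'.card ≤ Q.card * Real.log (4 / κ * (1 + Real.log P.card)) +
        Real.log C.card := by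
      rw [← Real.log_pow, ← Real.log_mul (by positivity) (by linarith)]
      exact Real.log_le_log (by linarith) hcard
    have h3 : (Q.card : ℝ) * Real.log (4 / κ * (1 + Real.log P.card)) ≤
        2 * M * (5 + 4 * Real.log K + Real.log (1 + Real.log P.card)) := by
      have h4 : 0 ≤ 5 + 4 * Real.log K + Real.log (1 + Real.log P.card) := by linarith
      calc (Q.card : ℝ) * Real.log (4 / κ * (1 + Real.log P.card))
          ≤ Q.card * (5 + 4 * Real.log K + Real.log (1 + Real.log P.card)) :=
            mul_le_mul_of_nonneg_left hlog4 (by positivity)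
        _ ≤ _ := mul_le_mul_of_nonneg_right hQcard h4
    linarith

/-- logarithmic form -/
theorem tuple_log (k : ℕ) (hk : 1 ≤ k) (ε : ℝ) (hε : 0 < ε) (hε1 : ε ≤ 1 / 2) :
    ∃ C : ℝ, 0 < C ∧ ∀ e : ℝ, 0 < e → e ≤ 1 → ∀ A P : Fin k → Finset ℤ,
      (∀ i, ∃ a ∈ A i, a ≠ 0) → (∀ i, (P i).Nonempty) →
      ∑ i, ((1 - ε) * Real.log (A i).card - e * Real.log (P i).card -
        Real.exp (C / e) * (Real.log (3 + Real.log (P i).card) +
          Real.log (((A i + P i).card : ℝ) / (P i).card))) ≤ Real.log (PS A).card := by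
  obtain ⟨c₀, hc₀, hmain⟩ := main k hk (1 - ε) (by linarith) (by linarith)
  refine ⟨2 * c₀ + 3, by positivity, ?_⟩
  intro e he he1 A P hA hP
  have hlog2 : 0 < Real.log 2 := Real.log_pos (by norm_num)
  set M : ℝ := Real.exp (c₀ / (e / 2)) with hM
  have hM1 : 1 ≤ M := Real.one_le_exp (by positivity)
  have hred := fun i => reduce M hM1 (A i) (P i) (hA i) (hP i)
  choose C hCA hC hC0 hconst hlogC using hred
  have h1 := hmain (e / 2) (by positivity) (by linarith) M rfl _ C P rfl hC hP hC0
    (fun i q hq hqM c hc c' hc' => hconst i q hq hqM c hc c' hc')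
  have cPS : (1 : ℝ) ≤ (PS C).card := by exact_mod_cast (PS_nonempty hC).card_pos
  have h2 : ∑ i, F (1 - ε) M (e / 2) (C i) (P i) - k * Real.log 2 ≤ Real.log (PS A).card := by
    have h3 : Real.log (PS C).card ≤ Real.log (PS A).card :=
      Real.log_le_log (by linarith) (by exact_mod_cast Finset.card_le_card (PS_mono hCA))
    refine le_trans ?_ h3
    rw [Real.le_log_iff_exp_le (by linarith)]
    exact h1
  refine le_trans ?_ h2
  have h4 : (k : ℝ) * Real.log 2 = ∑ _i : Fin k, Real.log 2 := by simp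
  rw [h4, ← Finset.sum_sub_distrib]
  refine Finset.sum_le_sum fun i _ => ?_
  have cP : (1 : ℝ) ≤ (P i).card := by exact_mod_cast (hP i).card_pos
  have hAne : (A i).Nonempty := by
    obtain ⟨a, ha, _⟩ := hA i
    exact ⟨a, ha⟩
  have hlogP : 0 ≤ Real.log (P i).card := Real.log_nonneg cP
  set K : ℝ := ((A i + P i).card : ℝ) / (P i).card with hK
  have hK1 : 1 ≤ K := by
    rw [hK, le_div_iff₀ (by linarith), one_mul]
    exact_mod_cast Finset.card_le_card_add_left hAne
  have hlogK : 0 ≤ Real.log K := Real.log_nonneg hK1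
  have hg : g (C i) (P i) ≤ Real.log K := by
    refine (g_le (C i) (P i) (hC i) (hP i)).trans ?_
    apply Real.log_le_log
    · have : (0 : ℝ) < (C i + P i).card := by exact_mod_cast ((hC i).add (hP i)).card_pos
      have : (0 : ℝ) < (P i).card := by linarith
      positivity
    · apply div_le_div_of_nonneg_right _ (by linarith)
      exact_mod_cast Finset.card_le_card (Finset.add_subset_add_right (hCA i))
  set G : ℝ := Real.log (3 + Real.log (P i).card) with hG
  have hG1 : 1 ≤ G := by
    rw [hG, Real.le_log_iff_exp_le (by linarith)]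
    linarith [Real.exp_one_lt_d9]
  have hG2 : Real.log (1 + Real.log (P i).card) ≤ G :=
    Real.log_le_log (by linarith) (by linarith)
  have hE : 14 * M ≤ Real.exp ((2 * c₀ + 3) / e) := by
    have h5 : (2 * c₀ + 3) / e = 3 / e + c₀ / (e / 2) := by field_simp; ring
    rw [h5, Real.exp_add]
    refine mul_le_mul_of_nonneg_right ?_ (Real.exp_pos _).le
    have h6 : (3 : ℝ) ≤ 3 / e := by rw [le_div_iff₀ he]; linarith
    have h7 : Real.exp 3 ≤ Real.exp (3 / e) := Real.exp_le_exp.2 h6
    have h8 : (14 : ℝ) ≤ Real.exp 3 := by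
      have h9 : Real.exp 3 = Real.exp 1 ^ 3 := by rw [← Real.exp_nat_mul]; norm_num
      rw [h9]
      have h10 : (2.7 : ℝ) ≤ Real.exp 1 := by linarith [Real.exp_one_gt_d9]
      calc (14 : ℝ) ≤ 2.7 ^ 3 := by norm_num
        _ ≤ Real.exp 1 ^ 3 := pow_le_pow_left₀ (by norm_num) h10 3
    linarith
  have hlogCi := hlogC i
  have hlogA : 0 ≤ Real.log (A i).card := Real.log_natCast_nonneg _
  have h5 : Real.log (A i).card - Real.log 2 - 2 * M * (6 * G + 4 * Real.log K) ≤
      Real.log (C i).card := by
    have h6 : 2 * M * (5 + 4 * Real.log K + Real.log (1 + Real.log (P i).card)) ≤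
        2 * M * (6 * G + 4 * Real.log K) :=
      mul_le_mul_of_nonneg_left (by linarith) (by linarith)
    linarith
  have h6 : (1 - ε) * (Real.log (A i).card - Real.log 2 - 2 * M * (6 * G + 4 * Real.log K)) ≤
      (1 - ε) * Real.log (C i).card := mul_le_mul_of_nonneg_left h5 (by linarith)
  have h7 : (1 - ε) * (Real.log 2 + 2 * M * (6 * G + 4 * Real.log K)) ≤
      1 * (Real.log 2 + 2 * M * (6 * G + 4 * Real.log K)) :=
    mul_le_mul_of_nonneg_right (by linarith) (by positivity)
  have h8 : M * g (C i) (P i) ≤ M * Real.log K := mul_le_mul_of_nonneg_left hg (by linarith)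
  have h9 : 14 * M * (G + Real.log K) ≤
      Real.exp ((2 * c₀ + 3) / e) * (G + Real.log K) :=
    mul_le_mul_of_nonneg_right hE (by linarith)
  have h10 : Real.log 2 ≤ M * G := by
    have := Real.log_two_lt_d9
    nlinarith
  have h11 : 0 ≤ M * Real.log K := by positivity
  have h12 : e / 2 * Real.log (P i).card ≤ e * Real.log (P i).card :=
    mul_le_mul_of_nonneg_right (by linarith) hlogP
  unfold F
  linarith

/-- multiplicative form -/
theorem tuple (k : ℕ) (hk : 1 ≤ k) (ε : ℝ) (hε : 0 < ε) :
    ∃ C : ℝ, 0 < C ∧ ∀ e : ℝ, 0 < e → e ≤ 1 → ∀ A P : Fin k → Finset ℤ,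
      (∀ i, ∃ a ∈ A i, a ≠ 0) → (∀ i, (P i).Nonempty) →
      ∏ i, ((A i).card : ℝ) ^ (1 - ε) ≤ (PS A).card *
        ∏ i, (((P i).card : ℝ) ^ e * ((3 + Real.log (P i).card) *
          (((A i + P i).card : ℝ) / (P i).card)) ^ Real.exp (C / e)) := by
  obtain ⟨C, hC, h⟩ := tuple_log k hk (min ε (1 / 2)) (by positivity) (min_le_right _ _)
  refine ⟨C, hC, ?_⟩
  intro e he he1 A P hA hP
  have h1 := h e he he1 A P hA hP
  have hAne : ∀ i, (A i).Nonempty := fun i => by
    obtain ⟨a, ha, _⟩ := hA i
    exact ⟨a, ha⟩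
  have cA : ∀ i, (1 : ℝ) ≤ (A i).card := fun i => by exact_mod_cast (hAne i).card_pos
  have cP : ∀ i, (1 : ℝ) ≤ (P i).card := fun i => by exact_mod_cast (hP i).card_pos
  have cS : ∀ i, (0 : ℝ) < (A i + P i).card := fun i => by
    exact_mod_cast ((hAne i).add (hP i)).card_pos
  have cPS : (0 : ℝ) < (PS A).card := by exact_mod_cast (PS_nonempty hAne).card_pos
  have e1 : ∀ i, ((A i).card : ℝ) ^ (1 - min ε (1 / 2)) = Real.exp
      ((1 - min ε (1 / 2)) * Real.log (A i).card) := fun i => by
    rw [Real.rpow_def_of_pos (by linarith [cA i])]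
    congr 1; ring
  have hl3 : ∀ i, 0 < 3 + Real.log (P i).card := fun i => by
    have := Real.log_nonneg (cP i)
    linarith
  have e2 : ∀ i, ((P i).card : ℝ) ^ e * ((3 + Real.log (P i).card) *
      (((A i + P i).card : ℝ) / (P i).card)) ^ Real.exp (C / e) =
      Real.exp (e * Real.log (P i).card + Real.exp (C / e) * (Real.log (3 + Real.log (P i).card) +
          Real.log (((A i + P i).card : ℝ) / (P i).card))) := fun i => by
    have h2 : (0 : ℝ) < ((A i + P i).card : ℝ) / (P i).card := by
      have := cS i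
      have := cP i
      positivity
    rw [Real.exp_add, Real.rpow_def_of_pos (by linarith [cP i]),
      Real.rpow_def_of_pos (mul_pos (hl3 i) h2), Real.log_mul (hl3 i).ne' h2.ne']
    congr 1
    · congr 1; ring
    · congr 1; ring
  calc ∏ i, ((A i).card : ℝ) ^ (1 - ε) ≤ ∏ i, ((A i).card : ℝ) ^ (1 - min ε (1 / 2)) := by
        apply Finset.prod_le_prod
        · intro i _
          exact Real.rpow_nonneg (by linarith [cA i]) _
        · intro i _
          exact Real.rpow_le_rpow_of_exponent_le (cA i) (by linarith [min_le_left ε (1 / 2)])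
    _ = Real.exp (∑ i, (1 - min ε (1 / 2)) * Real.log (A i).card) := by
        rw [Real.exp_sum]
        exact Finset.prod_congr rfl fun i _ => e1 i
    _ ≤ Real.exp (Real.log (PS A).card + ∑ i, (e * Real.log (P i).card +
          Real.exp (C / e) * (Real.log (3 + Real.log (P i).card) +
          Real.log (((A i + P i).card : ℝ) / (P i).card)))) := by
        apply Real.exp_le_exp.2
        have h3 : ∑ i, ((1 - min ε (1 / 2)) * Real.log (A i).card - e * Real.log (P i).card -
            Real.exp (C / e) * (Real.log (3 + Real.log (P i).card) +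
              Real.log (((A i + P i).card : ℝ) / (P i).card))) =
            ∑ i, (1 - min ε (1 / 2)) * Real.log (A i).card - ∑ i, (e * Real.log (P i).card +
              Real.exp (C / e) * (Real.log (3 + Real.log (P i).card) +
              Real.log (((A i + P i).card : ℝ) / (P i).card))) := by
          rw [← Finset.sum_sub_distrib]
          refine Finset.sum_congr rfl fun i _ => ?_
          ring
        linarith
    _ = _ := by
        rw [Real.exp_add, Real.exp_log cPS, Real.exp_sum]
        congr 1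
        exact Finset.prod_congr rfl fun i _ => (e2 i).symm

end H633R5.FS
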