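import Pool.Agent.H633R5.FS.Fin

/-!
The induction over `k`-tuples of cells for a general numerical condition, and the case of very
many factors.
-/

set_option autoImplicit false

namespace H633R5.FS

open Finset
open scoped Pointwise

/-- the numerical condition -/
def NumP (k : ℕ) (a xg : ℝ) : Prop :=
  ∀ (S : Finset (Fin k)), S.Nonempty → ∀ x f f' : Fin k → ℝ, (∀ j ∈ S, 0 < x j) →
    (∀ j ∈ S, x j < 1) →
    (∀ j ∈ S, -(a * Psi (x j) (1 - x j)) ≤ (1 - x j) * f j + x j * f' j) →
    (∀ j ∈ S, xg ≤ x j → 0 ≤ (1 - x j) * f j + x j * f' j) →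
    ∃ i ∈ S, 1 ≤ Real.exp (∑ j ∈ S, f j) + Real.exp (f' i)

theorem numP_of_num (k : ℕ) (hk : 1 ≤ k) (a : ℝ) (ha : 0 < a) (ha1 : a < 1) :
    ∃ xg : ℝ, 0 < xg ∧ NumP k a xg := by
  obtain ⟨xg, hxg, h⟩ := num k hk a ha ha1
  refine ⟨xg, hxg, ?_⟩
  intro S hS x f f' hx0 hx1 h1 h2
  exact h S hS (by simpa using Finset.card_le_univ S) x f f' hx0 hx1 h1 h2

/-- very many factors -/
theorem numP_many (k : ℕ) (b : ℝ) (hb : 0 < b) (hk : Real.exp (4 * b) ≤ k) :
    NumP k (b / k) (1 / 2) := by
  intro S hS x f f' hx0 hx1 h1 h2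
  have hk0 : (0 : ℝ) < k := lt_of_lt_of_le (Real.exp_pos _) hk
  set a : ℝ := b / k with ha
  have ha0 : 0 < a := by positivity
  by_cases hpos : ∃ i ∈ S, 0 ≤ f' i
  · obtain ⟨i, hi, hfi⟩ := hpos
    refine ⟨i, hi, ?_⟩
    have h3 := Real.one_le_exp hfi
    have h4 := Real.exp_pos (∑ j ∈ S, f j)
    linarith
  push Not at hpos
  obtain ⟨i, hi, hmax⟩ := Finset.exists_max_image S f' hS
  refine ⟨i, hi, ?_⟩
  set μ : ℝ := -f' i with hμ
  have hμ0 : 0 < μ := by have := hpos i hi; linarith
  have hf'i : f' i = -μ := by rw [hμ]; ring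
  rw [hf'i]
  have hSk : (S.card : ℝ) ≤ k := by
    have : S.card ≤ k := by simpa using Finset.card_le_univ S
    exact_mod_cast this
  -- the bound for each `f j`
  set Q : ℝ := min (Real.log 2) (Real.exp (-(μ / a))) with hQ
  have hlog2 : 0 < Real.log 2 := Real.log_pos (by norm_num)
  have hQ0 : 0 < Q := lt_min hlog2 (Real.exp_pos _)
  have claim : ∀ j ∈ S, -(2 * (a * Q)) ≤ f j := by
    intro j hj
    have hxj := hx0 j hj
    have hxj1 := hx1 j hj
    have hf'j : f' j ≤ -μ := by rw [← hf'i]; exact hmax j hj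
    have haQ : 0 < a * Q := by positivity
    by_cases hg : 1 / 2 ≤ x j
    · have h3 := h2 j hj hg
      have h4 : x j * f' j ≤ 0 := mul_nonpos_of_nonneg_of_nonpos hxj.le (by linarith)
      have h5 : 0 ≤ (1 - x j) * f j := by linarith
      have h6 : 0 ≤ f j := by
        by_contra hcon
        push Not at hcon
        have := mul_neg_of_pos_of_neg (by linarith : 0 < 1 - x j) hcon
        linarith
      linarith
    · push Not at hg
      have h3 := h1 j hj
      have h4 : x j * f' j ≤ -(x j * μ) := by nlinarith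
      have h5 : a * Psi (x j) (1 - x j) - x j * μ ≤ a * Q := by
        have h6 : a * Psi (x j) (1 - x j) - x j * μ ≤ a * Real.log 2 := by
          have h7 := mul_le_mul_of_nonneg_left (Psi_le_log_two hxj.le hxj1.le) ha0.le
          have h8 : 0 ≤ x j * μ := by positivity
          linarith
        have h7 : a * Psi (x j) (1 - x j) - x j * μ ≤ a * Real.exp (-(μ / a)) := by
          have hPsi := Psi_le hxj hxj1
          have h6 : Real.log (Real.exp (-(μ / a)) / x j) ≤ Real.exp (-(μ / a)) / x j - 1 :=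
            Real.log_le_sub_one_of_pos (by positivity)
          rw [Real.log_div (Real.exp_pos _).ne' hxj.ne', Real.log_exp] at h6
          have h7 : a * x j * (1 + Real.log (1 / x j) - μ / a) ≤ a * Real.exp (-(μ / a)) := by
            rw [one_div, Real.log_inv]
            have h8 : a * x j * (1 + -Real.log (x j) - μ / a) ≤
                a * x j * (Real.exp (-(μ / a)) / x j) :=
              mul_le_mul_of_nonneg_left (by linarith) (by positivity)
            have h9 : a * x j * (Real.exp (-(μ / a)) / x j) = a * Real.exp (-(μ / a)) := by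
              field_simp
            linarith
          have h8 : a * x j * (1 + Real.log (1 / x j) - μ / a) =
              a * (x j * (1 + Real.log (1 / x j))) - x j * μ := by
            field_simp
          rw [h8] at h7
          have h9 := mul_le_mul_of_nonneg_left hPsi ha0.le
          linarith
        rw [hQ, mul_min_of_nonneg _ _ ha0.le]
        exact le_min h6 h7
      have h6 : -(a * Q) ≤ (1 - x j) * f j := by linarith
      by_contra hcon
      push Not at hcon
      have h7 : (1 - x j) * f j < (1 - x j) * (-(2 * (a * Q))) :=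
        mul_lt_mul_of_pos_left hcon (by linarith)
      have h8 : (1 - x j) * (-(2 * (a * Q))) ≤ 1 / 2 * (-(2 * (a * Q))) :=
        mul_le_mul_of_nonpos_right (by linarith) (by linarith)
      linarith
  have hsum : -(2 * b * Q) ≤ ∑ j ∈ S, f j := by
    have h3 : ∑ _j ∈ S, -(2 * (a * Q)) ≤ ∑ j ∈ S, f j := Finset.sum_le_sum claim
    rw [Finset.sum_const, nsmul_eq_mul] at h3
    have h4 : (S.card : ℝ) * (2 * (a * Q)) ≤ k * (2 * (a * Q)) :=
      mul_le_mul_of_nonneg_right hSk (by positivity)
    have h5 : (k : ℝ) * (2 * (a * Q)) = 2 * b * Q := by rw [ha]; field_simp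
    linarith
  by_cases hcase : μ ≤ Real.exp (-(2 * b))
  · -- the first case
    have h3 : Real.exp (-(2 * b)) ≤ Real.exp (∑ j ∈ S, f j) := by
      apply Real.exp_le_exp.2
      have h4 : 2 * b * Q ≤ 2 * b * Real.log 2 :=
        mul_le_mul_of_nonneg_left (min_le_left _ _) (by positivity)
      have h5 : 2 * b * Real.log 2 ≤ 2 * b * 1 :=
        mul_le_mul_of_nonneg_left (by linarith [Real.log_two_lt_d9]) (by positivity)
      linarith
    have h4 := Real.add_one_le_exp (-μ)
    linarith
  · push Not at hcase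
    have h3 : 2 * b * Q ≤ Real.exp (-μ) := by
      have h4 : 2 * b * Q ≤ 2 * b * Real.exp (-(μ / a)) :=
        mul_le_mul_of_nonneg_left (min_le_right _ _) (by positivity)
      refine h4.trans ?_
      have h5 : 2 * b = Real.exp (Real.log (2 * b)) := (Real.exp_log (by positivity)).symm
      rw [h5, ← Real.exp_add]
      apply Real.exp_le_exp.2
      have h6 : Real.log (2 * b) ≤ 2 * b := by
        have := Real.log_le_sub_one_of_pos (by positivity : 0 < 2 * b)
        linarith
      -- `2 b ≤ μ (k / b - 1)`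
      have h7 : μ / a - μ = μ * ((k : ℝ) / b - 1) := by
        rw [ha]; field_simp
      have h8 : 2 * b * Real.exp (2 * b) ≤ (k : ℝ) / b - 1 := by
        have h9 : b * (2 * b * Real.exp (2 * b) + 1) ≤ k := by
          refine le_trans ?_ hk
          have h10 : Real.exp (4 * b) = Real.exp (2 * b) * Real.exp (2 * b) := by
            rw [← Real.exp_add]; congr 1; ring
          have h11 : 1 + 2 * b + (2 * b) ^ 2 / 2 ≤ Real.exp (2 * b) :=
            Real.quadratic_le_exp_of_nonneg (by positivity)
          have h12 : 1 ≤ Real.exp (2 * b) := Real.one_le_exp (by positivity)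
          rw [h10]
          have h13 : b * (2 * b * Real.exp (2 * b) + 1) ≤
              (1 + 2 * b + (2 * b) ^ 2 / 2) * Real.exp (2 * b) := by
            have h14 : b ≤ b * Real.exp (2 * b) := by nlinarith
            nlinarith
          exact h13.trans (mul_le_mul_of_nonneg_right h11 (Real.exp_pos _).le)
        have h14 : 2 * b * Real.exp (2 * b) + 1 ≤ (k : ℝ) / b := by
          rw [le_div_iff₀ hb]
          linarith
        linarith
      have h9 : 2 * b ≤ μ * ((k : ℝ) / b - 1) := by
        have h10 : Real.exp (-(2 * b)) * (2 * b * Real.exp (2 * b)) = 2 * b := by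
          rw [Real.exp_neg]; field_simp
        rw [← h10]
        exact mul_le_mul hcase.le h8 (by positivity) hμ0.le
      linarith
    have h4 := Real.add_one_le_exp (∑ j ∈ S, f j)
    linarith

theorem gmain (xg : ℝ) (hxg : 0 < xg) :
    ∃ c₀ : ℝ, 0 < c₀ ∧ ∀ (k : ℕ) (a : ℝ), 0 < a → NumP k a xg →
      ∀ e : ℝ, 0 < e → e ≤ 1 → ∀ K : ℝ, K = Real.exp (c₀ / e) →
      ∀ n : ℕ, ∀ C R : Fin k → Finset ℤ, ∑ i, (C i).card = n →
      (∀ i, (C i).Nonempty) → (∀ i, (R i).Nonempty) → (∀ i, ∀ c ∈ C i, c ≠ 0) →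
      (∀ i, ∀ q : ℕ, q.Prime → (q : ℝ) < Real.exp (c₀ / e) → ∀ c ∈ C i, ∀ c' ∈ C i,
        padicValInt q c = padicValInt q c') →
      Real.exp (a * ∑ i, F 1 K e (C i) (R i) - k * a * Real.log 2) ≤ ((PS C).card : ℝ) := by
  classical
  obtain ⟨c₀, hc₀, hcell⟩ := cell 1 xg one_pos le_rfl hxg
  refine ⟨c₀, hc₀, ?_⟩
  intro k a ha hnum e he hea K hKe n
  have hK : 0 < K := by rw [hKe]; exact Real.exp_pos _
  induction n using Nat.strong_induction_on with
  | _ n ih =>
  intro C R hn hC hR h0 hsm
  by_cases hconst : ∀ i, ∀ p : ℕ, p.Prime → ∀ c ∈ C i, ∀ c' ∈ C i,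
      padicValInt p c = padicValInt p c'
  · -- the base case
    have h1 : ∀ i, F 1 K e (C i) (R i) ≤ Real.log 2 := by
      intro i
      refine (F_le 1 K e hK.le he.le (C i) (R i) (hC i) (hR i)).trans ?_
      have h2 : (C i).card ≤ 2 := card_le_two fun c hc c' hc' =>
        natAbs_eq_of_padic (h0 i c hc) (h0 i c' hc') fun p hp => hconst i p hp c hc c' hc'
      have h3 : Real.log (C i).card ≤ Real.log 2 :=
        Real.log_le_log (by exact_mod_cast (hC i).card_pos) (by exact_mod_cast h2)
      linarith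
    have h2 : a * ∑ i, F 1 K e (C i) (R i) ≤ k * a * Real.log 2 := by
      calc a * ∑ i, F 1 K e (C i) (R i) ≤ a * ∑ _i : Fin k, Real.log 2 :=
            mul_le_mul_of_nonneg_left (Finset.sum_le_sum fun i _ => h1 i) ha.le
        _ = k * a * Real.log 2 := by simp; ring
    have h3 : Real.exp (a * ∑ i, F 1 K e (C i) (R i) - k * a * Real.log 2) ≤ 1 :=
      Real.exp_le_one_iff.2 (by linarith)
    have h4 : (1 : ℝ) ≤ (PS C).card := by exact_mod_cast (PS_nonempty hC).card_pos
    linarith
  -- the induction step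
  push Not at hconst
  obtain ⟨i₁, p, hp, c₁, hc₁, c₂, hc₂, hne⟩ := hconst
  have hpf : Fact p.Prime := ⟨hp⟩
  have hpp : Real.exp (c₀ / e) ≤ p := by
    by_contra hcon
    push Not at hcon
    exact hne (hsm i₁ p hp hcon c₁ hc₁ c₂ hc₂)
  have hmin : ∀ i, ∃ t : ℕ, (∀ c ∈ C i, t ≤ padicValInt p c) ∧ (lo p t (C i)).Nonempty := by
    intro i
    obtain ⟨c₀, hc₀, hmin⟩ := Finset.exists_min_image (C i) (fun c => padicValInt p c) (hC i)
    exact ⟨padicValInt p c₀, hmin, ⟨c₀, mem_lo.2 ⟨hc₀, rfl⟩⟩⟩
  choose t ht hlo using hmin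
  set S : Finset (Fin k) := Finset.univ.filter (fun i => (hi p (t i) (C i)).Nonempty) with hS
  have hSne : S.Nonempty := by
    refine ⟨i₁, Finset.mem_filter.2 ⟨Finset.mem_univ _, ?_⟩⟩
    by_contra hcon
    rw [Finset.not_nonempty_iff_eq_empty] at hcon
    have h1 : ∀ c ∈ C i₁, padicValInt p c = t i₁ := by
      intro c hc
      by_contra h2
      have h3 : c ∈ hi p (t i₁) (C i₁) := mem_hi.2 ⟨hc, h2⟩
      rw [hcon] at h3
      exact absurd h3 (Finset.notMem_empty c)
    exact hne ((h1 c₁ hc₁).trans (h1 c₂ hc₂).symm)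
  set x : Fin k → ℝ := fun i => ((hi p (t i) (C i)).card : ℝ) / (C i).card with hx
  have hcellS : ∀ i, ∃ R' R'' : Finset ℤ, R'.Nonempty ∧ R''.Nonempty ∧ (i ∈ S →
      (-(1 * Psi (x i) (1 - x i)) ≤
        (1 - x i) * (F 1 K e (lo p (t i) (C i)) R' - F 1 K e (C i) (R i)) +
          x i * (F 1 K e (hi p (t i) (C i)) R'' - F 1 K e (C i) (R i))) ∧
        (xg ≤ x i → 0 ≤ (1 - x i) * (F 1 K e (lo p (t i) (C i)) R' - F 1 K e (C i) (R i)) +
          x i * (F 1 K e (hi p (t i) (C i)) R'' - F 1 K e (C i) (R i)))) ∧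
      (i ∉ S → R' = R i) := by
    intro i
    by_cases hiS : i ∈ S
    · obtain ⟨R', R'', hR', hR'', h1, h2⟩ := hcell e he hea K hKe p hpp (C i) (R i) (hR i)
        (h0 i) (t i) (ht i) (Finset.mem_filter.1 hiS).2 (hlo i) (x i) rfl
      exact ⟨R', R'', hR', hR'', fun _ => ⟨h1, h2⟩, fun h => absurd hiS h⟩
    · exact ⟨R i, R i, hR i, hR i, fun h => absurd h hiS, fun _ => rfl⟩
  choose R' R'' hR' hR'' hstep hstay using hcellS
  set f : Fin k → ℝ := fun i => a * (F 1 K e (lo p (t i) (C i)) (R' i) - F 1 K e (C i) (R i))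
    with hf
  set f' : Fin k → ℝ := fun i => a * (F 1 K e (hi p (t i) (C i)) (R'' i) - F 1 K e (C i) (R i))
    with hf'
  have hcardi : ∀ i, ((hi p (t i) (C i)).card : ℝ) + (lo p (t i) (C i)).card = (C i).card :=
    fun i => by exact_mod_cast card_hi_lo p (t i) (C i)
  obtain ⟨i, hiS, hi1⟩ := hnum S hSne x f f' (fun j hj => by
      have h1 : (0 : ℝ) < (hi p (t j) (C j)).card := by
        exact_mod_cast (Finset.mem_filter.1 hj).2.card_pos
      have h2 : (0 : ℝ) < (C j).card := by exact_mod_cast (hC j).card_pos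
      show 0 < ((hi p (t j) (C j)).card : ℝ) / (C j).card
      positivity) (fun j _ => by
      have h1 : (0 : ℝ) < (lo p (t j) (C j)).card := by exact_mod_cast (hlo j).card_pos
      have h2 : (0 : ℝ) < (C j).card := by exact_mod_cast (hC j).card_pos
      have h3 := hcardi j
      show ((hi p (t j) (C j)).card : ℝ) / (C j).card < 1
      rw [div_lt_one h2]
      linarith) (fun j hj => by
      have h1 := mul_le_mul_of_nonneg_left (hstep j hj).1 ha.le
      have e1 : (1 - x j) * f j + x j * f' j = a * ((1 - x j) *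
          (F 1 K e (lo p (t j) (C j)) (R' j) - F 1 K e (C j) (R j)) +
          x j * (F 1 K e (hi p (t j) (C j)) (R'' j) - F 1 K e (C j) (R j))) := by
        rw [hf, hf']; ring
      rw [e1]
      linarith) (fun j hj hxx => by
      have h1 := mul_nonneg ha.le ((hstep j hj).2 hxx)
      have e1 : (1 - x j) * f j + x j * f' j = a * ((1 - x j) *
          (F 1 K e (lo p (t j) (C j)) (R' j) - F 1 K e (C j) (R j)) +
          x j * (F 1 K e (hi p (t j) (C j)) (R'' j) - F 1 K e (C j) (R j))) := by
        rw [hf, hf']; ring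
      rw [e1]
      exact h1)
  have hloC : ∀ j, j ∉ S → lo p (t j) (C j) = C j := by
    intro j hj
    have h1 : hi p (t j) (C j) = ∅ := by
      rw [← Finset.not_nonempty_iff_eq_empty]
      intro h
      exact hj (Finset.mem_filter.2 ⟨Finset.mem_univ _, h⟩)
    apply Finset.Subset.antisymm (lo_subset _ _ _)
    intro c hc
    refine mem_lo.2 ⟨hc, ?_⟩
    by_contra h2
    have h3 : c ∈ hi p (t j) (C j) := mem_hi.2 ⟨hc, h2⟩
    rw [h1] at h3
    exact absurd h3 (Finset.notMem_empty c)
  -- the two smaller tuples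
  have hiC : (hi p (t i) (C i)).Nonempty := (Finset.mem_filter.1 hiS).2
  have hsum1 : ∑ j, (lo p (t j) (C j)).card < n := by
    rw [← hn]
    apply Finset.sum_lt_sum
    · intro j _
      exact Finset.card_le_card (lo_subset _ _ _)
    · refine ⟨i, Finset.mem_univ _, ?_⟩
      have h1 := card_hi_lo p (t i) (C i)
      have h2 := hiC.card_pos
      omega
  have hsum2 : ∑ j, (Function.update C i (hi p (t i) (C i)) j).card < n := by
    rw [← hn]
    apply Finset.sum_lt_sum
    · intro j _
      by_cases hj : j = i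
      · subst hj
        rw [Function.update_self]
        exact Finset.card_le_card (hi_subset _ _ _)
      · rw [Function.update_of_ne hj]
    · refine ⟨i, Finset.mem_univ _, ?_⟩
      rw [Function.update_self]
      have h1 := card_hi_lo p (t i) (C i)
      have h2 := (hlo i).card_pos
      omega
  have hupd : ∀ j, Function.update C i (hi p (t i) (C i)) j ⊆ C j := by
    intro j
    by_cases hj : j = i
    · subst hj
      rw [Function.update_self]
      exact hi_subset _ _ _
    · rw [Function.update_of_ne hj]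
  have ih1 := ih _ hsum1 (fun j => lo p (t j) (C j)) R' rfl hlo hR'
    (fun j c hc => h0 j c (lo_subset _ _ _ hc))
    (fun j q hq hq0 c hc c' hc' => hsm j q hq hq0 c (lo_subset _ _ _ hc) c'
      (lo_subset _ _ _ hc'))
  have ih2 := ih _ hsum2 (Function.update C i (hi p (t i) (C i))) (Function.update R i (R'' i))
    rfl
    (fun j => by
      by_cases hj : j = i
      · subst hj
        rw [Function.update_self]
        exact hiC
      · rw [Function.update_of_ne hj]
        exact hC j)
    (fun j => by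
      by_cases hj : j = i
      · subst hj
        rw [Function.update_self]
        exact hR'' j
      · rw [Function.update_of_ne hj]
        exact hR j)
    (fun j c hc => h0 j c (hupd j hc))
    (fun j q hq hq0 c hc c' hc' => hsm j q hq hq0 c (hupd j hc) c' (hupd j hc'))
  have hrule := PS_rule p C (fun j => lo p (t j) (C j)) (Function.update C i (hi p (t i) (C i)))
    h0 (fun j => lo_subset _ _ _) hupd t ht (fun j c hc => (mem_lo.1 hc).2) i
    (fun c hc => by
      rw [Function.update_self] at hc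
      exact (mem_hi.1 hc).2)
  have hrule' : ((PS fun j => lo p (t j) (C j)).card : ℝ) +
      (PS (Function.update C i (hi p (t i) (C i)))).card ≤ (PS C).card := by
    exact_mod_cast hrule
  -- the potentials
  have e1 : a * ∑ j, F 1 K e (lo p (t j) (C j)) (R' j) =
      a * ∑ j, F 1 K e (C j) (R j) + ∑ j ∈ S, f j := by
    have h1 : ∑ j ∈ S, f j = ∑ j, f j := by
      apply Finset.sum_subset (Finset.subset_univ _)
      intro j _ hj
      show a * (F 1 K e (lo p (t j) (C j)) (R' j) - F 1 K e (C j) (R j)) = 0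
      rw [hloC j hj, hstay j hj, sub_self, mul_zero]
    rw [h1, Finset.mul_sum, Finset.mul_sum, ← Finset.sum_add_distrib]
    refine Finset.sum_congr rfl fun j _ => ?_
    show a * F 1 K e (lo p (t j) (C j)) (R' j) = a * F 1 K e (C j) (R j) +
      a * (F 1 K e (lo p (t j) (C j)) (R' j) - F 1 K e (C j) (R j))
    ring
  have e2 : a * ∑ j, F 1 K e (Function.update C i (hi p (t i) (C i)) j)
      (Function.update R i (R'' i) j) = a * ∑ j, F 1 K e (C j) (R j) + f' i := by
    rw [← Finset.add_sum_erase _ _ (Finset.mem_univ i),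
      ← Finset.add_sum_erase _ (fun j => F 1 K e (C j) (R j)) (Finset.mem_univ i)]
    rw [Function.update_self, Function.update_self]
    have h1 : ∑ j ∈ Finset.univ.erase i, F 1 K e (Function.update C i (hi p (t i) (C i)) j)
        (Function.update R i (R'' i) j) =
        ∑ j ∈ Finset.univ.erase i, F 1 K e (C j) (R j) := by
      refine Finset.sum_congr rfl fun j hj => ?_
      have hj' : j ≠ i := (Finset.mem_erase.1 hj).1
      rw [Function.update_of_ne hj', Function.update_of_ne hj']
    rw [h1]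
    show a * (F 1 K e (hi p (t i) (C i)) (R'' i) +
        ∑ j ∈ Finset.univ.erase i, F 1 K e (C j) (R j)) =
      a * (F 1 K e (C i) (R i) + ∑ j ∈ Finset.univ.erase i, F 1 K e (C j) (R j)) +
        a * (F 1 K e (hi p (t i) (C i)) (R'' i) - F 1 K e (C i) (R i))
    ring
  rw [e1] at ih1
  rw [e2] at ih2
  set T : ℝ := a * ∑ j, F 1 K e (C j) (R j) - k * a * Real.log 2 with hT
  have e3 : a * ∑ j, F 1 K e (C j) (R j) + ∑ j ∈ S, f j - k * a * Real.log 2 =
      T + ∑ j ∈ S, f j := by
    rw [hT]; ring
  have e4 : a * ∑ j, F 1 K e (C j) (R j) + f' i - k * a * Real.log 2 = T + f' i := by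
    rw [hT]; ring
  rw [e3, Real.exp_add] at ih1
  rw [e4, Real.exp_add] at ih2
  have h1 : Real.exp T * 1 ≤ Real.exp T * (Real.exp (∑ j ∈ S, f j) + Real.exp (f' i)) :=
    mul_le_mul_of_nonneg_left hi1 (Real.exp_pos _).le
  linarith

/-- logarithmic form of the inequality, general numerical condition -/
theorem gtuple (xg : ℝ) (hxg : 0 < xg) :
    ∃ C : ℝ, 0 < C ∧ ∀ (k : ℕ) (a : ℝ), 0 < a → NumP k a xg →
      ∀ e : ℝ, 0 < e → e ≤ 1 → ∀ A P : Fin k → Finset ℤ,
      (∀ i, ∃ a ∈ A i, a ≠ 0) → (∀ i, (P i).Nonempty) →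
      a * ∑ i, (Real.log (A i).card - e * Real.log (P i).card -
        Real.exp (C / e) * (Real.log (3 + Real.log (P i).card) +
          Real.log (((A i + P i).card : ℝ) / (P i).card))) ≤ Real.log (PS A).card := by
  obtain ⟨c₀, hc₀, hmain⟩ := gmain xg hxg
  refine ⟨c₀ + 3, by positivity, ?_⟩
  intro k a ha hnum e he he1 A P hA hP
  have hlog2 : 0 < Real.log 2 := Real.log_pos (by norm_num)
  set M : ℝ := Real.exp (c₀ / e) with hM
  have hM1 : 1 ≤ M := Real.one_le_exp (by positivity)
  have hred := fun i => reduce M hM1 (A i) (P i) (hA i) (hP i)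
  choose C hCA hC hC0 hconst hlogC using hred
  have h1 := hmain k a ha hnum e he he1 M rfl _ C P rfl hC hP hC0
    (fun i q hq hqM c hc c' hc' => hconst i q hq hqM c hc c' hc')
  have cPS : (1 : ℝ) ≤ (PS C).card := by exact_mod_cast (PS_nonempty hC).card_pos
  have h2 : a * ∑ i, F 1 M e (C i) (P i) - k * a * Real.log 2 ≤ Real.log (PS A).card := by
    have h3 : Real.log (PS C).card ≤ Real.log (PS A).card :=
      Real.log_le_log (by linarith) (by exact_mod_cast Finset.card_le_card (PS_mono hCA))
    refine le_trans ?_ h3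
    rw [Real.le_log_iff_exp_le (by linarith)]
    exact h1
  refine le_trans ?_ h2
  have h4 : (k : ℝ) * a * Real.log 2 = a * ∑ _i : Fin k, Real.log 2 := by simp; ring
  rw [h4, ← mul_sub, ← Finset.sum_sub_distrib]
  refine mul_le_mul_of_nonneg_left (Finset.sum_le_sum fun i _ => ?_) ha.le
  have cP : (1 : ℝ) ≤ (P i).card := by exact_mod_cast (hP i).card_pos
  have hAne : (A i).Nonempty := by
    obtain ⟨a, ha, _⟩ := hA i
    exact ⟨a, ha⟩
  have hlogP : 0 ≤ Real.log (P i).card := Real.log_nonneg cP
  set K : ℝ := ((A i + P i).card : ℝ) / (P i).card with hK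
  have hK1 : 1 ≤ K := by
    rw [hK, le_div_iff₀ (by linarith), one_mul]
    exact_mod_cast Finset.card_le_card_add_left hAne
  have hlogK : 0 ≤ Real.log K := Real.log_nonneg hK1
  have hg : g (C i) (P i) ≤ Real.log K := by
    refine (g_le (C i) (P i) (hC i) (hP i)).trans ?_
    apply Real.log_le_log
    · have : (0 : ℝ) < (C i + P i).card := by exact_mod_cast ((hC i).add (hP i)).card_pos
      have : (0 : ℝ) < (P i).card := by linarith
      positivity
    · apply div_le_div_of_nonneg_right _ (by linarith)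
      exact_mod_cast Finset.card_le_card (Finset.add_subset_add_right (hCA i))
  set G : ℝ := Real.log (3 + Real.log (P i).card) with hG
  have hG1 : 1 ≤ G := by
    rw [hG, Real.le_log_iff_exp_le (by linarith)]
    linarith [Real.exp_one_lt_d9]
  have hG2 : Real.log (1 + Real.log (P i).card) ≤ G :=
    Real.log_le_log (by linarith) (by linarith)
  have hE : 14 * M ≤ Real.exp ((c₀ + 3) / e) := by
    have h5 : (c₀ + 3) / e = 3 / e + c₀ / e := by ring
    rw [h5, Real.exp_add]
    refine mul_le_mul_of_nonneg_right ?_ (Real.exp_pos _).le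
    have h6 : (3 : ℝ) ≤ 3 / e := by rw [le_div_iff₀ he]; linarith
    have h7 : Real.exp 3 ≤ Real.exp (3 / e) := Real.exp_le_exp.2 h6
    have h8 : (14 : ℝ) ≤ Real.exp 3 := by
      have h9 : Real.exp 3 = Real.exp 1 ^ 3 := by rw [← Real.exp_nat_mul]; norm_num
      rw [h9]
      have h10 : (2.7 : ℝ) ≤ Real.exp 1 := by linarith [Real.exp_one_gt_d9]
      calc (14 : ℝ) ≤ 2.7 ^ 3 := by norm_num
        _ ≤ Real.exp 1 ^ 3 := pow_le_pow_left₀ (by norm_num) h10 3
    linarith
  have hlogCi := hlogC i
  have h5 : Real.log (A i).card - Real.log 2 - 2 * M * (6 * G + 4 * Real.log K) ≤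
      Real.log (C i).card := by
    have h6 : 2 * M * (5 + 4 * Real.log K + Real.log (1 + Real.log (P i).card)) ≤
        2 * M * (6 * G + 4 * Real.log K) :=
      mul_le_mul_of_nonneg_left (by linarith) (by linarith)
    linarith
  have h8 : M * g (C i) (P i) ≤ M * Real.log K := mul_le_mul_of_nonneg_left hg (by linarith)
  have h9 : 14 * M * (G + Real.log K) ≤
      Real.exp ((c₀ + 3) / e) * (G + Real.log K) :=
    mul_le_mul_of_nonneg_right hE (by linarith)
  have h10 : Real.log 2 ≤ M * G := by
    have := Real.log_two_lt_d9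
    nlinarith
  have h11 : 0 ≤ M * Real.log K := by positivity
  unfold F
  linarith

end H633R5.FS
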