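import Pool.Agent.H633R5.FS.Psi
import Pool.Agent.H633R5.FS.Chain

/-!
The key inequality: the entropy of a bit is paid by the information of the channel or by the
entropy of the reference class.
-/

set_option autoImplicit false

namespace H633R5.FS

open Finset

theorem Psi_comm (u v : ℝ) : Psi u v = Psi v u := by
  unfold Psi
  rw [add_comm u v]
  ring

section

variable {p : ℕ} [Fact p.Prime]

/-- the information -/
noncomputable def Inf (x : ℝ) (w ξ : ZMod p → ℝ) : ℝ :=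
  Psi x (1 - x) - ∑ z, Psi (x * w z) ((1 - x) * ∑ c, ξ c * w (z - c))

/-- `w`, `ξ` are distributions on `ZMod p`, `ξ` has no atom at zero, `z₀` is a mode of `w` -/
structure Dist (w ξ : ZMod p → ℝ) (z₀ : ZMod p) : Prop where
  w0 : ∀ z, 0 ≤ w z
  w1 : ∑ z, w z = 1
  x0 : ∀ c, 0 ≤ ξ c
  x1 : ∑ c, ξ c = 1
  xz : ξ 0 = 0
  mo : ∀ z, w z ≤ w z₀

variable {w ξ : ZMod p → ℝ} {z₀ : ZMod p}

theorem Dist.conv_nonneg (h : Dist w ξ z₀) (z : ZMod p) : 0 ≤ ∑ c, ξ c * w (z - c) :=
  Finset.sum_nonneg fun c _ => mul_nonneg (h.x0 c) (h.w0 _)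

theorem Dist.conv_sum (h : Dist w ξ z₀) : ∑ z, ∑ c, ξ c * w (z - c) = 1 := by
  rw [Finset.sum_comm]
  have : ∀ c, ∑ z, ξ c * w (z - c) = ξ c := fun c => by
    rw [← Finset.mul_sum]
    have : ∑ z, w (z - c) = ∑ z, w z :=
      Fintype.sum_equiv (Equiv.subRight c) _ _ fun z => rfl
    rw [this, h.w1, mul_one]
  rw [Finset.sum_congr rfl fun c _ => this c, h.x1]

theorem Dist.le_one (h : Dist w ξ z₀) (z : ZMod p) : w z ≤ 1 := by
  rw [← h.w1]
  exact Finset.single_le_sum (fun z _ => h.w0 z) (Finset.mem_univ z)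

theorem Dist.conv_le_one (h : Dist w ξ z₀) (z : ZMod p) : ∑ c, ξ c * w (z - c) ≤ 1 := by
  rw [← h.conv_sum]
  exact Finset.single_le_sum (f := fun z => ∑ c, ξ c * w (z - c))
    (fun z _ => h.conv_nonneg z) (Finset.mem_univ z)

theorem Dist.pos (h : Dist w ξ z₀) : 0 < w z₀ := by
  by_contra hcon
  push Not at hcon
  have : ∑ z, w z ≤ 0 := Finset.sum_nonpos fun z _ => (h.mo z).trans hcon
  rw [h.w1] at this
  linarith

/-- the convolution at the mode avoids the mode -/
theorem Dist.conv_mode (h : Dist w ξ z₀) : ∑ c, ξ c * w (z₀ - c) ≤ 1 - w z₀ := by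
  have h1 : ∀ c, ξ c * w (z₀ - c) ≤ ξ c * (1 - w z₀) := by
    intro c
    by_cases hc : c = 0
    · rw [hc, h.xz]; simp
    · refine mul_le_mul_of_nonneg_left ?_ (h.x0 c)
      have hne : z₀ - c ≠ z₀ := fun h' => hc (by simpa using h')
      have h2 : w (z₀ - c) + w z₀ ≤ ∑ z, w z := by
        rw [← Finset.sum_pair hne]
        exact Finset.sum_le_univ_sum_of_nonneg h.w0
      rw [h.w1] at h2
      linarith
  calc ∑ c, ξ c * w (z₀ - c) ≤ ∑ c, ξ c * (1 - w z₀) := Finset.sum_le_sum fun c _ => h1 c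
    _ = 1 - w z₀ := by rw [← Finset.sum_mul, h.x1, one_mul]

theorem Inf_ge_chan (h : Dist w ξ z₀) {x : ℝ} (hx : 0 ≤ x) (hx1 : x ≤ 1) (z : ZMod p) :
    Psi x (1 - x) - Psi (x * w z) ((1 - x) * ∑ c, ξ c * w (z - c)) -
      Psi (x * (1 - w z)) ((1 - x) * (1 - ∑ c, ξ c * w (z - c))) ≤ Inf x w ξ := by
  classical
  unfold Inf
  have h1 : ∑ z', Psi (x * w z') ((1 - x) * ∑ c, ξ c * w (z' - c)) =
      Psi (x * w z) ((1 - x) * ∑ c, ξ c * w (z - c)) +
      ∑ z' ∈ Finset.univ.erase z, Psi (x * w z') ((1 - x) * ∑ c, ξ c * w (z' - c)) :=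
    (Finset.add_sum_erase _ _ (Finset.mem_univ z)).symm
  have h2 := Psi_sum (Finset.univ.erase z) (fun z' => x * w z')
    (fun z' => (1 - x) * ∑ c, ξ c * w (z' - c)) (fun z' _ => mul_nonneg hx (h.w0 z'))
    (fun z' _ => mul_nonneg (by linarith) (h.conv_nonneg z'))
  have e1 : ∑ z' ∈ Finset.univ.erase z, x * w z' = x * (1 - w z) := by
    rw [← Finset.mul_sum, ← h.w1, ← Finset.add_sum_erase _ _ (Finset.mem_univ z)]
    ring
  have e2 : ∑ z' ∈ Finset.univ.erase z, (1 - x) * ∑ c, ξ c * w (z' - c) =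
      (1 - x) * (1 - ∑ c, ξ c * w (z - c)) := by
    rw [← Finset.mul_sum]
    have := h.conv_sum
    rw [← Finset.add_sum_erase _ _ (Finset.mem_univ z)] at this
    rw [← this]
    ring
  rw [e1, e2] at h2
  rw [h1]
  linarith

theorem Inf_nonneg (h : Dist w ξ z₀) {x : ℝ} (hx : 0 ≤ x) (hx1 : x ≤ 1) : 0 ≤ Inf x w ξ := by
  unfold Inf
  have h2 := Psi_sum Finset.univ (fun z' => x * w z')
    (fun z' => (1 - x) * ∑ c, ξ c * w (z' - c)) (fun z' _ => mul_nonneg hx (h.w0 z'))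
    (fun z' _ => mul_nonneg (by linarith) (h.conv_nonneg z'))
  rw [← Finset.mul_sum, ← Finset.mul_sum, h.w1, h.conv_sum, mul_one, mul_one] at h2
  linarith

/-- the region near `x = 1` -/
theorem Inf_ge_log (h : Dist w ξ z₀) {x : ℝ} (hx : 0 < x) (hx1 : x < 1)
    (hs : 1 - w z₀ + (1 - x) ≤ 1) :
    (1 - x) * (w z₀ * Real.log (1 / (1 - w z₀ + (1 - x))) - Real.log 2) ≤ Inf x w ξ := by
  have hw := h.pos
  have hw1 := h.le_one z₀
  have hq1 : ∑ c, ξ c * w (z₀ - c) < 1 := by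
    have h1 := h.conv_mode
    linarith
  have h1 := chan_ge_log hx (by linarith : 0 < 1 - x) (by ring) (h.w0 z₀) (h.le_one z₀)
    (h.conv_nonneg z₀) hq1
  have h2 := Inf_ge_chan h hx.le hx1.le z₀
  refine le_trans ?_ (h1.trans h2)
  refine mul_le_mul_of_nonneg_left ?_ (by linarith)
  have h3 : w z₀ ≤ 1 - ∑ c, ξ c * w (z₀ - c) := by linarith [h.conv_mode]
  have h4 : 0 ≤ Real.log (1 / (1 - w z₀ + (1 - x))) := by
    apply Real.log_nonneg
    rw [le_div_iff₀ (by linarith)]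
    linarith
  linarith [mul_le_mul_of_nonneg_right h3 h4]

/-- the middle region -/
theorem Inf_ge_sq (h : Dist w ξ z₀) {x : ℝ} (hx : 0 < x) (hx1 : x < 1) (z : ZMod p) :
    x * (1 - x) ^ 2 * (w z - ∑ c, ξ c * w (z - c)) ^ 2 / 4 ≤ Inf x w ξ :=
  (chan_ge_sq hx (by linarith : 0 < 1 - x) (by ring) (h.w0 z) (h.le_one z)
    (h.conv_nonneg z) (h.conv_le_one z)).trans (Inf_ge_chan h hx.le hx1.le z)

theorem log_four {u : ℝ} (hu : 0 < u) : Real.log (1 / u ^ 4) ≤ 4 / u := by
  have h1 : Real.log (1 / u) ≤ 1 / u - 1 := Real.log_le_sub_one_of_pos (by positivity)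
  have h2 : Real.log (1 / u ^ 4) = 4 * Real.log (1 / u) := by
    rw [one_div, one_div, Real.log_inv, Real.log_inv, Real.log_pow]
    push_cast; ring
  rw [h2]
  have : 4 / u = 4 * (1 / u) := by ring
  rw [this]
  linarith

theorem near_one (ε : ℝ) (hε : 0 < ε) (p : ℕ) [Fact p.Prime] (w ξ : ZMod p → ℝ) (z₀ : ZMod p)
    (h : Dist w ξ z₀) (x : ℝ) (hx : 1 - (1 / (11 + 10 / ε)) ^ 4 ≤ x) (hx1 : x < 1) :
    Psi x (1 - x) ≤ 8 * Inf x w ξ + ε * x * Real.log (1 / w z₀) := by
  set D : ℝ := 11 + 10 / ε with hD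
  have hD0 : 11 < D := by
    have : 0 < 10 / ε := by positivity
    linarith
  have hDpos : 0 < D := by linarith
  set y : ℝ := 1 - x with hy
  have hy0 : 0 < y := by linarith
  have hyD : y ≤ (1 / D) ^ 4 := by linarith
  have hI := Inf_nonneg h (x := x) (by
    have : (1 / D) ^ 4 < 1 := by
      apply pow_lt_one₀ (by positivity)
      · rw [div_lt_one hDpos]; linarith
      · norm_num
    linarith) hx1.le
  have hw := h.pos
  have hw1 := h.le_one z₀
  by_cases hcase : Psi x y ≤ ε * x * Real.log (1 / w z₀)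
  · linarith
  push Not at hcase
  -- the fourth root of `y`
  obtain ⟨u, hu, huy⟩ : ∃ u : ℝ, 0 < u ∧ u ^ 4 = y := by
    refine ⟨Real.sqrt (Real.sqrt y), Real.sqrt_pos.2 (Real.sqrt_pos.2 hy0), ?_⟩
    have : Real.sqrt (Real.sqrt y) ^ 4 = (Real.sqrt (Real.sqrt y) ^ 2) ^ 2 := by ring
    rw [this, Real.sq_sqrt (Real.sqrt_nonneg _), Real.sq_sqrt hy0.le]
  have huD : u ≤ 1 / D := by
    rw [← huy] at hyD
    exact le_of_pow_le_pow_left₀ (by norm_num) (by positivity) hyD
  have hu11 : u ≤ 1 / 11 := huD.trans (one_div_le_one_div_of_le (by norm_num) hD0.le)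
  have hy1 : y ≤ 1 / 100 := by
    rw [← huy]
    calc u ^ 4 ≤ (1 / 11) ^ 4 := pow_le_pow_left₀ hu.le hu11 4
      _ ≤ 1 / 100 := by norm_num
  have hx99 : 99 / 100 ≤ x := by linarith
  -- upper bound for the entropy
  have hPsi : Psi x y ≤ y * (1 + Real.log (1 / y)) := by
    have := Psi_le hy0 (by linarith : y < 1)
    rw [show 1 - y = x by rw [hy]; ring] at this
    rw [Psi_comm]
    exact this
  have hlogy : Real.log (1 / y) ≤ 4 / u := by
    rw [← huy]; exact log_four hu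
  -- the defect of the mode
  set s : ℝ := 1 - w z₀ with hs
  have hs0 : 0 ≤ s := by linarith
  have hslog : s ≤ Real.log (1 / w z₀) := by
    have h1 := Real.log_le_sub_one_of_pos hw
    rw [one_div, Real.log_inv]
    linarith
  have hs1 : ε * s ≤ 2 * (y * (1 + Real.log (1 / y))) := by
    have h1 : ε * x * s ≤ ε * x * Real.log (1 / w z₀) :=
      mul_le_mul_of_nonneg_left hslog (by positivity)
    have h2 : ε * s * (1 / 2) ≤ ε * s * x := by
      refine mul_le_mul_of_nonneg_left (by linarith) (by positivity)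
    nlinarith
  have hs2 : s + y ≤ u ^ 2 := by
    have h1 : ε * s ≤ 2 * (y * (1 + 4 / u)) :=
      hs1.trans (mul_le_mul_of_nonneg_left (mul_le_mul_of_nonneg_left (by linarith) hy0.le)
        (by norm_num))
    have h2 : y * (1 + 4 / u) = u ^ 4 + 4 * u ^ 3 := by
      rw [← huy]; field_simp
    rw [h2] at h1
    have h3 : u ^ 4 ≤ u ^ 3 := by
      have : u ^ 4 = u ^ 3 * u := by ring
      rw [this]
      have h0 : 0 ≤ u ^ 3 := by positivity
      nlinarith
    have h4 : ε * s ≤ 10 * u ^ 3 := by linarith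
    have h5 : s ≤ 10 / ε * u ^ 3 := by
      rw [div_mul_eq_mul_div, le_div_iff₀ hε]; linarith
    have h6 : y ≤ u ^ 3 := by rw [← huy]; exact h3
    have h7 : s + y ≤ D * u ^ 3 := by
      rw [hD]
      have : 0 ≤ u ^ 3 := by positivity
      nlinarith
    have h8 : D * u ^ 3 ≤ u ^ 2 := by
      have h9 : D * u ≤ 1 := by
        have := mul_le_mul_of_nonneg_left huD hDpos.le
        rwa [mul_one_div, div_self hDpos.ne'] at this
      have : D * u ^ 3 = (D * u) * u ^ 2 := by ring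
      rw [this]
      have h0 : 0 ≤ u ^ 2 := by positivity
      nlinarith
    linarith
  have hu2 : u ^ 2 ≤ 1 / 100 := by
    calc u ^ 2 ≤ (1 / 11) ^ 2 := pow_le_pow_left₀ hu.le hu11 2
      _ ≤ 1 / 100 := by norm_num
  have hw34 : 99 / 100 ≤ w z₀ := by linarith
  have hge := Inf_ge_log h (x := x) (by linarith) hx1 (by
    show s + y ≤ 1
    linarith)
  rw [← hs, ← hy] at hge
  -- the logarithm
  have hL : Real.log (1 / (s + y)) ≥ Real.log (1 / y) / 2 := by
    have h1 : Real.log (1 / u ^ 2) ≤ Real.log (1 / (s + y)) :=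
      Real.log_le_log (by positivity) (one_div_le_one_div_of_le (by linarith) hs2)
    have h2 : Real.log (1 / u ^ 2) = Real.log (1 / y) / 2 := by
      rw [← huy, one_div, one_div, Real.log_inv, Real.log_inv, Real.log_pow, Real.log_pow]
      push_cast; ring
    rw [h2] at h1
    exact h1
  set L : ℝ := Real.log (1 / y) with hLdef
  have hL4 : 4 ≤ L := by
    rw [hLdef, Real.le_log_iff_exp_le (by positivity)]
    have h1 : Real.exp 4 = Real.exp 1 ^ 4 := by
      rw [← Real.exp_nat_mul]; norm_num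
    have h2 : Real.exp 1 ^ 4 ≤ 3 ^ 4 :=
      pow_le_pow_left₀ (Real.exp_pos 1).le (by linarith [Real.exp_one_lt_d9]) 4
    have h3 : (100 : ℝ) ≤ 1 / y := by
      rw [le_div_iff₀ hy0]; linarith
    rw [h1]
    calc Real.exp 1 ^ 4 ≤ 3 ^ 4 := h2
      _ ≤ 100 := by norm_num
      _ ≤ 1 / y := h3
  have hlog2 : Real.log 2 ≤ 0.6931471808 := Real.log_two_lt_d9.le
  have h1 : y * (99 / 100 * (L / 2) - 0.6931471808) ≤ Inf x w ξ := by
    refine le_trans (mul_le_mul_of_nonneg_left ?_ hy0.le) hge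
    have h2 : 99 / 100 * (L / 2) ≤ w z₀ * Real.log (1 / (s + y)) :=
      mul_le_mul hw34 hL (by linarith) hw.le
    linarith
  have hlogw : 0 ≤ ε * x * Real.log (1 / w z₀) := by
    have : 0 ≤ Real.log (1 / w z₀) := by linarith
    have hx0 : 0 < x := by linarith
    positivity
  have h3 : y * (1 + L) ≤ 8 * (y * (99 / 100 * (L / 2) - 0.6931471808)) := by
    have : 1 + L ≤ 8 * (99 / 100 * (L / 2) - 0.6931471808) := by linarith
    nlinarith
  linarith

theorem key (xg : ℝ) (hxg : 0 < xg) : ∃ c : ℝ, 0 < c ∧ ∀ ε : ℝ, 0 < ε → ε ≤ 1 →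
    ∀ (p : ℕ) [Fact p.Prime], Real.exp (c / ε) ≤ p → ∀ (w ξ : ZMod p → ℝ) (z₀ : ZMod p),
      Dist w ξ z₀ → ∀ x : ℝ, xg ≤ x → x < 1 →
        Psi x (1 - x) ≤ Real.exp (c / ε) * Inf x w ξ + ε * x * Real.log (1 / w z₀) := by
  have hlog2 : 0 < Real.log 2 := Real.log_pos (by norm_num)
  set c₁ : ℝ := 65536 * 21 ^ 8 / xg with hc₁
  have hc₁0 : 0 < c₁ := by positivity
  have hlogc : 0 < Real.log (8 + c₁) := Real.log_pos (by linarith)
  refine ⟨Real.log (8 + c₁) + 8 + 8 * (Real.log 2 / xg), by positivity, ?_⟩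
  intro ε hε hε1 p _ hp w ξ z₀ h x hx hx1
  set c : ℝ := Real.log (8 + c₁) + 8 + 8 * (Real.log 2 / xg) with hc
  set Λ : ℝ := Real.log 2 / (ε * xg) with hΛ
  have hΛ0 : 0 < Λ := by positivity
  have hiε : 1 ≤ 1 / ε := by rw [le_div_iff₀ hε]; linarith
  have hΛe : Λ = (Real.log 2 / xg) / ε := by rw [hΛ]; field_simp
  set y₀ : ℝ := (1 / (11 + 10 / ε)) ^ 4 with hy₀
  have hy₀0 : 0 < y₀ := by positivity
  set θ : ℝ := Real.exp (-Λ) with hθ
  have hθ0 : 0 < θ := Real.exp_pos _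
  have hθ1 : θ ≤ 1 := Real.exp_le_one_iff.2 (by linarith)
  set η : ℝ := θ ^ 4 / 128 with hη
  have hη0 : 0 < η := by positivity
  set κ : ℝ := xg * y₀ ^ 2 * η ^ 2 / 4 with hκ
  have hκ0 : 0 < κ := by positivity
  -- the size of the constant
  have hK : 8 + Real.log 2 / κ ≤ Real.exp (c / ε) := by
    have e1 : Real.exp (c / ε) = Real.exp (Real.log (8 + c₁) / ε) * Real.exp (8 / ε) *
        Real.exp (8 * Λ) := by
      rw [← Real.exp_add, ← Real.exp_add, hΛe, hc]
      congr 1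
      ring
    have h1 : 8 + c₁ ≤ Real.exp (Real.log (8 + c₁) / ε) := by
      have h2 : Real.log (8 + c₁) ≤ Real.log (8 + c₁) / ε := by
        rw [le_div_iff₀ hε]; nlinarith
      calc 8 + c₁ = Real.exp (Real.log (8 + c₁)) := (Real.exp_log (by linarith)).symm
        _ ≤ _ := Real.exp_le_exp.2 h2
    have h2 : (1 / ε) ^ 8 ≤ Real.exp (8 / ε) := by
      have h3 : 1 / ε ≤ Real.exp (1 / ε) := by
        have := Real.add_one_le_exp (1 / ε)
        linarith
      have h4 : Real.exp (8 / ε) = Real.exp (1 / ε) ^ 8 := by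
        rw [← Real.exp_nat_mul]
        congr 1
        push_cast; ring
      rw [h4]
      exact pow_le_pow_left₀ (by positivity) h3 8
    have h3 : 1 ≤ (1 / ε) ^ 8 := one_le_pow₀ hiε
    have h4 : 1 ≤ Real.exp (8 * Λ) := Real.one_le_exp (by positivity)
    have hy : (ε / 21) ^ 8 ≤ y₀ ^ 2 := by
      have h5 : ε / 21 ≤ 1 / (11 + 10 / ε) := by
        rw [div_le_div_iff₀ (by norm_num) (by positivity)]
        have : ε * (11 + 10 / ε) = 11 * ε + 10 := by field_simp
        linarith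
      calc (ε / 21) ^ 8 ≤ (1 / (11 + 10 / ε)) ^ 8 := pow_le_pow_left₀ (by positivity) h5 8
        _ = y₀ ^ 2 := by rw [hy₀]; ring
    have h5 : Real.log 2 / κ ≤ c₁ * (1 / ε) ^ 8 * Real.exp (8 * Λ) := by
      have e2 : η ^ 2 = Real.exp (-(8 * Λ)) / 16384 := by
        have : θ ^ 8 = Real.exp (-(8 * Λ)) := by
          rw [hθ, ← Real.exp_nat_mul]
          congr 1
          push_cast; ring
        rw [← this, hη]; ring
      have h6 : xg * (ε / 21) ^ 8 * (Real.exp (-(8 * Λ)) / 16384) / 4 ≤ κ := by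
        rw [hκ, e2]
        have := mul_le_mul_of_nonneg_left hy hxg.le
        have h7 := mul_le_mul_of_nonneg_right this
          (by positivity : 0 ≤ Real.exp (-(8 * Λ)) / 16384)
        linarith
      have h7 : 0 < xg * (ε / 21) ^ 8 * (Real.exp (-(8 * Λ)) / 16384) / 4 := by positivity
      have h8 : Real.log 2 ≤ 1 := by linarith [Real.log_two_lt_d9]
      calc Real.log 2 / κ ≤ 1 / κ := div_le_div_of_nonneg_right h8 hκ0.le
        _ ≤ 1 / (xg * (ε / 21) ^ 8 * (Real.exp (-(8 * Λ)) / 16384) / 4) :=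
            one_div_le_one_div_of_le h7 h6
        _ = c₁ * (1 / ε) ^ 8 * Real.exp (8 * Λ) := by
            rw [hc₁, Real.exp_neg]
            field_simp
            norm_num
    have h6 : 1 ≤ (1 / ε) ^ 8 * Real.exp (8 * Λ) := by
      have := mul_le_mul h3 h4 (by norm_num) (by positivity)
      linarith
    calc 8 + Real.log 2 / κ ≤ 8 * ((1 / ε) ^ 8 * Real.exp (8 * Λ)) +
          c₁ * (1 / ε) ^ 8 * Real.exp (8 * Λ) := by linarith
      _ = (8 + c₁) * (1 / ε) ^ 8 * Real.exp (8 * Λ) := by ring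
      _ ≤ Real.exp (Real.log (8 + c₁) / ε) * Real.exp (8 / ε) * Real.exp (8 * Λ) := by
          refine mul_le_mul_of_nonneg_right ?_ (Real.exp_pos _).le
          exact mul_le_mul h1 h2 (by positivity) (Real.exp_pos _).le
      _ = Real.exp (c / ε) := e1.symm
  have hp3 : 3 / θ ≤ p := by
    refine le_trans ?_ hp
    have e1 : (3 : ℝ) / θ = 3 * Real.exp Λ := by
      rw [hθ, Real.exp_neg]; field_simp
    rw [e1]
    have h1 : (3 : ℝ) ≤ Real.exp (8 / ε) := by
      have h2 : (8 : ℝ) ≤ 8 / ε := by rw [le_div_iff₀ hε]; linarith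
      have h3 := Real.add_one_le_exp (8 / ε)
      linarith
    have h2 : Real.exp Λ ≤ Real.exp (8 * (Real.log 2 / xg) / ε) := by
      apply Real.exp_le_exp.2
      rw [hΛe, mul_div_assoc]
      have : 0 < Real.log 2 / xg / ε := by positivity
      linarith
    calc 3 * Real.exp Λ ≤ Real.exp (8 / ε) * Real.exp (8 * (Real.log 2 / xg) / ε) :=
          mul_le_mul h1 h2 (Real.exp_pos _).le (Real.exp_pos _).le
      _ = Real.exp ((8 + 8 * (Real.log 2 / xg)) / ε) := by
          rw [← Real.exp_add]; congr 1; ring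
      _ ≤ Real.exp (c / ε) := by
          apply Real.exp_le_exp.2
          apply div_le_div_of_nonneg_right _ hε.le
          rw [hc]; linarith
  have hx0 : 0 < x := by linarith
  have hI := Inf_nonneg h hx0.le hx1.le
  have hw := h.pos
  have hw1 := h.le_one z₀
  have hlogw : 0 ≤ Real.log (1 / w z₀) := by
    apply Real.log_nonneg
    rw [le_div_iff₀ hw]; linarith
  suffices hsuff : Psi x (1 - x) ≤
      (8 + Real.log 2 / κ) * Inf x w ξ + ε * x * Real.log (1 / w z₀) by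
    have := mul_le_mul_of_nonneg_right hK hI
    linarith
  have hKI : 0 ≤ Real.log 2 / κ * Inf x w ξ := by positivity
  by_cases hxy : 1 - y₀ ≤ x
  · have := near_one ε hε p w ξ z₀ h x hxy hx1
    have e : (8 + Real.log 2 / κ) * Inf x w ξ = 8 * Inf x w ξ + Real.log 2 / κ * Inf x w ξ := by
      ring
    linarith
  · push Not at hxy
    have hP := Psi_le_log_two hx0.le hx1.le
    by_cases hθw : θ ≤ w z₀
    · obtain ⟨z, hz⟩ := chain θ hθ0 hθ1 p hp3 w ξ h.w0 h.w1 h.x0 h.x1 h.xz z₀ hθw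
      have h1 := Inf_ge_sq h hx0 hx1 z
      have h2 : κ ≤ x * (1 - x) ^ 2 * (w z - ∑ c, ξ c * w (z - c)) ^ 2 / 4 := by
        have h3 : η ^ 2 ≤ (w z - ∑ c, ξ c * w (z - c)) ^ 2 := by
          rw [← sq_abs (w z - ∑ c, ξ c * w (z - c))]
          exact pow_le_pow_left₀ hη0.le hz 2
        have h4 : y₀ ^ 2 ≤ (1 - x) ^ 2 := pow_le_pow_left₀ hy₀0.le (by linarith) 2
        rw [hκ]
        have h5 : xg * y₀ ^ 2 ≤ x * (1 - x) ^ 2 := mul_le_mul hx h4 (by positivity) hx0.le
        have h6 := mul_le_mul h5 h3 (by positivity) (by positivity)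
        linarith
      have h3 : Real.log 2 ≤ Real.log 2 / κ * Inf x w ξ := by
        have h4 : κ ≤ Inf x w ξ := h2.trans h1
        calc Real.log 2 = Real.log 2 / κ * κ := by field_simp
          _ ≤ Real.log 2 / κ * Inf x w ξ := mul_le_mul_of_nonneg_left h4 (by positivity)
      have h5 : 0 ≤ ε * x * Real.log (1 / w z₀) := by positivity
      have e : (8 + Real.log 2 / κ) * Inf x w ξ =
          8 * Inf x w ξ + Real.log 2 / κ * Inf x w ξ := by ring
      linarith
    · push Not at hθw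
      have h1 : Λ ≤ Real.log (1 / w z₀) := by
        rw [one_div, Real.log_inv]
        have : Real.log (w z₀) ≤ -Λ := by
          rw [Real.log_le_iff_le_exp hw]; exact hθw.le
        linarith
      have h2 : Real.log 2 ≤ ε * x * Real.log (1 / w z₀) := by
        calc Real.log 2 = ε * xg * Λ := by rw [hΛ]; field_simp
          _ ≤ ε * x * Real.log (1 / w z₀) :=
            mul_le_mul (mul_le_mul_of_nonneg_left hx hε.le) h1 hΛ0.le (by positivity)
      have h3 : 0 ≤ (8 + Real.log 2 / κ) * Inf x w ξ := by positivity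
      linarith

end

end H633R5.FS
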