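import Pool.Agent.H633R5.FS.Gen
import Pool.Agent.H633R5.FS.Cor

/-!
`max(|mA|, |A^m|) ≥ |A|^(c log m)`.
-/

set_option autoImplicit false

namespace H633R5.FS

open Finset
open scoped Pointwise

theorem growth_core (xg : ℝ) (hxg : 0 < xg) (δ : ℝ) (hδ0 : 0 < δ) (hδ1 : δ ≤ 1 / 2) :
    ∃ c : ℝ, 0 < c ∧ ∃ T : ℝ, 0 < T ∧ ∀ (k : ℕ) (a : ℝ), 0 < a → NumP k a xg →
      ∀ A : Finset ℤ, A.Nonempty → ∀ m : ℕ, 2 ≤ m → (m : ℝ) ≤ Real.log A.card →
        ((SS m A).card : ℝ) < (A.card : ℝ) ^ (1 + c * Real.log m) →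
        (k : ℝ) * a * ((1 - 3 * δ) * Real.log A.card - T) ≤
          Real.log (PS fun _ : Fin k => A).card := by
  obtain ⟨C, hC, htup⟩ := gtuple xg hxg
  set D : ℝ := Real.exp (C / δ) with hD
  have hD1 : 1 ≤ D := Real.one_le_exp (by positivity)
  set T : ℝ := 2 * δ + 16 * D ^ 2 / δ with hT
  have hT0 : 0 < T := by positivity
  set c : ℝ := min (min (δ / (4 * C)) (δ / (3 * D))) 1 with hc
  have hc0 : 0 < c := by positivity
  have hc1 : c ≤ δ / (4 * C) := (min_le_left _ _).trans (min_le_left _ _)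
  have hc2 : c ≤ δ / (3 * D) := (min_le_left _ _).trans (min_le_right _ _)
  have hc4 : c ≤ 1 := min_le_right _ _
  refine ⟨c, hc0, T, hT0, ?_⟩
  intro k a ha hnum A hA m hm hmA hsum
  have hm2 : (2 : ℝ) ≤ m := by exact_mod_cast hm
  have hm0 : (0 : ℝ) < m := by linarith
  set ℓ : ℝ := Real.log A.card with hℓ
  have hℓ2 : 2 ≤ ℓ := by linarith
  have cA : (1 : ℝ) ≤ A.card := by exact_mod_cast hA.card_pos
  have hlogm : 0 < Real.log m := Real.log_pos (by linarith)
  set b : ℝ := c * Real.log m with hb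
  have hb0 : 0 < b := by positivity
  -- a nonzero element
  have hA0 : ∃ a ∈ A, a ≠ 0 := by
    by_contra h
    push Not at h
    have h1 : A ⊆ {0} := fun a ha => Finset.mem_singleton.2 (h a ha)
    have h2 : A.card ≤ 1 := by simpa using Finset.card_le_card h1
    have h3 : ℓ ≤ 0 := by
      rw [hℓ]
      apply Real.log_nonpos (by linarith)
      exact_mod_cast h2
    linarith
  -- the step
  obtain ⟨j, _, _, hj3, hj4⟩ := slow_step A hA m hm
  have hSm : Real.log (S A m).card ≤ (1 + b) * ℓ := by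
    have h1 : ((S A m).card : ℝ) ≤ (A.card : ℝ) ^ (1 + b) := by
      have h2 : ((S A m).card : ℝ) ≤ (SS m A).card := by
        exact_mod_cast Finset.card_le_card (S_subset A m)
      linarith
    have h2 : (0 : ℝ) < (S A m).card := by exact_mod_cast (S_nonempty hA m).card_pos
    have h3 := Real.log_le_log h2 h1
    rwa [Real.log_rpow (by linarith)] at h3
  have hP : (S A j).Nonempty := S_nonempty hA j
  have cP : (1 : ℝ) ≤ (S A j).card := by exact_mod_cast hP.card_pos
  have hlogP : 0 ≤ Real.log (S A j).card := Real.log_nonneg cP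
  have hlogPb : Real.log (S A j).card ≤ (1 + b) * ℓ := hj3.trans hSm
  set κ : ℝ := Real.log (((A + S A j).card : ℝ) / (S A j).card) with hκ
  have hκ0 : 0 ≤ κ := by
    apply Real.log_nonneg
    rw [le_div_iff₀ (by linarith), one_mul]
    exact_mod_cast Finset.card_le_card_add_left hA
  have hκb : κ ≤ 2 * b * ℓ / m := by
    rw [le_div_iff₀ hm0]
    have h1 : ((m : ℝ) - 1) * κ ≤ b * ℓ := by linarith
    nlinarith
  -- apply the inequality
  set e : ℝ := δ / (1 + b) with he
  have he0 : 0 < e := by positivity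
  have he1 : e ≤ 1 := by
    rw [he, div_le_one (by positivity)]; linarith
  have heb : e * (1 + b) = δ := by
    rw [he]; field_simp
  have h1 := htup k a ha hnum e he0 he1 (fun _ => A) (fun _ => S A j) (fun _ => hA0)
    (fun _ => hP)
  rw [Finset.sum_const, Finset.card_univ, Fintype.card_fin, nsmul_eq_mul] at h1
  -- the size of the exponent
  have hE : Real.exp (C / e) ≤ D * (m : ℝ) ^ (1 / 4 : ℝ) := by
    have h2 : C / e = C / δ + C * b / δ := by rw [he]; field_simp
    rw [h2, Real.exp_add, Real.rpow_def_of_pos hm0]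
    refine mul_le_mul_of_nonneg_left ?_ (by linarith)
    apply Real.exp_le_exp.2
    have h3 : C * b / δ = (C * c / δ) * Real.log m := by rw [hb]; ring
    rw [h3, mul_comm (Real.log (m : ℝ))]
    refine mul_le_mul_of_nonneg_right ?_ hlogm.le
    rw [div_le_iff₀ hδ0]
    have h4 : C * c ≤ C * (δ / (4 * C)) := mul_le_mul_of_nonneg_left hc1 hC.le
    have h5 : C * (δ / (4 * C)) = 1 / 4 * δ := by field_simp
    linarith
  have hE0 : 0 < Real.exp (C / e) := Real.exp_pos _
  -- first loss
  have hloss1 : Real.exp (C / e) * κ ≤ δ * ℓ := by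
    have h2 : Real.exp (C / e) * κ ≤ (D * (m : ℝ) ^ (1 / 4 : ℝ)) * (2 * b * ℓ / m) :=
      mul_le_mul hE hκb hκ0 (by positivity)
    have h3 : (m : ℝ) ^ (1 / 4 : ℝ) * (m : ℝ) ^ (3 / 4 : ℝ) = m := by
      rw [← Real.rpow_add hm0]; norm_num
    have h4 : b ≤ c * (4 / 3 * (m : ℝ) ^ (3 / 4 : ℝ)) :=
      mul_le_mul_of_nonneg_left (log_le_pow m hm0) hc0.le
    have h5 : (D * (m : ℝ) ^ (1 / 4 : ℝ)) * (2 * b * ℓ / m) ≤
        (D * (m : ℝ) ^ (1 / 4 : ℝ)) * (2 * (c * (4 / 3 * (m : ℝ) ^ (3 / 4 : ℝ))) * ℓ / m) := by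
      refine mul_le_mul_of_nonneg_left ?_ (by positivity)
      apply div_le_div_of_nonneg_right _ hm0.le
      refine mul_le_mul_of_nonneg_right ?_ (by linarith)
      linarith
    have h6 : (D * (m : ℝ) ^ (1 / 4 : ℝ)) * (2 * (c * (4 / 3 * (m : ℝ) ^ (3 / 4 : ℝ))) * ℓ / m) =
        8 / 3 * D * c * ℓ := by
      have h7 : (D * (m : ℝ) ^ (1 / 4 : ℝ)) * (2 * (c * (4 / 3 * (m : ℝ) ^ (3 / 4 : ℝ))) * ℓ / m) =
          8 / 3 * D * c * ℓ * ((m : ℝ) ^ (1 / 4 : ℝ) * (m : ℝ) ^ (3 / 4 : ℝ)) / m := by ring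
      rw [h7, h3]
      field_simp
    have h7 : 8 / 3 * D * c ≤ δ := by
      have h8 : D * c ≤ D * (δ / (3 * D)) := mul_le_mul_of_nonneg_left hc2 (by linarith)
      have h9 : D * (δ / (3 * D)) = δ / 3 := by field_simp
      linarith
    have h8 : 8 / 3 * D * c * ℓ ≤ δ * ℓ := mul_le_mul_of_nonneg_right h7 (by linarith)
    linarith
  -- second loss
  have hloss2 : Real.exp (C / e) * Real.log (3 + Real.log (S A j).card) ≤ δ * ℓ + T := by
    have h2 : b ≤ ℓ := by
      have h3 : Real.log m ≤ m := by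
        have := Real.log_le_sub_one_of_pos hm0
        linarith
      have h4 : b ≤ 1 * Real.log m := mul_le_mul_of_nonneg_right hc4 hlogm.le
      linarith
    have h3 : 3 + Real.log (S A j).card ≤ (ℓ + 2) ^ 2 := by nlinarith
    have h4 : Real.log (3 + Real.log (S A j).card) ≤ 2 * Real.log (ℓ + 2) := by
      have h5 := Real.log_le_log (by linarith) h3
      rw [Real.log_pow] at h5
      push_cast at h5
      exact h5
    have h5 := log_le_sqrt (ℓ + 2) (by linarith)
    have h6 : (m : ℝ) ^ (1 / 4 : ℝ) ≤ (ℓ + 2) ^ (1 / 4 : ℝ) :=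
      Real.rpow_le_rpow hm0.le (by linarith) (by norm_num)
    have h0 : 0 ≤ Real.log (3 + Real.log (S A j).card) := Real.log_nonneg (by linarith)
    obtain ⟨q, hq⟩ : ∃ q : ℝ, q = (ℓ + 2) ^ (1 / 4 : ℝ) := ⟨_, rfl⟩
    have hq0 : 0 < q := by rw [hq]; exact Real.rpow_pos_of_pos (by linarith) _
    have hq4 : q ^ 4 = ℓ + 2 := by
      rw [hq, ← Real.rpow_natCast, ← Real.rpow_mul (by linarith)]
      norm_num
    rw [← hq] at h5 h6
    have h7 : Real.exp (C / e) * Real.log (3 + Real.log (S A j).card) ≤ (D * q) * (8 * q) := by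
      have h8 : Real.exp (C / e) ≤ D * q :=
        hE.trans (mul_le_mul_of_nonneg_left h6 (by linarith))
      exact mul_le_mul h8 (by linarith) h0 (by positivity)
    have h8 : (D * q) * (8 * q) ≤ δ * q ^ 4 + 16 * D ^ 2 / δ := by
      have h9 : 0 ≤ (δ * q ^ 2 - 4 * D) ^ 2 / δ := by positivity
      have h10 : (δ * q ^ 2 - 4 * D) ^ 2 / δ = δ * q ^ 4 - 8 * D * q ^ 2 + 16 * D ^ 2 / δ := by
        field_simp
        ring
      rw [h10] at h9
      linarith
    rw [hq4] at h8
    rw [hT]
    linarith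
  refine le_trans ?_ h1
  have h3 : e * Real.log (S A j).card ≤ δ * ℓ := by
    have h4 : e * Real.log (S A j).card ≤ e * ((1 + b) * ℓ) :=
      mul_le_mul_of_nonneg_left hlogPb he0.le
    have h5 : e * ((1 + b) * ℓ) = δ * ℓ := by rw [← mul_assoc, heb]
    linarith
  have hk0 : (0 : ℝ) ≤ k := Nat.cast_nonneg k
  have h4 : (1 - 3 * δ) * ℓ - T ≤ ℓ - e * Real.log (S A j).card -
      Real.exp (C / e) * (Real.log (3 + Real.log (S A j).card) + κ) := by
    rw [mul_add]
    linarith
  have h5 : (k : ℝ) * a * ((1 - 3 * δ) * ℓ - T) ≤ k * a * (ℓ - e * Real.log (S A j).card -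
      Real.exp (C / e) * (Real.log (3 + Real.log (S A j).card) + κ)) :=
    mul_le_mul_of_nonneg_left h4 (by positivity)
  linarith

theorem card_add_le_SS (A : Finset ℤ) (hA : A.Nonempty) (m : ℕ) (hm : 2 ≤ m) :
    (A + A).card ≤ (SS m A).card := by
  obtain ⟨j, rfl⟩ : ∃ j, m = j + 1 + 1 := ⟨m - 2, by omega⟩
  have e : S A (j + 1 + 1) = (A + A) + S A j := by
    show A + (A + S A j) = (A + A) + S A j
    rw [add_assoc]
  calc (A + A).card ≤ ((A + A) + S A j).card :=
        Finset.card_le_card_add_right (S_nonempty hA j)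
    _ ≤ (SS (j + 1 + 1) A).card := by
        rw [← e]
        exact Finset.card_le_card (S_subset A (j + 1 + 1))

theorem log_exponent : ∃ c : ℝ, 0 < c ∧ ∀ A : Finset ℤ, A.Nonempty → ∀ m : ℕ, 2 ≤ m →
    (m : ℝ) ≤ Real.log A.card → ∀ k : ℕ, 2 ≤ k →
      (A.card : ℝ) ^ (c * Real.log k) ≤ (PS fun _ : Fin k => A).card ∨
        (A.card : ℝ) ^ (1 + c * Real.log m) ≤ (SS m A).card := by
  obtain ⟨c₀, hc₀, T, hT, h⟩ := growth_core (1 / 2) (by norm_num) (1 / 12) (by norm_num)
    (by norm_num)
  set W : ℝ := 4 * T + 2 with hW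
  have hW2 : 2 < W := by linarith
  have hlogW : 0 < Real.log W := Real.log_pos (by linarith)
  refine ⟨min (min c₀ (1 / 8)) (1 / (3 * (W * Real.log W))), by positivity, ?_⟩
  set c : ℝ := min (min c₀ (1 / 8)) (1 / (3 * (W * Real.log W))) with hc
  have hc1 : c ≤ c₀ := (min_le_left _ _).trans (min_le_left _ _)
  have hc2 : c ≤ 1 / 8 := (min_le_left _ _).trans (min_le_right _ _)
  have hc3 : c ≤ 1 / (3 * (W * Real.log W)) := min_le_right _ _
  intro A hA m hm hmA k hk
  have hm2 : (2 : ℝ) ≤ m := by exact_mod_cast hm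
  have hm0 : (0 : ℝ) < m := by linarith
  have hk2 : (2 : ℝ) ≤ k := by exact_mod_cast hk
  have hk0 : (0 : ℝ) < k := by linarith
  have cA : (1 : ℝ) ≤ A.card := by exact_mod_cast hA.card_pos
  have hlogm : 0 < Real.log m := Real.log_pos (by linarith)
  have hlogk : 0 < Real.log k := Real.log_pos (by linarith)
  by_cases hsmall : Real.log A.card < 4 * T
  · -- small sets
    right
    have h1 : c * Real.log m * Real.log A.card ≤ 1 / 3 := by
      have h2 : Real.log m ≤ Real.log W := Real.log_le_log hm0 (by linarith)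
      have h3 : c * Real.log m ≤ 1 / (3 * (W * Real.log W)) * Real.log W :=
        mul_le_mul hc3 h2 hlogm.le (by positivity)
      have h4 : c * Real.log m * Real.log A.card ≤
          1 / (3 * (W * Real.log W)) * Real.log W * W :=
        mul_le_mul h3 (by linarith) (by linarith) (by positivity)
      have h5 : 1 / (3 * (W * Real.log W)) * Real.log W * W = 1 / 3 := by field_simp
      linarith
    have h2 : (A.card : ℝ) ^ (1 + c * Real.log m) ≤ 3 / 2 * A.card := by
      have h3 : (A.card : ℝ) ^ (1 + c * Real.log m) =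
          A.card * Real.exp (c * Real.log m * Real.log A.card) := by
        rw [Real.rpow_def_of_pos (by linarith)]
        have e1 : Real.log A.card * (1 + c * Real.log m) =
            Real.log A.card + c * Real.log m * Real.log A.card := by ring
        rw [e1, Real.exp_add, Real.exp_log (by linarith)]
      rw [h3]
      have h4 : Real.exp (c * Real.log m * Real.log A.card) ≤ 3 / 2 := by
        have h5 : Real.exp (1 / 3) ≤ 3 / 2 := by
          have h6 : Real.exp (1 / 3) ^ 3 = Real.exp 1 := by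
            rw [← Real.exp_nat_mul]; norm_num
          have h7 : Real.exp (1 / 3) ^ 3 ≤ (3 / 2) ^ 3 := by
            rw [h6]; linarith [Real.exp_one_lt_d9]
          exact le_of_pow_le_pow_left₀ (by norm_num) (by norm_num) h7
        exact (Real.exp_le_exp.2 h1).trans h5
      nlinarith
    refine h2.trans ?_
    have h3 : A.card + A.card - 1 ≤ (A + A).card :=
      cauchy_davenport_add_of_linearOrder_isCancelAdd hA hA
    have h4 : 2 ≤ A.card := by
      by_contra hcon
      have h5 : A.card = 1 := by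
        have := hA.card_pos
        omega
      rw [h5] at hmA
      simp at hmA
      omega
    have h5 : 3 * A.card ≤ 2 * (A + A).card := by omega
    have h6 : (A + A).card ≤ (SS m A).card := card_add_le_SS A hA m hm
    have h7 : 3 * A.card ≤ 2 * (SS m A).card := by omega
    have h8 : (3 : ℝ) * A.card ≤ 2 * (SS m A).card := by exact_mod_cast h7
    linarith
  push Not at hsmall
  by_cases hS : ((SS m A).card : ℝ) < (A.card : ℝ) ^ (1 + c₀ * Real.log m)
  · left
    have hnum : NumP k ((Real.log k / 4) / k) (1 / 2) := by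
      apply numP_many k (Real.log k / 4) (by positivity)
      have : 4 * (Real.log k / 4) = Real.log k := by ring
      rw [this, Real.exp_log hk0]
    have h1 := h k ((Real.log k / 4) / k) (by positivity) hnum A hA m hm hmA hS
    have h2 : (k : ℝ) * ((Real.log k / 4) / k) = Real.log k / 4 := by field_simp
    rw [h2] at h1
    have h3 : Real.log k / 8 * Real.log A.card ≤ Real.log (PS fun _ : Fin k => A).card := by
      refine le_trans ?_ h1
      have h4 : Real.log A.card / 2 ≤ (1 - 3 * (1 / 12)) * Real.log A.card - T := by linarith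
      have h5 := mul_le_mul_of_nonneg_left h4 (by positivity : 0 ≤ Real.log k / 4)
      linarith
    have hPS : (0 : ℝ) < (PS fun _ : Fin k => A).card := by
      exact_mod_cast (PS_nonempty fun _ => hA).card_pos
    rw [← Real.exp_log hPS, Real.rpow_def_of_pos (by linarith)]
    apply Real.exp_le_exp.2
    refine le_trans ?_ h3
    have h6 : c * Real.log k ≤ 1 / 8 * Real.log k := mul_le_mul_of_nonneg_right hc2 hlogk.le
    have h7 : 0 ≤ Real.log A.card := Real.log_nonneg cA
    have h8 := mul_le_mul_of_nonneg_right h6 h7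
    linarith
  · push Not at hS
    right
    refine le_trans ?_ hS
    apply Real.rpow_le_rpow_of_exponent_le cA
    have := mul_le_mul_of_nonneg_right hc1 hlogm.le
    linarith

end H633R5.FS
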