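import Pool.Agent.H633R5.FS.Psi

/-!
The numerical lemma that makes the induction over `k`-tuples of cells work.
-/

set_option autoImplicit false

namespace H633R5.FS

open Finset

theorem Psi_le_sqrt {x u : ℝ} (hx : 0 < x) (hu : 0 < u) (hu1 : u ≤ 1 / 2) (hxu : x ≤ u ^ 2) :
    Psi x (1 - x) ≤ 2 * u := by
  have hx1 : x < 1 := by nlinarith
  have h1 := Psi_le hx hx1
  obtain ⟨s, hs, hsx⟩ : ∃ s : ℝ, 0 < s ∧ s ^ 2 = x :=
    ⟨Real.sqrt x, Real.sqrt_pos.2 hx, Real.sq_sqrt hx.le⟩
  have hsu : s ≤ u := by
    rw [← hsx] at hxu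
    exact le_of_pow_le_pow_left₀ (by norm_num) hu.le hxu
  have h2 : Real.log (1 / x) ≤ 2 * (1 / s - 1) := by
    have h3 : Real.log (1 / s) ≤ 1 / s - 1 := Real.log_le_sub_one_of_pos (by positivity)
    have h4 : Real.log (1 / x) = 2 * Real.log (1 / s) := by
      rw [← hsx, one_div, one_div, Real.log_inv, Real.log_inv, Real.log_pow]
      push_cast; ring
    rw [h4]
    linarith
  have h3 : x * (1 + Real.log (1 / x)) ≤ x * (1 + 2 * (1 / s - 1)) :=
    mul_le_mul_of_nonneg_left (by linarith) hx.le
  have h4 : x * (1 + 2 * (1 / s - 1)) = 2 * s - x := by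
    rw [← hsx]; field_simp; ring
  linarith

theorem num (k : ℕ) (hk : 1 ≤ k) (a : ℝ) (ha : 0 < a) (ha1 : a < 1) :
    ∃ xg : ℝ, 0 < xg ∧ ∀ {ι : Type} (S : Finset ι), S.Nonempty → S.card ≤ k →
      ∀ x f f' : ι → ℝ, (∀ j ∈ S, 0 < x j) → (∀ j ∈ S, x j < 1) →
      (∀ j ∈ S, -(a * Psi (x j) (1 - x j)) ≤ (1 - x j) * f j + x j * f' j) →
      (∀ j ∈ S, xg ≤ x j → 0 ≤ (1 - x j) * f j + x j * f' j) →
      ∃ i ∈ S, 1 ≤ Real.exp (∑ j ∈ S, f j) + Real.exp (f' i) := by
  have hk0 : (1 : ℝ) ≤ k := by exact_mod_cast hk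
  have hia : 0 < 1 / a - 1 := by
    have : 1 < 1 / a := by rw [lt_div_iff₀ ha]; linarith
    linarith
  have hlog2k : 0 ≤ Real.log (2 * k) := Real.log_nonneg (by linarith)
  set μ₀ : ℝ := Real.log (2 * k) / (1 / a - 1) with hμ₀
  have hμ₀0 : 0 ≤ μ₀ := div_nonneg hlog2k hia.le
  set u : ℝ := Real.exp (-μ₀) / (4 * k) with hu
  have hu0 : 0 < u := by positivity
  have hexp1 : Real.exp (-μ₀) ≤ 1 := Real.exp_le_one_iff.2 (by linarith)
  have hu1 : u ≤ 1 / 4 := by
    rw [hu, div_le_div_iff₀ (by positivity) (by norm_num)]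
    nlinarith
  refine ⟨u ^ 2, by positivity, ?_⟩
  intro ι S hS hSk x f f' hx0 hx1 h1 h2
  by_cases hpos : ∃ i ∈ S, 0 ≤ f' i
  · obtain ⟨i, hi, hfi⟩ := hpos
    refine ⟨i, hi, ?_⟩
    have h3 := Real.one_le_exp hfi
    have h4 := Real.exp_pos (∑ j ∈ S, f j)
    linarith
  push Not at hpos
  obtain ⟨i, hi, hmax⟩ := Finset.exists_max_image S f' hS
  refine ⟨i, hi, ?_⟩
  set μ : ℝ := -f' i with hμ
  have hμ0 : 0 < μ := by have := hpos i hi; linarith
  have hf'i : f' i = -μ := by rw [hμ]; ring
  rw [hf'i]
  set E : ℝ := Real.exp (-μ) with hE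
  have hE0 : 0 < E := Real.exp_pos _
  have claim : ∀ j ∈ S, -(E / k) ≤ f j := by
    intro j hj
    have hxj := hx0 j hj
    have hxj1 := hx1 j hj
    have hf'j : f' j ≤ -μ := by rw [← hf'i]; exact hmax j hj
    have hEk : 0 < E / k := by positivity
    by_cases hg : u ^ 2 ≤ x j
    · have h3 := h2 j hj hg
      have h4 : x j * f' j ≤ 0 := mul_nonpos_of_nonneg_of_nonpos hxj.le (by linarith)
      have h5 : 0 ≤ (1 - x j) * f j := by linarith
      have h6 : 0 ≤ f j := by
        by_contra hcon
        push Not at hcon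
        have := mul_neg_of_pos_of_neg (by linarith : 0 < 1 - x j) hcon
        linarith
      linarith
    · push Not at hg
      have hxhalf : x j ≤ 1 / 2 := by nlinarith
      have h3 := h1 j hj
      have h4 : x j * f' j ≤ -(x j * μ) := by nlinarith
      have h5 : a * Psi (x j) (1 - x j) - x j * μ ≤ E / (2 * k) := by
        by_cases hcase : μ₀ ≤ μ
        · have hPsi := Psi_le hxj hxj1
          have h6 : Real.log (Real.exp (-(μ / a)) / x j) ≤ Real.exp (-(μ / a)) / x j - 1 :=
            Real.log_le_sub_one_of_pos (by positivity)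
          rw [Real.log_div (Real.exp_pos _).ne' hxj.ne', Real.log_exp] at h6
          have h7 : a * x j * (1 + Real.log (1 / x j) - μ / a) ≤ a * Real.exp (-(μ / a)) := by
            rw [one_div, Real.log_inv]
            have h8 : a * x j * (1 + -Real.log (x j) - μ / a) ≤
                a * x j * (Real.exp (-(μ / a)) / x j) :=
              mul_le_mul_of_nonneg_left (by linarith) (by positivity)
            have h9 : a * x j * (Real.exp (-(μ / a)) / x j) = a * Real.exp (-(μ / a)) := by
              field_simp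
            linarith
          have h8 : a * x j * (1 + Real.log (1 / x j) - μ / a) =
              a * (x j * (1 + Real.log (1 / x j))) - x j * μ := by
            field_simp
          rw [h8] at h7
          have h9 := mul_le_mul_of_nonneg_left hPsi ha.le
          have h10 : a * Real.exp (-(μ / a)) ≤ E / (2 * k) := by
            have h11 : Real.exp (-(μ / a)) ≤ E / (2 * k) := by
              rw [le_div_iff₀ (by positivity)]
              have h12 : (2 * k : ℝ) = Real.exp (Real.log (2 * k)) :=
                (Real.exp_log (by positivity)).symm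
              rw [h12, ← Real.exp_add, hE]
              apply Real.exp_le_exp.2
              have h13 : Real.log (2 * k) ≤ μ * (1 / a - 1) := by
                have := mul_le_mul_of_nonneg_right hcase hia.le
                rw [hμ₀, div_mul_cancel₀ _ hia.ne'] at this
                exact this
              have h14 : μ * (1 / a - 1) = μ / a - μ := by ring
              linarith
            have h12 : a * Real.exp (-(μ / a)) ≤ 1 * Real.exp (-(μ / a)) :=
              mul_le_mul_of_nonneg_right ha1.le (Real.exp_pos _).le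
            linarith
          linarith
        · push Not at hcase
          have h6 := Psi_le_sqrt hxj hu0 (by linarith) hg.le
          have h7 : 0 ≤ Psi (x j) (1 - x j) := Psi_nonneg hxj.le (by linarith)
          have h8 : a * Psi (x j) (1 - x j) ≤ 1 * Psi (x j) (1 - x j) :=
            mul_le_mul_of_nonneg_right ha1.le h7
          have h9 : 2 * u = Real.exp (-μ₀) / (2 * k) := by rw [hu]; ring
          have h10 : Real.exp (-μ₀) / (2 * k) ≤ E / (2 * k) := by
            apply div_le_div_of_nonneg_right _ (by positivity)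
            exact Real.exp_le_exp.2 (by linarith)
          have h11 : 0 ≤ x j * μ := by positivity
          linarith
      have h6 : -(E / (2 * k)) ≤ (1 - x j) * f j := by linarith
      by_contra hcon
      push Not at hcon
      have h7 : (1 - x j) * f j < (1 - x j) * (-(E / k)) :=
        mul_lt_mul_of_pos_left hcon (by linarith)
      have h8 : (1 - x j) * (-(E / k)) ≤ 1 / 2 * (-(E / k)) :=
        mul_le_mul_of_nonpos_right (by linarith) (by linarith)
      have h9 : 1 / 2 * (-(E / k)) = -(E / (2 * k)) := by field_simp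
      linarith
  have hsum : -E ≤ ∑ j ∈ S, f j := by
    have h3 : ∑ _j ∈ S, -(E / k) ≤ ∑ j ∈ S, f j := Finset.sum_le_sum claim
    rw [Finset.sum_const, nsmul_eq_mul] at h3
    have h4 : (S.card : ℝ) * -(E / k) ≥ -E := by
      have h5 : (S.card : ℝ) ≤ k := by exact_mod_cast hSk
      have h6 : (S.card : ℝ) * (E / k) ≤ k * (E / k) :=
        mul_le_mul_of_nonneg_right h5 (by positivity)
      have h7 : (k : ℝ) * (E / k) = E := by field_simp
      linarith
    linarith
  have h3 := Real.add_one_le_exp (∑ j ∈ S, f j)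
  linarith

end H633R5.FS
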