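import Pool.Agent.H633R5.FS.Small
import Pool.Agent.H633R5.FS.Num

/-!
The induction over `k`-tuples of cells.
-/

set_option autoImplicit false

namespace H633R5.FS

open Finset
open scoped Pointwise

/-- products of tuples -/
def PS {k : ℕ} (C : Fin k → Finset ℤ) : Finset ℤ :=
  (Fintype.piFinset C).image fun f => ∏ i, f i

theorem PS_nonempty {k : ℕ} {C : Fin k → Finset ℤ} (h : ∀ i, (C i).Nonempty) :
    (PS C).Nonempty := by
  unfold PS
  apply Finset.Nonempty.image
  rw [Fintype.piFinset_nonempty]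
  exact h

theorem PS_mono {k : ℕ} {C D : Fin k → Finset ℤ} (h : ∀ i, C i ⊆ D i) : PS C ⊆ PS D := by
  unfold PS
  exact Finset.image_subset_image (Fintype.piFinset_subset C D h)

theorem padicValInt_prod {ι : Type*} (p : ℕ) [Fact p.Prime] (s : Finset ι) (f : ι → ℤ)
    (h : ∀ i ∈ s, f i ≠ 0) :
    padicValInt p (∏ i ∈ s, f i) = ∑ i ∈ s, padicValInt p (f i) := by
  classical
  induction s using Finset.induction_on with
  | empty => simp
  | insert i s hi ih =>
    rw [Finset.prod_insert hi, Finset.sum_insert hi,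
      padicValInt.mul (h i (Finset.mem_insert_self _ _))
        (Finset.prod_ne_zero_iff.2 fun j hj => h j (Finset.mem_insert_of_mem hj)),
      ih fun j hj => h j (Finset.mem_insert_of_mem hj)]

theorem natAbs_eq_of_padic {a b : ℤ} (ha : a ≠ 0) (hb : b ≠ 0)
    (h : ∀ p : ℕ, p.Prime → padicValInt p a = padicValInt p b) : a.natAbs = b.natAbs := by
  rw [Nat.eq_iff_prime_padicValNat_eq _ _ (Int.natAbs_ne_zero.2 ha) (Int.natAbs_ne_zero.2 hb)]
  intro p hp
  exact h p hp

theorem card_le_two {C : Finset ℤ} (h : ∀ c ∈ C, ∀ c' ∈ C, c.natAbs = c'.natAbs) :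
    C.card ≤ 2 := by
  rcases C.eq_empty_or_nonempty with h0 | ⟨c, hc⟩
  · rw [h0]; simp
  · have : C ⊆ {c, -c} := by
      intro d hd
      rw [Finset.mem_insert, Finset.mem_singleton]
      exact Int.natAbs_eq_natAbs_iff.1 (h d hd c hc)
    exact (Finset.card_le_card this).trans Finset.card_le_two

/-- the product rule -/
theorem PS_rule {k : ℕ} (p : ℕ) [Fact p.Prime] (C D E : Fin k → Finset ℤ)
    (h0 : ∀ i, ∀ c ∈ C i, c ≠ 0) (hD : ∀ i, D i ⊆ C i) (hE : ∀ i, E i ⊆ C i) (t : Fin k → ℕ)
    (ht : ∀ i, ∀ c ∈ C i, t i ≤ padicValInt p c) (hDt : ∀ i, ∀ c ∈ D i, padicValInt p c = t i)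
    (i₀ : Fin k) (hEt : ∀ c ∈ E i₀, padicValInt p c ≠ t i₀) :
    (PS D).card + (PS E).card ≤ (PS C).card := by
  have hdisj : Disjoint (PS D) (PS E) := by
    rw [Finset.disjoint_left]
    intro u hu hu'
    obtain ⟨f, hf, rfl⟩ := Finset.mem_image.1 hu
    obtain ⟨f', hf', he⟩ := Finset.mem_image.1 hu'
    rw [Fintype.mem_piFinset] at hf hf'
    have h1 : padicValInt p (∏ i, f i) = ∑ i, t i := by
      rw [padicValInt_prod p _ _ fun i _ => h0 i _ (hD i (hf i))]
      exact Finset.sum_congr rfl fun i _ => hDt i _ (hf i)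
    have h2 : ∑ i, t i < padicValInt p (∏ i, f' i) := by
      rw [padicValInt_prod p _ _ fun i _ => h0 i _ (hE i (hf' i))]
      apply Finset.sum_lt_sum
      · intro i _
        exact ht i _ (hE i (hf' i))
      · refine ⟨i₀, Finset.mem_univ _, ?_⟩
        have h3 := ht i₀ _ (hE i₀ (hf' i₀))
        have h4 := hEt _ (hf' i₀)
        omega
    rw [he, h1] at h2
    exact lt_irrefl _ h2
  rw [← Finset.card_union_of_disjoint hdisj]
  exact Finset.card_le_card (Finset.union_subset (PS_mono hD) (PS_mono hE))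

theorem main (k : ℕ) (hk : 1 ≤ k) (a : ℝ) (ha : 0 < a) (ha1 : a < 1) :
    ∃ c₀ : ℝ, 0 < c₀ ∧ ∀ e : ℝ, 0 < e → e ≤ a → ∀ K : ℝ, K = Real.exp (c₀ / e) →
      ∀ n : ℕ, ∀ C R : Fin k → Finset ℤ, ∑ i, (C i).card = n →
      (∀ i, (C i).Nonempty) → (∀ i, (R i).Nonempty) → (∀ i, ∀ c ∈ C i, c ≠ 0) →
      (∀ i, ∀ q : ℕ, q.Prime → (q : ℝ) < Real.exp (c₀ / e) → ∀ c ∈ C i, ∀ c' ∈ C i,
        padicValInt q c = padicValInt q c') →
      Real.exp (∑ i, F a K e (C i) (R i) - k * Real.log 2) ≤ ((PS C).card : ℝ) := by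
  classical
  obtain ⟨xg, hxg, hnum⟩ := num k hk a ha ha1
  obtain ⟨c₀, hc₀, hcell⟩ := cell a xg ha ha1.le hxg
  refine ⟨c₀, hc₀, ?_⟩
  intro e he hea K hKe n
  have hK : 0 < K := by rw [hKe]; exact Real.exp_pos _
  induction n using Nat.strong_induction_on with
  | _ n ih =>
  intro C R hn hC hR h0 hsm
  by_cases hconst : ∀ i, ∀ p : ℕ, p.Prime → ∀ c ∈ C i, ∀ c' ∈ C i,
      padicValInt p c = padicValInt p c'
  · -- the base case
    have h1 : ∀ i, F a K e (C i) (R i) ≤ Real.log 2 := by
      intro i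
      refine (F_le a K e hK.le he.le (C i) (R i) (hC i) (hR i)).trans ?_
      have h2 : (C i).card ≤ 2 := card_le_two fun c hc c' hc' =>
        natAbs_eq_of_padic (h0 i c hc) (h0 i c' hc') fun p hp => hconst i p hp c hc c' hc'
      have h3 : Real.log (C i).card ≤ Real.log 2 :=
        Real.log_le_log (by exact_mod_cast (hC i).card_pos) (by exact_mod_cast h2)
      have h4 : 0 ≤ Real.log (C i).card := Real.log_natCast_nonneg _
      nlinarith
    have h2 : ∑ i, F a K e (C i) (R i) ≤ k * Real.log 2 := by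
      calc ∑ i, F a K e (C i) (R i) ≤ ∑ _i : Fin k, Real.log 2 :=
            Finset.sum_le_sum fun i _ => h1 i
        _ = k * Real.log 2 := by simp
    have h3 : Real.exp (∑ i, F a K e (C i) (R i) - k * Real.log 2) ≤ 1 :=
      Real.exp_le_one_iff.2 (by linarith)
    have h4 : (1 : ℝ) ≤ (PS C).card := by exact_mod_cast (PS_nonempty hC).card_pos
    linarith
  -- the induction step
  push Not at hconst
  obtain ⟨i₁, p, hp, c₁, hc₁, c₂, hc₂, hne⟩ := hconst
  have hpf : Fact p.Prime := ⟨hp⟩
  have hpp : Real.exp (c₀ / e) ≤ p := by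
    by_contra hcon
    push Not at hcon
    exact hne (hsm i₁ p hp hcon c₁ hc₁ c₂ hc₂)
  have hmin : ∀ i, ∃ t : ℕ, (∀ c ∈ C i, t ≤ padicValInt p c) ∧ (lo p t (C i)).Nonempty := by
    intro i
    obtain ⟨c₀, hc₀, hmin⟩ := Finset.exists_min_image (C i) (fun c => padicValInt p c) (hC i)
    exact ⟨padicValInt p c₀, hmin, ⟨c₀, mem_lo.2 ⟨hc₀, rfl⟩⟩⟩
  choose t ht hlo using hmin
  set S : Finset (Fin k) := Finset.univ.filter (fun i => (hi p (t i) (C i)).Nonempty) with hS
  have hSne : S.Nonempty := by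
    refine ⟨i₁, Finset.mem_filter.2 ⟨Finset.mem_univ _, ?_⟩⟩
    by_contra hcon
    rw [Finset.not_nonempty_iff_eq_empty] at hcon
    have h1 : ∀ c ∈ C i₁, padicValInt p c = t i₁ := by
      intro c hc
      by_contra h2
      have h3 : c ∈ hi p (t i₁) (C i₁) := mem_hi.2 ⟨hc, h2⟩
      rw [hcon] at h3
      exact absurd h3 (Finset.notMem_empty c)
    exact hne ((h1 c₁ hc₁).trans (h1 c₂ hc₂).symm)
  have hSk : S.card ≤ k := by
    have := Finset.card_le_univ S
    simpa using this
  set x : Fin k → ℝ := fun i => ((hi p (t i) (C i)).card : ℝ) / (C i).card with hx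
  have hcellS : ∀ i, ∃ R' R'' : Finset ℤ, R'.Nonempty ∧ R''.Nonempty ∧ (i ∈ S →
      (-(a * Psi (x i) (1 - x i)) ≤
        (1 - x i) * (F a K e (lo p (t i) (C i)) R' - F a K e (C i) (R i)) +
          x i * (F a K e (hi p (t i) (C i)) R'' - F a K e (C i) (R i))) ∧
        (xg ≤ x i → 0 ≤ (1 - x i) * (F a K e (lo p (t i) (C i)) R' - F a K e (C i) (R i)) +
          x i * (F a K e (hi p (t i) (C i)) R'' - F a K e (C i) (R i)))) ∧
      (i ∉ S → R' = R i) := by
    intro i
    by_cases hiS : i ∈ S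
    · obtain ⟨R', R'', hR', hR'', h1, h2⟩ := hcell e he hea K hKe p hpp (C i) (R i) (hR i) (h0 i) (t i) (ht i)
        (Finset.mem_filter.1 hiS).2 (hlo i) (x i) rfl
      exact ⟨R', R'', hR', hR'', fun _ => ⟨h1, h2⟩, fun h => absurd hiS h⟩
    · exact ⟨R i, R i, hR i, hR i, fun h => absurd h hiS, fun _ => rfl⟩
  choose R' R'' hR' hR'' hstep hstay using hcellS
  set f : Fin k → ℝ := fun i => F a K e (lo p (t i) (C i)) (R' i) - F a K e (C i) (R i) with hf
  set f' : Fin k → ℝ := fun i => F a K e (hi p (t i) (C i)) (R'' i) - F a K e (C i) (R i)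
    with hf'
  have hcardi : ∀ i, ((hi p (t i) (C i)).card : ℝ) + (lo p (t i) (C i)).card = (C i).card :=
    fun i => by exact_mod_cast card_hi_lo p (t i) (C i)
  obtain ⟨i, hiS, hi1⟩ := hnum S hSne hSk x f f' (fun j hj => by
      have h1 : (0 : ℝ) < (hi p (t j) (C j)).card := by
        exact_mod_cast (Finset.mem_filter.1 hj).2.card_pos
      have h2 : (0 : ℝ) < (C j).card := by exact_mod_cast (hC j).card_pos
      show 0 < ((hi p (t j) (C j)).card : ℝ) / (C j).card
      positivity) (fun j _ => by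
      have h1 : (0 : ℝ) < (lo p (t j) (C j)).card := by exact_mod_cast (hlo j).card_pos
      have h2 : (0 : ℝ) < (C j).card := by exact_mod_cast (hC j).card_pos
      have h3 := hcardi j
      show ((hi p (t j) (C j)).card : ℝ) / (C j).card < 1
      rw [div_lt_one h2]
      linarith) (fun j hj => (hstep j hj).1) (fun j hj => (hstep j hj).2)
  have hloC : ∀ j, j ∉ S → lo p (t j) (C j) = C j := by
    intro j hj
    have h1 : hi p (t j) (C j) = ∅ := by
      rw [← Finset.not_nonempty_iff_eq_empty]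
      intro h
      exact hj (Finset.mem_filter.2 ⟨Finset.mem_univ _, h⟩)
    apply Finset.Subset.antisymm (lo_subset _ _ _)
    intro c hc
    refine mem_lo.2 ⟨hc, ?_⟩
    by_contra h2
    have h3 : c ∈ hi p (t j) (C j) := mem_hi.2 ⟨hc, h2⟩
    rw [h1] at h3
    exact absurd h3 (Finset.notMem_empty c)
  -- the two smaller tuples
  have hiC : (hi p (t i) (C i)).Nonempty := (Finset.mem_filter.1 hiS).2
  have hsum1 : ∑ j, (lo p (t j) (C j)).card < n := by
    rw [← hn]
    apply Finset.sum_lt_sum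
    · intro j _
      exact Finset.card_le_card (lo_subset _ _ _)
    · refine ⟨i, Finset.mem_univ _, ?_⟩
      have h1 := card_hi_lo p (t i) (C i)
      have h2 := hiC.card_pos
      omega
  have hsum2 : ∑ j, (Function.update C i (hi p (t i) (C i)) j).card < n := by
    rw [← hn]
    apply Finset.sum_lt_sum
    · intro j _
      by_cases hj : j = i
      · subst hj
        rw [Function.update_self]
        exact Finset.card_le_card (hi_subset _ _ _)
      · rw [Function.update_of_ne hj]
    · refine ⟨i, Finset.mem_univ _, ?_⟩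
      rw [Function.update_self]
      have h1 := card_hi_lo p (t i) (C i)
      have h2 := (hlo i).card_pos
      omega
  have hupd : ∀ j, Function.update C i (hi p (t i) (C i)) j ⊆ C j := by
    intro j
    by_cases hj : j = i
    · subst hj
      rw [Function.update_self]
      exact hi_subset _ _ _
    · rw [Function.update_of_ne hj]
  have ih1 := ih _ hsum1 (fun j => lo p (t j) (C j)) R' rfl hlo hR'
    (fun j c hc => h0 j c (lo_subset _ _ _ hc))
    (fun j q hq hq0 c hc c' hc' => hsm j q hq hq0 c (lo_subset _ _ _ hc) c'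
      (lo_subset _ _ _ hc'))
  have ih2 := ih _ hsum2 (Function.update C i (hi p (t i) (C i))) (Function.update R i (R'' i))
    rfl
    (fun j => by
      by_cases hj : j = i
      · subst hj
        rw [Function.update_self]
        exact hiC
      · rw [Function.update_of_ne hj]
        exact hC j)
    (fun j => by
      by_cases hj : j = i
      · subst hj
        rw [Function.update_self]
        exact hR'' j
      · rw [Function.update_of_ne hj]
        exact hR j)
    (fun j c hc => h0 j c (hupd j hc))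
    (fun j q hq hq0 c hc c' hc' => hsm j q hq hq0 c (hupd j hc) c' (hupd j hc'))
  have hrule := PS_rule p C (fun j => lo p (t j) (C j)) (Function.update C i (hi p (t i) (C i)))
    h0 (fun j => lo_subset _ _ _) hupd t ht (fun j c hc => (mem_lo.1 hc).2) i
    (fun c hc => by
      rw [Function.update_self] at hc
      exact (mem_hi.1 hc).2)
  have hrule' : ((PS fun j => lo p (t j) (C j)).card : ℝ) +
      (PS (Function.update C i (hi p (t i) (C i)))).card ≤ (PS C).card := by
    exact_mod_cast hrule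
  -- the potentials
  have e1 : ∑ j, F a K e (lo p (t j) (C j)) (R' j) =
      ∑ j, F a K e (C j) (R j) + ∑ j ∈ S, f j := by
    have h1 : ∑ j ∈ S, f j = ∑ j, f j := by
      apply Finset.sum_subset (Finset.subset_univ _)
      intro j _ hj
      show F a K e (lo p (t j) (C j)) (R' j) - F a K e (C j) (R j) = 0
      rw [hloC j hj, hstay j hj, sub_self]
    rw [h1, ← Finset.sum_add_distrib]
    refine Finset.sum_congr rfl fun j _ => ?_
    show F a K e (lo p (t j) (C j)) (R' j) = F a K e (C j) (R j) +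
      (F a K e (lo p (t j) (C j)) (R' j) - F a K e (C j) (R j))
    ring
  have e2 : ∑ j, F a K e (Function.update C i (hi p (t i) (C i)) j)
      (Function.update R i (R'' i) j) = ∑ j, F a K e (C j) (R j) + f' i := by
    rw [← Finset.add_sum_erase _ _ (Finset.mem_univ i),
      ← Finset.add_sum_erase _ (fun j => F a K e (C j) (R j)) (Finset.mem_univ i)]
    rw [Function.update_self, Function.update_self]
    have h1 : ∑ j ∈ Finset.univ.erase i, F a K e (Function.update C i (hi p (t i) (C i)) j)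
        (Function.update R i (R'' i) j) =
        ∑ j ∈ Finset.univ.erase i, F a K e (C j) (R j) := by
      refine Finset.sum_congr rfl fun j hj => ?_
      have hj' : j ≠ i := (Finset.mem_erase.1 hj).1
      rw [Function.update_of_ne hj', Function.update_of_ne hj']
    rw [h1]
    show F a K e (hi p (t i) (C i)) (R'' i) +
        ∑ j ∈ Finset.univ.erase i, F a K e (C j) (R j) =
      F a K e (C i) (R i) + ∑ j ∈ Finset.univ.erase i, F a K e (C j) (R j) +
        (F a K e (hi p (t i) (C i)) (R'' i) - F a K e (C i) (R i))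
    ring
  rw [e1] at ih1
  rw [e2] at ih2
  set T : ℝ := ∑ j, F a K e (C j) (R j) - k * Real.log 2 with hT
  have e3 : ∑ j, F a K e (C j) (R j) + ∑ j ∈ S, f j - k * Real.log 2 = T + ∑ j ∈ S, f j := by
    rw [hT]; ring
  have e4 : ∑ j, F a K e (C j) (R j) + f' i - k * Real.log 2 = T + f' i := by
    rw [hT]; ring
  rw [e3, Real.exp_add] at ih1
  rw [e4, Real.exp_add] at ih2
  have h1 : Real.exp T * 1 ≤ Real.exp T * (Real.exp (∑ j ∈ S, f j) + Real.exp (f' i)) :=
    mul_le_mul_of_nonneg_left hi1 (Real.exp_pos _).le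
  linarith

end H633R5.FS
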