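import Mathlib

/-!
The function `Psi u v = (u + v) log (u + v) - u log u - v log v` (conditional entropy of a bit),
its superadditivity, and lower bounds for the information of a binary channel.
-/

set_option autoImplicit false

namespace H633R5.FS

open Finset

/-- `(u + v) log (u + v) - u log u - v log v` -/
noncomputable def Psi (u v : ℝ) : ℝ :=
  u * Real.log ((u + v) / u) + v * Real.log ((u + v) / v)

theorem Psi_zero_left (v : ℝ) : Psi 0 v = 0 := by
  unfold Psi
  rcases eq_or_ne v 0 with h | h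
  · rw [h]; simp
  · rw [zero_add, div_self h, Real.log_one]; ring

theorem Psi_zero_right (u : ℝ) : Psi u 0 = 0 := by
  unfold Psi
  rcases eq_or_ne u 0 with h | h
  · rw [h]; simp
  · rw [add_zero, div_self h, Real.log_one]; ring

theorem Psi_nonneg {u v : ℝ} (hu : 0 ≤ u) (hv : 0 ≤ v) : 0 ≤ Psi u v := by
  unfold Psi
  apply add_nonneg
  · rcases hu.eq_or_lt with h | h
    · rw [← h]; simp
    · refine mul_nonneg hu (Real.log_nonneg ?_)
      rw [le_div_iff₀ h]; linarith
  · rcases hv.eq_or_lt with h | h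
    · rw [← h]; simp
    · refine mul_nonneg hv (Real.log_nonneg ?_)
      rw [le_div_iff₀ h]; linarith

theorem Psi_eq {u v : ℝ} (hu : 0 ≤ u) (hv : 0 ≤ v) :
    Psi u v = (u + v) * Real.log (u + v) - u * Real.log u - v * Real.log v := by
  rcases hu.eq_or_lt with h | h
  · rw [← h, Psi_zero_left]; simp
  rcases hv.eq_or_lt with h' | h'
  · rw [← h', Psi_zero_right]; simp
  unfold Psi
  rw [Real.log_div (by positivity) h.ne', Real.log_div (by positivity) h'.ne']
  ring

theorem Psi_smul {c : ℝ} (u v : ℝ) : Psi (c * u) (c * v) = c * Psi u v := by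
  rcases eq_or_ne c 0 with h | h
  · rw [h]; simp [Psi]
  unfold Psi
  rw [← mul_add, mul_div_mul_left _ _ h, mul_div_mul_left _ _ h]
  ring

theorem log_tangent {u s U S : ℝ} (hu : 0 ≤ u) (hs : 0 < s) (hU : 0 < U) (hS : 0 < S) :
    u * Real.log (s / u) ≤ u * Real.log (S / U) + s * U / S - u := by
  rcases hu.eq_or_lt with h | h
  · rw [← h]
    simp only [zero_mul, zero_add, sub_zero]
    positivity
  · have h1 : Real.log ((s / u) / (S / U)) ≤ (s / u) / (S / U) - 1 :=
      Real.log_le_sub_one_of_pos (by positivity)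
    rw [Real.log_div (by positivity) (by positivity)] at h1
    have h2 := mul_le_mul_of_nonneg_left h1 hu
    have h3 : u * ((s / u) / (S / U) - 1) = s * U / S - u := by
      field_simp
    rw [h3] at h2
    linarith

theorem Psi_tangent {u v U V : ℝ} (hu : 0 ≤ u) (hv : 0 ≤ v) (hU : 0 < U) (hV : 0 < V) :
    Psi u v ≤ u * Real.log ((U + V) / U) + v * Real.log ((U + V) / V) := by
  rcases (add_nonneg hu hv).eq_or_lt with h | h
  · have h1 : u = 0 := by linarith
    have h2 : v = 0 := by linarith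
    rw [h1, h2]; simp [Psi]
  · have h1 := log_tangent hu h hU (add_pos hU hV)
    have h2 := log_tangent hv h hV (add_pos hU hV)
    have h3 : (u + v) * U / (U + V) + (u + v) * V / (U + V) = u + v := by
      field_simp
    unfold Psi
    linarith

theorem Psi_sum {ι : Type*} (s : Finset ι) (u v : ι → ℝ) (hu : ∀ i ∈ s, 0 ≤ u i)
    (hv : ∀ i ∈ s, 0 ≤ v i) :
    ∑ i ∈ s, Psi (u i) (v i) ≤ Psi (∑ i ∈ s, u i) (∑ i ∈ s, v i) := by
  rcases (Finset.sum_nonneg hu).eq_or_lt with h | h
  · have h0 := (Finset.sum_eq_zero_iff_of_nonneg hu).1 h.symm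
    rw [← h, Psi_zero_left]
    apply le_of_eq
    apply Finset.sum_eq_zero
    intro i hi
    rw [h0 i hi, Psi_zero_left]
  rcases (Finset.sum_nonneg hv).eq_or_lt with h' | h'
  · have h0 := (Finset.sum_eq_zero_iff_of_nonneg hv).1 h'.symm
    rw [← h', Psi_zero_right]
    apply le_of_eq
    apply Finset.sum_eq_zero
    intro i hi
    rw [h0 i hi, Psi_zero_right]
  calc ∑ i ∈ s, Psi (u i) (v i) ≤ ∑ i ∈ s,
      (u i * Real.log ((∑ i ∈ s, u i + ∑ i ∈ s, v i) / ∑ i ∈ s, u i) +
        v i * Real.log ((∑ i ∈ s, u i + ∑ i ∈ s, v i) / ∑ i ∈ s, v i)) :=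
        Finset.sum_le_sum fun i hi => Psi_tangent (hu i hi) (hv i hi) h h'
    _ = Psi (∑ i ∈ s, u i) (∑ i ∈ s, v i) := by
        rw [Finset.sum_add_distrib, ← Finset.sum_mul, ← Finset.sum_mul]
        rfl

/-- superadditivity in the projected form -/
theorem Psi_fiber {ι κ : Type*} [Fintype κ] [DecidableEq κ] (s : Finset ι) (f : ι → κ)
    (u v : ι → ℝ) (hu : ∀ i ∈ s, 0 ≤ u i) (hv : ∀ i ∈ s, 0 ≤ v i) :
    ∑ i ∈ s, Psi (u i) (v i) ≤
      ∑ c, Psi (∑ i ∈ s, if f i = c then u i else 0) (∑ i ∈ s, if f i = c then v i else 0) := by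
  have h1 : ∑ i ∈ s, Psi (u i) (v i) = ∑ c, ∑ i ∈ s.filter (fun i => f i = c), Psi (u i) (v i) := by
    rw [← Finset.sum_fiberwise s f]
  rw [h1]
  refine Finset.sum_le_sum fun c _ => ?_
  rw [← Finset.sum_filter, ← Finset.sum_filter]
  exact Psi_sum _ u v (fun i hi => hu i (Finset.mem_filter.1 hi).1)
    (fun i hi => hv i (Finset.mem_filter.1 hi).1)

theorem Psi_le_log_two {x : ℝ} (hx : 0 ≤ x) (hx1 : x ≤ 1) : Psi x (1 - x) ≤ Real.log 2 := by
  have h := Psi_tangent hx (by linarith : 0 ≤ 1 - x) one_pos one_pos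
  have e : (1 + 1 : ℝ) / 1 = 2 := by norm_num
  rw [e] at h
  linarith

theorem Psi_one {x : ℝ} : Psi x (1 - x) = x * Real.log (1 / x) + (1 - x) * Real.log (1 / (1 - x)) := by
  unfold Psi
  rw [show x + (1 - x) = 1 by ring]

/-- `h x ≤ x (1 + log (1/x))` -/
theorem Psi_le {x : ℝ} (hx : 0 < x) (hx1 : x < 1) :
    Psi x (1 - x) ≤ x * (1 + Real.log (1 / x)) := by
  rw [Psi_one]
  have h1 : 0 < 1 - x := by linarith
  have h2 : Real.log (1 / (1 - x)) ≤ 1 / (1 - x) - 1 :=
    Real.log_le_sub_one_of_pos (by positivity)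
  have h3 := mul_le_mul_of_nonneg_left h2 h1.le
  have h4 : (1 - x) * (1 / (1 - x) - 1) = x := by field_simp; ring
  rw [h4] at h3
  linarith

/-- relative entropy of two bits -/
noncomputable def kl (p m : ℝ) : ℝ :=
  p * Real.log (p / m) + (1 - p) * Real.log ((1 - p) / (1 - m))

theorem kl_aux {p m : ℝ} (hp : 0 ≤ p) (hm : 0 ≤ m) (h : 0 < p → 0 < m) :
    2 * p - 2 * (Real.sqrt p * Real.sqrt m) ≤ p * Real.log (p / m) := by
  rcases hp.eq_or_lt with h0 | h0
  · rw [← h0]; simp
  · have hm' := h h0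
    have h1 : Real.log (Real.sqrt m / Real.sqrt p) ≤ Real.sqrt m / Real.sqrt p - 1 :=
      Real.log_le_sub_one_of_pos (div_pos (Real.sqrt_pos.2 hm') (Real.sqrt_pos.2 h0))
    have hsp := Real.sqrt_pos.2 h0
    have hsm := Real.sqrt_pos.2 hm'
    rw [Real.log_div hsm.ne' hsp.ne', Real.log_sqrt hm, Real.log_sqrt hp] at h1
    rw [Real.log_div h0.ne' hm'.ne']
    have h2 : p * (Real.sqrt m / Real.sqrt p) = Real.sqrt p * Real.sqrt m := by
      have : p = Real.sqrt p * Real.sqrt p := (Real.mul_self_sqrt hp).symm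
      calc p * (Real.sqrt m / Real.sqrt p) = (Real.sqrt p * Real.sqrt p) * (Real.sqrt m / Real.sqrt p) := by
            rw [← this]
        _ = Real.sqrt p * Real.sqrt m := by field_simp
    have h3 := mul_le_mul_of_nonneg_left h1 hp
    nlinarith

theorem kl_ge {p m : ℝ} (hp : 0 ≤ p) (hp1 : p ≤ 1) (hm : 0 ≤ m) (hm1 : m ≤ 1)
    (h : 0 < p → 0 < m) (h' : 0 < 1 - p → 0 < 1 - m) : (p - m) ^ 2 / 4 ≤ kl p m := by
  have h1 := kl_aux hp hm h
  have h2 := kl_aux (by linarith : 0 ≤ 1 - p) (by linarith : 0 ≤ 1 - m) h'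
  unfold kl
  set a := Real.sqrt p with ha
  set b := Real.sqrt m with hb
  set c := Real.sqrt (1 - p) with hc
  set d := Real.sqrt (1 - m) with hd
  have ea : a * a = p := Real.mul_self_sqrt hp
  have eb : b * b = m := Real.mul_self_sqrt hm
  have ec : c * c = 1 - p := Real.mul_self_sqrt (by linarith)
  have ed : d * d = 1 - m := Real.mul_self_sqrt (by linarith)
  have ha0 : 0 ≤ a := Real.sqrt_nonneg _
  have hb0 : 0 ≤ b := Real.sqrt_nonneg _
  have ha1 : a ≤ 1 := Real.sqrt_le_one.2 hp1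
  have hb1 : b ≤ 1 := Real.sqrt_le_one.2 hm1
  have h3 : (p - m) ^ 2 / 4 ≤ (a - b) ^ 2 := by
    rw [← ea, ← eb]
    have e1 : (a * a - b * b) ^ 2 = (a - b) ^ 2 * (a + b) ^ 2 := by ring
    rw [e1]
    have h4 : (a + b) ^ 2 ≤ 4 := by nlinarith
    nlinarith [sq_nonneg (a - b), mul_le_mul_of_nonneg_left h4 (sq_nonneg (a - b))]
  have h5 : 0 ≤ (c - d) ^ 2 := sq_nonneg _
  nlinarith

theorem kl_nonneg {p m : ℝ} (hp : 0 ≤ p) (hp1 : p ≤ 1) (hm : 0 ≤ m) (hm1 : m ≤ 1)
    (h : 0 < p → 0 < m) (h' : 0 < 1 - p → 0 < 1 - m) : 0 ≤ kl p m :=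
  le_trans (by positivity) (kl_ge hp hp1 hm hm1 h h')

theorem kl_ge' {q m : ℝ} (hq : 0 ≤ q) (hq1 : q ≤ 1) (hm : 0 ≤ m) (hm1 : m < 1)
    (h : 0 < q → 0 < m) :
    (1 - q) * Real.log (1 / (1 - m)) - Real.log 2 ≤ kl q m := by
  have h2 := Psi_le_log_two hq hq1
  rw [Psi_one] at h2
  unfold kl
  have h3 : q * Real.log q ≤ q * Real.log (q / m) := by
    rcases hq.eq_or_lt with h0 | h0
    · rw [← h0]; simp
    · have hm' := h h0
      refine mul_le_mul_of_nonneg_left ?_ hq
      rw [Real.log_div h0.ne' hm'.ne']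
      have := Real.log_nonpos hm hm1.le
      linarith
  have h4 : (1 - q) * Real.log ((1 - q) / (1 - m)) =
      (1 - q) * Real.log (1 - q) + (1 - q) * Real.log (1 / (1 - m)) := by
    rcases hq1.eq_or_lt with h0 | h0
    · rw [h0]; simp
    · have h5 : 0 < 1 - q := by linarith
      have h6 : 0 < 1 - m := by linarith
      rw [Real.log_div h5.ne' h6.ne', one_div, Real.log_inv]
      ring
  rw [h4]
  rw [one_div, one_div, Real.log_inv, Real.log_inv] at h2
  linarith

/-- the information of a binary channel -/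
theorem chan_eq {x y p q : ℝ} (hx : 0 < x) (hy : 0 < y) (hxy : x + y = 1) (hp : 0 ≤ p)
    (hp1 : p ≤ 1) (hq : 0 ≤ q) (hq1 : q ≤ 1) :
    Psi x y - Psi (x * p) (y * q) - Psi (x * (1 - p)) (y * (1 - q)) =
      x * kl p (x * p + y * q) + y * kl q (x * p + y * q) := by
  have term : ∀ {x p m : ℝ}, 0 < x → 0 ≤ p → (0 < p → 0 < m) →
      x * p * Real.log (m / (x * p)) = -(x * p * Real.log x) - x * (p * Real.log (p / m)) := by
    intro x p m hx hp hm
    rcases hp.eq_or_lt with h | h
    · rw [← h]; simp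
    · have hm' := hm h
      rw [Real.log_div hm'.ne' (by positivity), Real.log_mul hx.ne' h.ne',
        Real.log_div h.ne' hm'.ne']
      ring
  have e1 : 1 - (x * p + y * q) = x * (1 - p) + y * (1 - q) := by
    have : y = 1 - x := by linarith
    rw [this]; ring
  have t1 := term (m := x * p + y * q) hx hp (fun h => by positivity)
  have t2 := term (m := x * p + y * q) hy hq (fun h => by positivity)
  have t3 := term (m := x * (1 - p) + y * (1 - q)) hx (by linarith : 0 ≤ 1 - p)
    (fun h => by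
      have : 0 ≤ y * (1 - q) := mul_nonneg hy.le (by linarith)
      have : 0 < x * (1 - p) := mul_pos hx h
      linarith)
  have t4 := term (m := x * (1 - p) + y * (1 - q)) hy (by linarith : 0 ≤ 1 - q)
    (fun h => by
      have : 0 ≤ x * (1 - p) := mul_nonneg hx.le (by linarith)
      have : 0 < y * (1 - q) := mul_pos hy h
      linarith)
  unfold kl
  rw [e1]
  unfold Psi
  rw [t1, t2, t3, t4, hxy, one_div, one_div, Real.log_inv, Real.log_inv]
  ring

theorem chan_ge_sq {x y p q : ℝ} (hx : 0 < x) (hy : 0 < y) (hxy : x + y = 1) (hp : 0 ≤ p)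
    (hp1 : p ≤ 1) (hq : 0 ≤ q) (hq1 : q ≤ 1) :
    x * y ^ 2 * (p - q) ^ 2 / 4 ≤
      Psi x y - Psi (x * p) (y * q) - Psi (x * (1 - p)) (y * (1 - q)) := by
  rw [chan_eq hx hy hxy hp hp1 hq hq1]
  have e1 : 1 - (x * p + y * q) = x * (1 - p) + y * (1 - q) := by
    have : y = 1 - x := by linarith
    rw [this]; ring
  have a1 : 0 ≤ x * p := by positivity
  have a2 : 0 ≤ y * q := by positivity
  have a3 : 0 ≤ x * (1 - p) := mul_nonneg hx.le (by linarith)
  have a4 : 0 ≤ y * (1 - q) := mul_nonneg hy.le (by linarith)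
  have hm0 : 0 ≤ x * p + y * q := by positivity
  have hm1 : x * p + y * q ≤ 1 := by linarith
  have h1 := kl_ge hp hp1 hm0 hm1
    (fun h => by have : 0 < x * p := by positivity
                 linarith)
    (fun h => by have : 0 < x * (1 - p) := mul_pos hx h
                 linarith)
  have h2 := kl_nonneg hq hq1 hm0 hm1
    (fun h => by have : 0 < y * q := by positivity
                 linarith)
    (fun h => by have : 0 < y * (1 - q) := mul_pos hy h
                 linarith)
  have h3 : x * ((p - (x * p + y * q)) ^ 2 / 4) = x * y ^ 2 * (p - q) ^ 2 / 4 := by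
    have : p - (x * p + y * q) = y * (p - q) := by
      have : x = 1 - y := by linarith
      rw [this]; ring
    rw [this]; ring
  have h4 := mul_le_mul_of_nonneg_left h1 hx.le
  have h5 := mul_nonneg hy.le h2
  linarith

theorem chan_ge_log {x y p q : ℝ} (hx : 0 < x) (hy : 0 < y) (hxy : x + y = 1) (hp : 0 ≤ p)
    (hp1 : p ≤ 1) (hq : 0 ≤ q) (hq1 : q < 1) :
    y * ((1 - q) * Real.log (1 / (1 - p + y)) - Real.log 2) ≤
      Psi x y - Psi (x * p) (y * q) - Psi (x * (1 - p)) (y * (1 - q)) := by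
  rw [chan_eq hx hy hxy hp hp1 hq hq1.le]
  have e1 : 1 - (x * p + y * q) = x * (1 - p) + y * (1 - q) := by
    have : y = 1 - x := by linarith
    rw [this]; ring
  have a1 : 0 ≤ x * p := by positivity
  have a2 : 0 ≤ y * q := by positivity
  have a3 : 0 ≤ x * (1 - p) := mul_nonneg hx.le (by linarith)
  have a4 : 0 < y * (1 - q) := mul_pos hy (by linarith)
  have hm0 : 0 ≤ x * p + y * q := by positivity
  have hm1 : x * p + y * q < 1 := by linarith
  have h1 := kl_nonneg hp hp1 hm0 hm1.le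
    (fun h => by have : 0 < x * p := by positivity
                 linarith)
    (fun _ => by linarith)
  have h2 := kl_ge' hq hq1.le hm0 hm1
    (fun h => by have : 0 < y * q := by positivity
                 linarith)
  have h3 : Real.log (1 / (1 - p + y)) ≤ Real.log (1 / (1 - (x * p + y * q))) := by
    apply Real.log_le_log
    · have : 0 < 1 - p + y := by linarith
      positivity
    · apply one_div_le_one_div_of_le
      · linarith
      · rw [e1]
        have b1 : x * (1 - p) ≤ 1 * (1 - p) :=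
          mul_le_mul_of_nonneg_right (by linarith) (by linarith)
        have b2 : y * (1 - q) ≤ y * 1 := mul_le_mul_of_nonneg_left (by linarith) hy.le
        linarith
  have h4 : (1 - q) * Real.log (1 / (1 - p + y)) ≤
      (1 - q) * Real.log (1 / (1 - (x * p + y * q))) :=
    mul_le_mul_of_nonneg_left h3 (by linarith)
  have h5 := mul_le_mul_of_nonneg_left (le_trans (by linarith) h2 :
    (1 - q) * Real.log (1 / (1 - p + y)) - Real.log 2 ≤ kl q (x * p + y * q)) hy.le
  have h6 := mul_nonneg hx.le h1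
  linarith

end H633R5.FS
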