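import Pool.Agent.H633R5.FS.Cell

/-!
Small primes: if the entropy gain is small then some level of the `p`-adic valuation is large.
-/

set_option autoImplicit false

namespace H633R5.FS

open Finset
open scoped Pointwise

theorem small (p : ℕ) [Fact p.Prime] (κ L m : ℝ) (hκ : 0 < κ) (hκ1 : κ ≤ 1)
    (hL : L = Real.log (1 / κ) / 2 - Real.log 2) (hL0 : 0 < L) :
    ∀ n : ℕ, ∀ C R : Finset ℤ, C.card = n → C.Nonempty → R.Nonempty → (∀ c ∈ C, c ≠ 0) →
      (∀ v, ((C.filter fun c => padicValInt p c = v).card : ℝ) ≤ m) →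
      (C.card : ℝ) * (1 - g C R / L) ≤ 2 * m / κ * (1 + Real.log R.card) := by
  intro n
  induction n using Nat.strong_induction_on with
  | _ n ih =>
  intro C R hn hC hR h0 hm
  have cC : (0 : ℝ) < C.card := by exact_mod_cast hC.card_pos
  have cR : (1 : ℝ) ≤ R.card := by exact_mod_cast hR.card_pos
  have hlogR : 0 ≤ Real.log R.card := Real.log_nonneg cR
  have hg0 := g_nonneg C R hC hR
  have hgL : 0 ≤ g C R / L := div_nonneg hg0 hL0.le
  obtain ⟨c₀, hc₀, hmin⟩ := Finset.exists_min_image C (fun c => padicValInt p c) hC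
  set t := padicValInt p c₀ with ht
  have hlo : (lo p t C).Nonempty := ⟨c₀, mem_lo.2 ⟨hc₀, rfl⟩⟩
  have hloe : lo p t C = C.filter (fun c => padicValInt p c = t) := by
    ext c
    rw [mem_lo, Finset.mem_filter]
  have hlom : ((lo p t C).card : ℝ) ≤ m := by rw [hloe]; exact hm t
  have clo : (0 : ℝ) < (lo p t C).card := by exact_mod_cast hlo.card_pos
  have hm0 : 0 < m := by linarith
  have hbig : m ≤ 2 * m / κ := by
    rw [le_div_iff₀ hκ]; nlinarith
  have h2mκ : 0 < 2 * m / κ := by positivity
  by_cases hCm : (C.card : ℝ) ≤ 2 * m / κ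
  · have h1 : (C.card : ℝ) * (1 - g C R / L) ≤ C.card * 1 :=
      mul_le_mul_of_nonneg_left (by linarith) cC.le
    have h2 : 2 * m / κ * 1 ≤ 2 * m / κ * (1 + Real.log R.card) :=
      mul_le_mul_of_nonneg_left (by linarith) h2mκ.le
    linarith
  push Not at hCm
  have hcards : ((hi p t C).card : ℝ) + (lo p t C).card = C.card := by
    exact_mod_cast card_hi_lo p t C
  have hhi : (hi p t C).Nonempty := by
    rw [← Finset.card_pos]
    by_contra hcon
    have h1 : (hi p t C).card = 0 := by omega
    rw [h1] at hcards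
    push_cast at hcards
    linarith
  have chi : (0 : ℝ) < (hi p t C).card := by exact_mod_cast hhi.card_pos
  obtain ⟨x, hx⟩ : ∃ x : ℝ, x = ((hi p t C).card : ℝ) / C.card := ⟨_, rfl⟩
  obtain ⟨R', R'', w, ξ, z₀, hsub, hR', hsub', hR'', hg, hg', hcard, hD, hI⟩ :=
    step p C R hR h0 t hmin hhi hlo x hx
  have cR' : (1 : ℝ) ≤ R'.card := by exact_mod_cast hR'.card_pos
  have cR'' : (1 : ℝ) ≤ R''.card := by exact_mod_cast hR''.card_pos
  have hx0 : 0 < x := by rw [hx]; positivity
  have hx' : 1 - x = ((lo p t C).card : ℝ) / C.card := by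
    rw [hx]; field_simp; linarith
  have hx1 : 0 < 1 - x := by rw [hx']; positivity
  have hxC : x * C.card = (hi p t C).card := by rw [hx]; field_simp
  have hxC' : (1 - x) * C.card = (lo p t C).card := by rw [hx']; field_simp
  have hInf := Inf_nonneg hD hx0.le (by linarith)
  have hw := hD.pos
  have hy : 1 - x < κ / 2 := by
    rw [hx', div_lt_iff₀ cC]
    have : m * 2 / κ < C.card := by
      have e : m * 2 / κ = 2 * m / κ := by ring
      rw [e]; exact hCm
    rw [div_lt_iff₀ hκ] at this
    linarith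
  -- induction applies to the high part
  have hlt : (hi p t C).card < n := by
    have := card_hi_lo p t C
    have h1 := hlo.card_pos
    omega
  have hm' : ∀ v, (((hi p t C).filter fun c => padicValInt p c = v).card : ℝ) ≤ m := by
    intro v
    refine le_trans ?_ (hm v)
    exact_mod_cast Finset.card_le_card (Finset.filter_subset_filter _ (hi_subset p t C))
  have h0' : ∀ c ∈ hi p t C, c ≠ 0 := fun c hc => h0 c (hi_subset p t C hc)
  have hgmono : (C.card : ℝ) * (1 - g C R / L) ≤ C.card * (1 - g C R' / L) := by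
    refine mul_le_mul_of_nonneg_left ?_ cC.le
    have : g C R' / L ≤ g C R / L := div_le_div_of_nonneg_right hg hL0.le
    linarith
  refine hgmono.trans ?_
  have hlogR' : Real.log R'.card ≤ Real.log R.card :=
    Real.log_le_log (by linarith) (by exact_mod_cast Finset.card_le_card hsub)
  have hlogR'0 : 0 ≤ Real.log R'.card := Real.log_nonneg cR'
  have hglo := g_nonneg (lo p t C) R' hlo hR'
  by_cases hs : κ / 2 ≤ 1 - w z₀
  · have h1 := ih _ hlt (hi p t C) R'' rfl hhi hR'' h0' hm'
    have h2 : Real.log R''.card ≤ Real.log R'.card - κ / 2 := by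
      have h3 : Real.log R''.card ≤ Real.log (w z₀ * R'.card) :=
        Real.log_le_log (by linarith) hcard
      rw [Real.log_mul hw.ne' (by linarith)] at h3
      have h4 := Real.log_le_sub_one_of_pos hw
      linarith
    have h3 : x * g (hi p t C) R'' ≤ g C R' := by
      have h4 : x * g (hi p t C) R'' ≤ x * g (hi p t C) R' :=
        mul_le_mul_of_nonneg_left hg' hx0.le
      have h5 : 0 ≤ (1 - x) * g (lo p t C) R' := mul_nonneg hx1.le hglo
      linarith
    have h4 : (C.card : ℝ) * (1 - g C R' / L) ≤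
        (lo p t C).card + (hi p t C).card * (1 - g (hi p t C) R'' / L) := by
      have h5 : (C.card : ℝ) * (x * g (hi p t C) R'' / L) ≤ C.card * (g C R' / L) :=
        mul_le_mul_of_nonneg_left (div_le_div_of_nonneg_right h3 hL0.le) cC.le
      have h6 : (C.card : ℝ) * (x * g (hi p t C) R'' / L) =
          (hi p t C).card * (g (hi p t C) R'' / L) := by
        rw [← hxC]; ring
      linarith
    have h5 : 2 * m / κ * (1 + Real.log R''.card) ≤
        2 * m / κ * (1 + (Real.log R'.card - κ / 2)) :=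
      mul_le_mul_of_nonneg_left (by linarith) h2mκ.le
    have h6 : 2 * m / κ * (1 + (Real.log R'.card - κ / 2)) =
        2 * m / κ * (1 + Real.log R'.card) - m := by
      field_simp
      ring
    have h7 : 2 * m / κ * (1 + Real.log R'.card) ≤ 2 * m / κ * (1 + Real.log R.card) :=
      mul_le_mul_of_nonneg_left (by linarith) h2mκ.le
    linarith
  · push Not at hs
    have h1 := ih _ hlt (hi p t C) R' rfl hhi hR' h0' hm'
    have hsy : 1 - w z₀ + (1 - x) ≤ κ := by linarith
    have h2 := Inf_ge_log hD hx0 (by linarith) (by linarith)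
    have hL1 : L ≤ w z₀ * Real.log (1 / (1 - w z₀ + (1 - x))) - Real.log 2 := by
      have h3 : Real.log (1 / κ) ≤ Real.log (1 / (1 - w z₀ + (1 - x))) := by
        apply Real.log_le_log (by positivity)
        apply one_div_le_one_div_of_le _ hsy
        have := hD.le_one z₀
        linarith
      have h4 : 0 ≤ Real.log (1 / κ) := by
        apply Real.log_nonneg
        rw [le_div_iff₀ hκ]; linarith
      have h5 : 1 / 2 ≤ w z₀ := by linarith
      have h6 := mul_le_mul h5 h3 h4 hw.le
      rw [hL]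
      linarith
    have h3 : x * g (hi p t C) R' + (1 - x) * L ≤ g C R' := by
      have h4 := mul_le_mul_of_nonneg_left hL1 hx1.le
      have h5 : 0 ≤ (1 - x) * g (lo p t C) R' := mul_nonneg hx1.le hglo
      linarith
    have h4 : (C.card : ℝ) * (1 - g C R' / L) ≤
        (hi p t C).card * (1 - g (hi p t C) R' / L) := by
      have h5 : (C.card : ℝ) * ((x * g (hi p t C) R' + (1 - x) * L) / L) ≤
          C.card * (g C R' / L) :=
        mul_le_mul_of_nonneg_left (div_le_div_of_nonneg_right h3 hL0.le) cC.le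
      have h6 : (C.card : ℝ) * ((x * g (hi p t C) R' + (1 - x) * L) / L) =
          (hi p t C).card * (g (hi p t C) R' / L) + (lo p t C).card := by
        rw [← hxC, ← hxC']; field_simp
      linarith
    have h7 : 2 * m / κ * (1 + Real.log R'.card) ≤ 2 * m / κ * (1 + Real.log R.card) :=
      mul_le_mul_of_nonneg_left (by linarith) h2mκ.le
    linarith

/-- a large level of the `p`-adic valuation -/
theorem level (p : ℕ) [Fact p.Prime] (κ L : ℝ) (hκ : 0 < κ) (hκ1 : κ ≤ 1)
    (hL : L = Real.log (1 / κ) / 2 - Real.log 2) (hL0 : 0 < L) (C R : Finset ℤ)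
    (hC : C.Nonempty) (hR : R.Nonempty) (h0 : ∀ c ∈ C, c ≠ 0) (hg : g C R ≤ L / 2) :
    ∃ C' ⊆ C, C'.Nonempty ∧ (∀ c ∈ C', ∀ c' ∈ C', padicValInt p c = padicValInt p c') ∧
      (C.card : ℝ) ≤ 4 / κ * (1 + Real.log R.card) * C'.card := by
  obtain ⟨c₀, hc₀, hmax⟩ := Finset.exists_max_image C
    (fun c => (C.filter fun c' => padicValInt p c' = padicValInt p c).card) hC
  set C' := C.filter (fun c' => padicValInt p c' = padicValInt p c₀) with hC'
  have hC'ne : C'.Nonempty := ⟨c₀, Finset.mem_filter.2 ⟨hc₀, rfl⟩⟩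
  refine ⟨C', Finset.filter_subset _ _, hC'ne, ?_, ?_⟩
  · intro c hc c' hc'
    rw [(Finset.mem_filter.1 hc).2, (Finset.mem_filter.1 hc').2]
  have hm : ∀ v, ((C.filter fun c => padicValInt p c = v).card : ℝ) ≤ (C'.card : ℝ) := by
    intro v
    by_cases hv : (C.filter fun c => padicValInt p c = v).Nonempty
    · obtain ⟨c, hc⟩ := hv
      obtain ⟨hcC, hcv⟩ := Finset.mem_filter.1 hc
      have := hmax c hcC
      rw [← hcv]
      exact_mod_cast this
    · rw [Finset.not_nonempty_iff_eq_empty] at hv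
      rw [hv]
      simp
  have h1 := small p κ L C'.card hκ hκ1 hL hL0 C.card C R rfl hC hR h0 hm
  have cC : (0 : ℝ) < C.card := by exact_mod_cast hC.card_pos
  have h2 : (C.card : ℝ) * (1 / 2) ≤ C.card * (1 - g C R / L) := by
    refine mul_le_mul_of_nonneg_left ?_ cC.le
    have : g C R / L ≤ 1 / 2 := by
      rw [div_le_iff₀ hL0]; linarith
    linarith
  have h3 : 4 / κ * (1 + Real.log R.card) * C'.card =
      2 * (2 * C'.card / κ * (1 + Real.log R.card)) := by ring
  rw [h3]
  linarith

/-- constant valuations at the primes of a finite set -/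
theorem levels (Q : Finset ℕ) (κ L : ℝ) (hκ : 0 < κ) (hκ1 : κ ≤ 1)
    (hL : L = Real.log (1 / κ) / 2 - Real.log 2) (hL0 : 0 < L) (A R : Finset ℤ)
    (hA : A.Nonempty) (hR : R.Nonempty) (h0 : ∀ c ∈ A, c ≠ 0)
    (hg : Real.log (((A + R).card : ℝ) / R.card) ≤ L / 2) (hQ : ∀ q ∈ Q, q.Prime) :
    ∃ C ⊆ A, C.Nonempty ∧ (∀ q ∈ Q, ∀ c ∈ C, ∀ c' ∈ C, padicValInt q c = padicValInt q c') ∧
      (A.card : ℝ) ≤ (4 / κ * (1 + Real.log R.card)) ^ Q.card * C.card := by
  classical
  have cR : (1 : ℝ) ≤ R.card := by exact_mod_cast hR.card_pos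
  have hlogR : 0 ≤ Real.log R.card := Real.log_nonneg cR
  induction Q using Finset.induction_on with
  | empty =>
    exact ⟨A, Finset.Subset.refl _, hA, fun q hq => absurd hq (Finset.notMem_empty q), by simp⟩
  | insert q Q hq ih =>
    obtain ⟨C, hCA, hC, hconst, hcard⟩ := ih (fun q' hq' => hQ q' (Finset.mem_insert_of_mem hq'))
    have : Fact q.Prime := ⟨hQ q (Finset.mem_insert_self _ _)⟩
    have hgC : g C R ≤ L / 2 := by
      refine le_trans (g_le C R hC hR) (le_trans ?_ hg)
      apply Real.log_le_log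
      · have : (0 : ℝ) < (C + R).card := by exact_mod_cast (hC.add hR).card_pos
        positivity
      · apply div_le_div_of_nonneg_right _ (by positivity)
        exact_mod_cast Finset.card_le_card (Finset.add_subset_add_right hCA)
    obtain ⟨C', hC'C, hC', hconst', hcard'⟩ := level q κ L hκ hκ1 hL hL0 C R hC hR
      (fun c hc => h0 c (hCA hc)) hgC
    refine ⟨C', hC'C.trans hCA, hC', ?_, ?_⟩
    · intro q' hq' c hc c' hc'
      rcases Finset.mem_insert.1 hq' with h | h
      · rw [h]; exact hconst' c hc c' hc'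
      · exact hconst q' h c (hC'C hc) c' (hC'C hc')
    · rw [Finset.card_insert_of_notMem hq]
      have hD : 0 ≤ 4 / κ * (1 + Real.log R.card) := by positivity
      calc (A.card : ℝ) ≤ (4 / κ * (1 + Real.log R.card)) ^ Q.card * C.card := hcard
        _ ≤ (4 / κ * (1 + Real.log R.card)) ^ Q.card *
            (4 / κ * (1 + Real.log R.card) * C'.card) :=
            mul_le_mul_of_nonneg_left hcard' (pow_nonneg hD _)
        _ = (4 / κ * (1 + Real.log R.card)) ^ (Q.card + 1) * C'.card := by ring

end H633R5.FS
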