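import Pool.Agent.H633R5.FS.Key

/-!
The entropy gain `g C R` of a sumset `C + R`, its decomposition along residue classes of `R`, and
its behaviour when `C` is split into two parts.
-/

set_option autoImplicit false

namespace H633R5.FS

open Finset
open scoped Pointwise

/-- the number of representations `z = c + r` -/
noncomputable def N (C R : Finset ℤ) (z : ℤ) : ℝ := ∑ c ∈ C, if z - c ∈ R then (1 : ℝ) else 0

theorem N_nonneg (C R : Finset ℤ) (z : ℤ) : 0 ≤ N C R z :=
  Finset.sum_nonneg fun c _ => by split_ifs <;> norm_num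

theorem N_le (C R : Finset ℤ) (z : ℤ) : N C R z ≤ C.card := by
  unfold N
  calc ∑ c ∈ C, (if z - c ∈ R then (1 : ℝ) else 0) ≤ ∑ _c ∈ C, (1 : ℝ) :=
        Finset.sum_le_sum fun c _ => by split_ifs <;> norm_num
    _ = C.card := by simp

theorem N_ge {C R : Finset ℤ} {c r : ℤ} (hc : c ∈ C) (hr : r ∈ R) : 1 ≤ N C R (c + r) := by
  unfold N
  have h := Finset.single_le_sum (f := fun c' => if c + r - c' ∈ R then (1 : ℝ) else 0)
    (fun c' _ => by show (0 : ℝ) ≤ if c + r - c' ∈ R then (1 : ℝ) else 0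
                    split_ifs <;> norm_num) hc
  have e : (if c + r - c ∈ R then (1 : ℝ) else 0) = 1 := by
    rw [if_pos]
    rw [add_sub_cancel_left]; exact hr
  have h' : (if c + r - c ∈ R then (1 : ℝ) else 0) ≤
      ∑ c' ∈ C, if c + r - c' ∈ R then (1 : ℝ) else 0 := h
  rw [e] at h'
  exact h'

theorem sum_N_mul (C R Z : Finset ℤ) (hZ : ∀ c ∈ C, ∀ r ∈ R, c + r ∈ Z) (φ : ℤ → ℝ) :
    ∑ z ∈ Z, N C R z * φ z = ∑ c ∈ C, ∑ r ∈ R, φ (c + r) := by
  unfold N
  simp only [Finset.sum_mul]
  rw [Finset.sum_comm]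
  refine Finset.sum_congr rfl fun c hc => ?_
  have h1 : ∑ r ∈ R, φ (c + r) = ∑ z ∈ R.image (fun r => c + r), φ z := by
    rw [Finset.sum_image]
    intro a _ b _ hab
    exact add_left_cancel hab
  rw [h1]
  have h2 : R.image (fun r => c + r) ⊆ Z := by
    intro z hz
    obtain ⟨r, hr, rfl⟩ := Finset.mem_image.1 hz
    exact hZ c hc r hr
  rw [← Finset.sum_subset h2]
  · refine Finset.sum_congr rfl fun z hz => ?_
    obtain ⟨r, hr, rfl⟩ := Finset.mem_image.1 hz
    rw [if_pos (by rw [add_sub_cancel_left]; exact hr), one_mul]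
  · intro z _ hz
    rw [if_neg, zero_mul]
    intro h
    exact hz (Finset.mem_image.2 ⟨z - c, h, by ring⟩)

/-- `∑_z N(z) log N(z)` -/
noncomputable def Lz (C R : Finset ℤ) : ℝ := ∑ c ∈ C, ∑ r ∈ R, Real.log (N C R (c + r))

theorem Lz_eq (C R Z : Finset ℤ) (hZ : ∀ c ∈ C, ∀ r ∈ R, c + r ∈ Z) :
    ∑ z ∈ Z, N C R z * Real.log (N C R z) = Lz C R :=
  sum_N_mul C R Z hZ _

/-- the entropy gain -/
noncomputable def g (C R : Finset ℤ) : ℝ :=
  Real.log C.card - Lz C R / ((C.card : ℝ) * R.card)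

theorem Lz_le (C R : Finset ℤ) :
    Lz C R ≤ (C.card : ℝ) * R.card * Real.log C.card := by
  unfold Lz
  calc ∑ c ∈ C, ∑ r ∈ R, Real.log (N C R (c + r))
      ≤ ∑ c ∈ C, ∑ r ∈ R, Real.log C.card := by
        refine Finset.sum_le_sum fun c hc => Finset.sum_le_sum fun r hr => ?_
        exact Real.log_le_log (by linarith [N_ge hc hr]) (N_le _ _ _)
    _ = (C.card : ℝ) * R.card * Real.log C.card := by
        rw [Finset.sum_const, Finset.sum_const, nsmul_eq_mul, nsmul_eq_mul]; ring

theorem g_nonneg (C R : Finset ℤ) (hC : C.Nonempty) (hR : R.Nonempty) : 0 ≤ g C R := by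
  unfold g
  have h1 : (0 : ℝ) < C.card := by exact_mod_cast hC.card_pos
  have h2 : (0 : ℝ) < R.card := by exact_mod_cast hR.card_pos
  have h3 : Lz C R / ((C.card : ℝ) * R.card) ≤ Real.log C.card := by
    rw [div_le_iff₀ (by positivity)]
    linarith [Lz_le C R]
  linarith

theorem g_le (C R : Finset ℤ) (hC : C.Nonempty) (hR : R.Nonempty) :
    g C R ≤ Real.log (((C + R).card : ℝ) / R.card) := by
  have h1 : (0 : ℝ) < C.card := by exact_mod_cast hC.card_pos
  have h2 : (0 : ℝ) < R.card := by exact_mod_cast hR.card_pos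
  have h3 : (0 : ℝ) < (C + R).card := by exact_mod_cast (hC.add hR).card_pos
  set M : ℝ := C.card * R.card / (C + R).card with hM
  have hM0 : 0 < M := by positivity
  have h4 : ∀ c ∈ C, ∀ r ∈ R, Real.log M + 1 - M / N C R (c + r) ≤ Real.log (N C R (c + r)) := by
    intro c hc r hr
    have hN : 0 < N C R (c + r) := by linarith [N_ge hc hr]
    have h5 : Real.log (M / N C R (c + r)) ≤ M / N C R (c + r) - 1 :=
      Real.log_le_sub_one_of_pos (by positivity)
    rw [Real.log_div hM0.ne' hN.ne'] at h5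
    linarith
  have h5 : ∑ c ∈ C, ∑ r ∈ R, M / N C R (c + r) ≤ M * (C + R).card := by
    rw [← sum_N_mul C R (C + R) (fun c hc r hr => Finset.add_mem_add hc hr)
      (fun z => M / N C R z)]
    calc ∑ z ∈ C + R, N C R z * (M / N C R z) ≤ ∑ z ∈ C + R, M := by
          refine Finset.sum_le_sum fun z hz => ?_
          obtain ⟨c, hc, r, hr, rfl⟩ := Finset.mem_add.1 hz
          have hN : 0 < N C R (c + r) := by linarith [N_ge hc hr]
          apply le_of_eq
          field_simp
      _ = M * (C + R).card := by rw [Finset.sum_const, nsmul_eq_mul]; ring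
  have h6 : (C.card : ℝ) * R.card * Real.log M ≤ Lz C R := by
    unfold Lz
    have h7 : ∑ c ∈ C, ∑ r ∈ R, (Real.log M + 1 - M / N C R (c + r)) ≤
        ∑ c ∈ C, ∑ r ∈ R, Real.log (N C R (c + r)) :=
      Finset.sum_le_sum fun c hc => Finset.sum_le_sum fun r hr => h4 c hc r hr
    simp only [Finset.sum_sub_distrib, Finset.sum_const, nsmul_eq_mul] at h7
    have h8 : M * (C + R).card = C.card * R.card := by
      rw [hM]; field_simp
    rw [h8] at h5
    linarith
  unfold g
  have h7 : Real.log M ≤ Lz C R / ((C.card : ℝ) * R.card) := by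
    rw [le_div_iff₀ (by positivity)]
    linarith
  have h8 : Real.log M = Real.log C.card - Real.log (((C + R).card : ℝ) / R.card) := by
    rw [hM, Real.log_div (by positivity) h3.ne', Real.log_mul h1.ne' h2.ne',
      Real.log_div h3.ne' h2.ne']
    ring
  linarith

/-- residue classes of the reference set -/
theorem Lz_classes {β : Type*} [DecidableEq β] (C R : Finset ℤ) (ρ ρ' : ℤ → β)
    (h : ∀ c ∈ C, ∀ r ∈ R, ρ (c + r) = ρ' r) :
    Lz C R = ∑ κ ∈ R.image ρ', Lz C (R.filter fun r => ρ' r = κ) := by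
  unfold Lz
  rw [Finset.sum_comm]
  rw [← Finset.sum_fiberwise_of_maps_to (s := R) (t := R.image ρ') (g := ρ')
    (fun r hr => Finset.mem_image_of_mem _ hr)]
  refine Finset.sum_congr rfl fun κ _ => ?_
  rw [Finset.sum_comm]
  refine Finset.sum_congr rfl fun c hc => Finset.sum_congr rfl fun r hr => ?_
  obtain ⟨hr1, hr2⟩ := Finset.mem_filter.1 hr
  congr 1
  unfold N
  refine Finset.sum_congr rfl fun c' hc' => ?_
  congr 1
  apply propext
  rw [Finset.mem_filter]
  constructor
  · intro h1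
    refine ⟨h1, ?_⟩
    rw [← hr2, ← h c' hc' _ h1, ← h c hc r hr1]
    congr 1
    ring
  · intro h1
    exact h1.1

theorem card_classes {β : Type*} [DecidableEq β] (R : Finset ℤ) (ρ' : ℤ → β) :
    (R.card : ℝ) = ∑ κ ∈ R.image ρ', ((R.filter fun r => ρ' r = κ).card : ℝ) := by
  rw [Finset.card_eq_sum_card_image ρ' R]
  push_cast
  rfl

theorem exists_class {β : Type*} [DecidableEq β] (C R : Finset ℤ) (hC : C.Nonempty)
    (hR : R.Nonempty) (ρ ρ' : ℤ → β) (h : ∀ c ∈ C, ∀ r ∈ R, ρ (c + r) = ρ' r) :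
    ∃ κ ∈ R.image ρ', g C (R.filter fun r => ρ' r = κ) ≤ g C R := by
  by_contra hcon
  push Not at hcon
  have h1 : (0 : ℝ) < C.card := by exact_mod_cast hC.card_pos
  have h2 : (0 : ℝ) < R.card := by exact_mod_cast hR.card_pos
  have key : ∀ S : Finset ℤ, S.Nonempty → (S.card : ℝ) * g C S =
      S.card * Real.log C.card - Lz C S / C.card := by
    intro S hS
    have h3 : (0 : ℝ) < S.card := by exact_mod_cast hS.card_pos
    unfold g
    field_simp
  have hne : ∀ κ ∈ R.image ρ', (R.filter fun r => ρ' r = κ).Nonempty := by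
    intro κ hκ
    obtain ⟨r, hr, rfl⟩ := Finset.mem_image.1 hκ
    exact ⟨r, Finset.mem_filter.2 ⟨hr, rfl⟩⟩
  have h4 : (R.card : ℝ) * g C R <
      ∑ κ ∈ R.image ρ', ((R.filter fun r => ρ' r = κ).card : ℝ) *
        g C (R.filter fun r => ρ' r = κ) := by
    rw [card_classes R ρ', Finset.sum_mul]
    refine Finset.sum_lt_sum_of_nonempty (hR.image _) fun κ hκ => ?_
    have h3 : (0 : ℝ) < (R.filter fun r => ρ' r = κ).card := by
      exact_mod_cast (hne κ hκ).card_pos
    exact mul_lt_mul_of_pos_left (hcon κ hκ) h3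
  rw [key R hR, Finset.sum_congr rfl fun κ hκ => key _ (hne κ hκ), Finset.sum_sub_distrib,
    ← Finset.sum_mul, ← card_classes, ← Finset.sum_div, ← Lz_classes C R ρ ρ' h] at h4
  exact lt_irrefl _ h4

theorem N_split (C R : Finset ℤ) (P : ℤ → Prop) [DecidablePred P] (z : ℤ) :
    N C R z = N (C.filter P) R z + N (C.filter fun c => ¬ P c) R z := by
  unfold N
  rw [Finset.sum_filter_add_sum_filter_not]

theorem Lz_split (C R : Finset ℤ) (P : ℤ → Prop) [DecidablePred P] :
    Lz C R = Lz (C.filter P) R + Lz (C.filter fun c => ¬ P c) R +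
      ∑ z ∈ C + R, Psi (N (C.filter P) R z) (N (C.filter fun c => ¬ P c) R z) := by
  rw [← Lz_eq C R (C + R) (fun c hc r hr => Finset.add_mem_add hc hr),
    ← Lz_eq (C.filter P) R (C + R)
      (fun c hc r hr => Finset.add_mem_add (Finset.mem_filter.1 hc).1 hr),
    ← Lz_eq (C.filter fun c => ¬ P c) R (C + R)
      (fun c hc r hr => Finset.add_mem_add (Finset.mem_filter.1 hc).1 hr),
    ← Finset.sum_add_distrib, ← Finset.sum_add_distrib]
  refine Finset.sum_congr rfl fun z _ => ?_
  rw [Psi_eq (N_nonneg _ _ _) (N_nonneg _ _ _), ← N_split C R P z]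
  ring

section split

variable {p : ℕ} [Fact p.Prime]

/-- the distribution of `R` -/
noncomputable def dw (R : Finset ℤ) (ψ : ℤ → ZMod p) (b : ZMod p) : ℝ :=
  ((R.filter fun r => ψ r = b).card : ℝ) / R.card

theorem dw_nonneg (R : Finset ℤ) (ψ : ℤ → ZMod p) (b : ZMod p) : 0 ≤ dw R ψ b := by
  unfold dw; positivity

theorem dw_sum (R : Finset ℤ) (hR : R.Nonempty) (ψ : ℤ → ZMod p) : ∑ b, dw R ψ b = 1 := by
  have h2 : (0 : ℝ) < R.card := by exact_mod_cast hR.card_pos
  unfold dw
  rw [← Finset.sum_div, div_eq_one_iff_eq h2.ne']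
  have := Finset.card_eq_sum_card_fiberwise (f := ψ) (s := R) (t := Finset.univ)
    (fun _ _ => Finset.mem_coe.2 (Finset.mem_univ _))
  rw [this]
  push_cast
  rfl

theorem card_mul_dw (R : Finset ℤ) (hR : R.Nonempty) (ψ : ℤ → ZMod p) (b : ZMod p) :
    (R.card : ℝ) * dw R ψ b = (R.filter fun r => ψ r = b).card := by
  have h2 : (0 : ℝ) < R.card := by exact_mod_cast hR.card_pos
  unfold dw
  field_simp

theorem sum_indicator (D R Z : Finset ℤ) (hZ : ∀ c ∈ D, ∀ r ∈ R, c + r ∈ Z)
    (ψC ψR φ : ℤ → ZMod p) (h : ∀ c ∈ D, ∀ r ∈ R, φ (c + r) = ψC c + ψR r) (b : ZMod p) :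
    ∑ z ∈ Z, (if φ z = b then N D R z else 0) =
      ∑ c ∈ D, ((R.filter fun r => ψR r = b - ψC c).card : ℝ) := by
  have h1 : ∀ z ∈ Z, (if φ z = b then N D R z else 0) =
      N D R z * (if φ z = b then 1 else 0) := fun z _ => by split_ifs <;> simp
  rw [Finset.sum_congr rfl h1, sum_N_mul D R Z hZ]
  refine Finset.sum_congr rfl fun c hc => ?_
  rw [Finset.card_filter]
  push_cast
  refine Finset.sum_congr rfl fun r hr => ?_
  rw [h c hc r hr]
  congr 1
  apply propext
  constructor
  · intro h1; rw [← h1]; ring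
  · intro h1; rw [h1]; ring

theorem g_split (C R : Finset ℤ) (hR : R.Nonempty) (P : ℤ → Prop)
    [DecidablePred P] (h0 : (C.filter P).Nonempty) (h1 : (C.filter fun c => ¬ P c).Nonempty)
    (ψC ψR φ : ℤ → ZMod p) (h : ∀ c ∈ C, ∀ r ∈ R, φ (c + r) = ψC c + ψR r)
    (hP : ∀ c ∈ C, P c → ψC c = 0) (x : ℝ) (hx : x = ((C.filter P).card : ℝ) / C.card) :
    Inf x (dw R ψR) (dw (C.filter fun c => ¬ P c) ψC) ≤
      g C R - x * g (C.filter P) R - (1 - x) * g (C.filter fun c => ¬ P c) R := by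
  have hcard : ((C.filter P).card : ℝ) + (C.filter fun c => ¬ P c).card = C.card := by
    exact_mod_cast Finset.card_filter_add_card_filter_not (s := C) P
  set C0 := C.filter P with hC0
  set C1 := C.filter (fun c => ¬ P c) with hC1
  have c0 : (0 : ℝ) < C0.card := by exact_mod_cast h0.card_pos
  have c1 : (0 : ℝ) < C1.card := by exact_mod_cast h1.card_pos
  have cC : (0 : ℝ) < C.card := by linarith
  have cR : (0 : ℝ) < R.card := by exact_mod_cast hR.card_pos
  have hx' : 1 - x = (C1.card : ℝ) / C.card := by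
    rw [hx]
    field_simp
    linarith
  -- the identity
  have id1 : g C R - x * g C0 R - (1 - x) * g C1 R = Psi x (1 - x) -
      (∑ z ∈ C + R, Psi (N C0 R z) (N C1 R z)) / (C.card * R.card) := by
    have e0 : x * g C0 R = x * Real.log C0.card - Lz C0 R / (C.card * R.card) := by
      unfold g; rw [hx]; field_simp
    have e1 : (1 - x) * g C1 R = (1 - x) * Real.log C1.card - Lz C1 R / (C.card * R.card) := by
      unfold g; rw [hx']; field_simp
    have e2 : Psi x (1 - x) = Real.log C.card - x * Real.log C0.card -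
        (1 - x) * Real.log C1.card := by
      rw [Psi_one]
      have f0 : Real.log (1 / x) = Real.log C.card - Real.log C0.card := by
        rw [hx, one_div, Real.log_inv, Real.log_div c0.ne' cC.ne']; ring
      have f1 : Real.log (1 / (1 - x)) = Real.log C.card - Real.log C1.card := by
        rw [hx', one_div, Real.log_inv, Real.log_div c1.ne' cC.ne']; ring
      rw [f0, f1]
      ring
    rw [e0, e1, e2]
    unfold g
    rw [Lz_split C R P, ← hC0, ← hC1]
    ring
  rw [id1]
  unfold Inf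
  have hZ0 : ∀ c ∈ C0, ∀ r ∈ R, c + r ∈ C + R := fun c hc r hr =>
    Finset.add_mem_add (Finset.mem_filter.1 hc).1 hr
  have hZ1 : ∀ c ∈ C1, ∀ r ∈ R, c + r ∈ C + R := fun c hc r hr =>
    Finset.add_mem_add (Finset.mem_filter.1 hc).1 hr
  have h2 := Psi_fiber (C + R) φ (fun z => N C0 R z) (fun z => N C1 R z)
    (fun z _ => N_nonneg _ _ _) (fun z _ => N_nonneg _ _ _)
  have h3 : ∀ b : ZMod p, ∑ z ∈ C + R, (if φ z = b then N C0 R z else 0) =
      (C.card * R.card : ℝ) * (x * dw R ψR b) := by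
    intro b
    rw [sum_indicator C0 R (C + R) hZ0 ψC ψR φ
      (fun c hc r hr => h c (Finset.mem_filter.1 hc).1 r hr) b]
    have : ∀ c ∈ C0, ((R.filter fun r => ψR r = b - ψC c).card : ℝ) = R.card * dw R ψR b := by
      intro c hc
      rw [hP c (Finset.mem_filter.1 hc).1 (Finset.mem_filter.1 hc).2, sub_zero,
        card_mul_dw R hR]
    rw [Finset.sum_congr rfl this, Finset.sum_const, nsmul_eq_mul, hx]
    field_simp
  have h4 : ∀ b : ZMod p, ∑ z ∈ C + R, (if φ z = b then N C1 R z else 0) =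
      (C.card * R.card : ℝ) * ((1 - x) * ∑ c, dw C1 ψC c * dw R ψR (b - c)) := by
    intro b
    rw [sum_indicator C1 R (C + R) hZ1 ψC ψR φ
      (fun c hc r hr => h c (Finset.mem_filter.1 hc).1 r hr) b]
    rw [← Finset.sum_fiberwise C1 ψC]
    have : ∀ a : ZMod p, ∑ c ∈ C1.filter (fun c => ψC c = a),
        ((R.filter fun r => ψR r = b - ψC c).card : ℝ) =
        (C1.card * R.card : ℝ) * (dw C1 ψC a * dw R ψR (b - a)) := by
      intro a
      have h5 : ∀ c ∈ C1.filter (fun c => ψC c = a),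
          ((R.filter fun r => ψR r = b - ψC c).card : ℝ) = R.card * dw R ψR (b - a) := by
        intro c hc
        rw [(Finset.mem_filter.1 hc).2, card_mul_dw R hR]
      rw [Finset.sum_congr rfl h5, Finset.sum_const, nsmul_eq_mul, ← card_mul_dw C1 h1 ψC a]
      ring
    rw [Finset.sum_congr rfl fun a _ => this a, ← Finset.mul_sum, hx']
    field_simp
  simp only [h3, h4, Psi_smul] at h2
  rw [← Finset.mul_sum] at h2
  have h5 : (∑ z ∈ C + R, Psi (N C0 R z) (N C1 R z)) / (C.card * R.card) ≤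
      ∑ b : ZMod p, Psi (x * dw R ψR b) ((1 - x) * ∑ c, dw C1 ψC c * dw R ψR (b - c)) := by
    rw [div_le_iff₀ (by positivity)]
    linarith
  linarith

end split

end H633R5.FS
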